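import Pool.Agent.FolGap.Defs

/-!
# Linear changes of the coordinates

PROOF of `exists_change`. `p'` has the same ring, `coord' i = ∑ j, C i j • coord j` (constants in
`k`), `der' i = ∑ j, C⁻¹ j i • der j` (constants, as elements of `K` or of `k`). Then
`der' i (coord' l) = ∑_j C⁻¹_(j i) C_(l j) = (C C⁻¹)_(l i)`; the `coord'` generate the same ideal
(`coord = C⁻¹ coord'`); `jac p' f = det (C⁻¹)ᵀ * jac p f` (`Matrix.det_mul`).
For the equality of rings `p'.ring = p.ring` it is best to construct `p'` explicitly
(`change p C`), so that this holds by `rfl`.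
-/

set_option autoImplicit false

noncomputable section

namespace Pool.Agent.FolGap

open IsLocalRing

variable {k K : Type} [Field k] [Field K] [Algebra k K] {d : ℕ}

theorem sum_smul_der_apply (c : Fin d → k) (D : Fin d → Derivation k K K) (f : K) :
    (∑ j, c j • D j) f = ∑ j, c j • D j f := by
  have h := map_sum (Derivation.coeFnAddMonoidHom (R := k) (A := K) (M := K))
    (fun j => c j • D j) Finset.univ
  have h2 := congrFun h f
  simp only [Finset.sum_apply] at h2
  exact h2

theorem exists_change (p : SmoothPoint k K d) (C : Matrix (Fin d) (Fin d) k) (hC : C.det ≠ 0) :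
    ∃ p' : SmoothPoint k K d, p'.ring = p.ring ∧
      (∀ i, (p'.coord i : K) = ∑ j, algebraMap k K (C i j) * (p.coord j : K)) ∧
      ∃ c : k, c ≠ 0 ∧ ∀ f : Fin d → K, jac p' f = algebraMap k K c * jac p f := by
  have hu : IsUnit C.det := hC.isUnit
  have hCB : C * C⁻¹ = 1 := Matrix.mul_nonsing_inv C hu
  have hBC : C⁻¹ * C = 1 := Matrix.nonsing_inv_mul C hu
  have hcoord : ∀ j, p.coord j = ∑ i, C⁻¹ j i • (∑ l, C i l • p.coord l) := by
    intro j
    simp only [Finset.smul_sum, smul_smul]
    rw [Finset.sum_comm]
    have h : ∀ l, ∑ i, (C⁻¹ j i * C i l) • p.coord l = (if j = l then p.coord l else 0) := by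
      intro l
      rw [← Finset.sum_smul, ← Matrix.mul_apply, hBC, Matrix.one_apply]
      split_ifs <;> simp
    simp only [h]
    simp
  have hspan : Ideal.span (Set.range fun i => ∑ l, C i l • p.coord l) =
      maximalIdeal p.ring := by
    rw [← p.span_coord]
    apply le_antisymm
    · rw [Ideal.span_le]
      rintro _ ⟨i, rfl⟩
      refine Ideal.sum_mem _ fun l _ => ?_
      rw [Algebra.smul_def]
      exact Ideal.mul_mem_left _ _ (Ideal.subset_span ⟨l, rfl⟩)
    · rw [Ideal.span_le]
      rintro _ ⟨j, rfl⟩
      rw [SetLike.mem_coe, hcoord j]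
      refine Ideal.sum_mem _ fun i _ => ?_
      rw [Algebra.smul_def]
      exact Ideal.mul_mem_left _ _ (Ideal.subset_span ⟨i, rfl⟩)
  refine ⟨{ ring := p.ring
            essFin := p.essFin
            frac := p.frac
            trdeg := p.trdeg
            isLocal := p.isLocal
            res := p.res
            coord := fun i => ∑ l, C i l • p.coord l
            span_coord := hspan
            der := fun i => ∑ j, C⁻¹ j i • p.der j
            der_mem := ?_
            der_coord := ?_ }, rfl, ?_, (C⁻¹).det, ?_, ?_⟩
  · intro i f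
    rw [sum_smul_der_apply]
    refine Subalgebra.sum_mem _ fun j _ => ?_
    exact Subalgebra.smul_mem _ (p.der_mem j f) _
  · intro i l
    rw [sum_smul_der_apply]
    have h1 : ∀ j, p.der j ((∑ m, C l m • p.coord m : p.ring) : K) = algebraMap k K (C l j) := by
      intro j
      have h2 : ((∑ m, C l m • p.coord m : p.ring) : K) = ∑ m, C l m • (p.coord m : K) := by
        push_cast
        rfl
      rw [h2, map_sum]
      simp only [Derivation.map_smul, p.der_coord]
      simp [Algebra.smul_def]
    have h3 : ∀ j, C⁻¹ j i • p.der j ((∑ m, C l m • p.coord m : p.ring) : K) =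
        algebraMap k K (C l j * C⁻¹ j i) := by
      intro j
      rw [h1 j, Algebra.smul_def, ← map_mul, mul_comm]
    simp only [h3]
    rw [← map_sum, ← Matrix.mul_apply, hCB, Matrix.one_apply]
    by_cases h : i = l
    · simp [h]
    · simp [h, Ne.symm h]
  · intro i
    change ((∑ l, C i l • p.coord l : p.ring) : K) = _
    push_cast
    refine Finset.sum_congr rfl fun j _ => ?_
    exact Algebra.smul_def _ _
  · intro h0
    have h1 : C.det * (C⁻¹).det = 1 := by
      rw [← Matrix.det_mul, hCB, Matrix.det_one]
    rw [h0, mul_zero] at h1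
    exact zero_ne_one h1
  · intro f
    have h1 : (Matrix.of fun i j : Fin d => (∑ l, C⁻¹ l i • p.der l) (f j)) =
        ((C⁻¹).map (algebraMap k K)).transpose * Matrix.of fun i j : Fin d => p.der i (f j) := by
      ext i j
      rw [Matrix.mul_apply, Matrix.of_apply, sum_smul_der_apply]
      refine Finset.sum_congr rfl fun l _ => ?_
      rw [Matrix.transpose_apply, Matrix.map_apply, Matrix.of_apply, Algebra.smul_def]
    have h2 : algebraMap k K (C⁻¹).det = ((C⁻¹).map (algebraMap k K)).det := by
      rw [RingHom.map_det]
      rfl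
    change Matrix.det (Matrix.of fun i j : Fin d => (∑ l, C⁻¹ l i • p.der l) (f j)) = _
    rw [h1, Matrix.det_mul, Matrix.det_transpose, h2]
    rfl

end Pool.Agent.FolGap
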