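import Mathlib

/-!
# Nilpotent matrices are triangularizable

PROOF. `exists_flag_basis`: induction on `n`. For `n + 1`: a nilpotent `L` on a space of dimension
`n + 1 ≥ 1` is not surjective, so its range is contained in a subspace `H` of dimension `n`
(a hyperplane: `Submodule.exists_le_ker_of_lt_top` or `exists_le_ker...`, a nonzero functional which
vanishes on the range). `L` maps `H` into `H`, the restriction is nilpotent; by induction it has a
basis `b`; take a vector `y` outside `H` and `Module.Basis.mkFinCons y b`: `L y ∈ H` is in the span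
of all the others. (`L (b i) ∈ span {b j : j > i}`.)
`exists_matrix`: apply this to `Matrix.toLin'` or `vecMulLinear` of the transposed matrix, so that
`C` has the basis vectors as rows: the condition says that the matrix `C M C⁻¹` is strictly upper
triangular: row `i` of `C M` is a combination of the rows `j > i` of `C`.
-/

set_option autoImplicit false

noncomputable section

namespace Pool.Agent.FolGap

theorem exists_flag_basis {k : Type} [Field k] (n : ℕ) (V : Type) [AddCommGroup V] [Module k V]
    [FiniteDimensional k V] (hn : Module.finrank k V = n) (L : V →ₗ[k] V) (N : ℕ)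
    (hL : L ^ N = 0) :
    ∃ b : Module.Basis (Fin n) k V, ∀ i, L (b i) ∈ Submodule.span k (b '' {j | i < j}) := by
  induction n generalizing V with
  | zero => exact ⟨basisOfFinrankZero hn, fun i => i.elim0⟩
  | succ n ih =>
    have hlt : LinearMap.range L < ⊤ := by
      rw [lt_top_iff_ne_top]
      intro htop
      rw [LinearMap.range_eq_top] at htop
      have h1 : Function.Surjective (L ^ N : V →ₗ[k] V) := by
        rw [Module.End.coe_pow]
        exact htop.iterate N
      have h2 : ∀ x : V, x = 0 := fun x => by
        obtain ⟨y, hy⟩ := h1 x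
        rw [← hy, hL]
        rfl
      have h3 : Module.finrank k V = 0 := by
        have : Subsingleton V := ⟨fun x y => by rw [h2 x, h2 y]⟩
        exact Module.finrank_zero_of_subsingleton
      omega
    obtain ⟨f, hf0, hf⟩ := Submodule.exists_le_ker_of_lt_top _ hlt
    set H : Submodule k V := LinearMap.ker f with hH
    have hfin : Module.finrank k H = n := by
      have := Module.Dual.finrank_ker_add_one_of_ne_zero hf0
      rw [hn] at this
      exact Nat.succ_injective this
    have hLH : ∀ x ∈ H, L x ∈ H := fun x _ => hf ⟨x, rfl⟩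
    obtain ⟨b', hb'⟩ := ih H hfin (L.restrict hLH) (by
      rw [Module.End.pow_restrict N hLH (fun x hx => by rw [hL]; exact H.zero_mem)]
      ext x
      simp [hL])
    obtain ⟨y, hy⟩ : ∃ y, f y ≠ 0 := by
      by_contra hcon
      push Not at hcon
      exact hf0 (LinearMap.ext hcon)
    have hli : ∀ (c : k), ∀ x ∈ H, c • y + x = 0 → c = 0 := by
      intro c x hx h
      have h1 := congrArg f h
      rw [map_add, map_smul, (LinearMap.mem_ker.1 hx), add_zero, map_zero, smul_eq_mul] at h1
      exact (mul_eq_zero.1 h1).resolve_right hy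
    have hsp : ∀ z : V, ∃ c : k, z + c • y ∈ H := by
      intro z
      refine ⟨-(f z / f y), ?_⟩
      rw [hH, LinearMap.mem_ker, map_add, map_smul, smul_eq_mul]
      field_simp
      ring
    refine ⟨Module.Basis.mkFinCons y b' hli hsp, ?_⟩
    set b := Module.Basis.mkFinCons y b' hli hsp with hb
    have hb0 : b 0 = y := by rw [hb, Module.Basis.coe_mkFinCons, Fin.cons_zero]
    have hbs : ∀ i : Fin n, b i.succ = (b' i : V) := fun i => by
      rw [hb, Module.Basis.coe_mkFinCons, Fin.cons_succ]
      rfl
    intro i
    refine Fin.cases ?_ (fun i => ?_) i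
    · rw [hb0]
      have h1 : L y ∈ H := hf ⟨y, rfl⟩
      have h2 : (⟨L y, h1⟩ : H) ∈ Submodule.span k (Set.range b') := by
        rw [b'.span_eq]; trivial
      have h3 := Submodule.mem_map_of_mem (f := H.subtype) h2
      rw [Submodule.map_span] at h3
      refine Submodule.span_mono ?_ h3
      rintro _ ⟨_, ⟨j, rfl⟩, rfl⟩
      exact ⟨j.succ, Fin.succ_pos j, hbs j⟩
    · rw [hbs]
      have h3 := Submodule.mem_map_of_mem (f := H.subtype) (hb' i)
      rw [Submodule.map_span] at h3
      refine Submodule.span_mono ?_ h3
      rintro _ ⟨_, ⟨j, hj, rfl⟩, rfl⟩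
      exact ⟨j.succ, Fin.succ_lt_succ_iff.2 hj, hbs j⟩

theorem exists_matrix {k : Type} [Field k] {d : ℕ} (M : Matrix (Fin d) (Fin d) k) (N : ℕ)
    (hM : M ^ N = 0) :
    ∃ C T : Matrix (Fin d) (Fin d) k, C.det ≠ 0 ∧ C * M = T * C ∧ ∀ i j, j ≤ i → T i j = 0 := by
  obtain ⟨b, hb⟩ := exists_flag_basis d (Fin d → k) (by simp) (Matrix.toLin' M.transpose) N (by
    rw [← Matrix.toLin'_pow, ← Matrix.transpose_pow, hM, Matrix.transpose_zero, map_zero])
  set C : Matrix (Fin d) (Fin d) k := Matrix.of fun i j => b i j with hC
  set T : Matrix (Fin d) (Fin d) k :=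
    Matrix.of fun i j => b.repr (Matrix.toLin' M.transpose (b i)) j with hT
  refine ⟨C, T, ?_, ?_, ?_⟩
  · have h1 : C = ((Pi.basisFun k (Fin d)).toMatrix b).transpose := by
      ext i j
      simp [hC, Module.Basis.toMatrix_apply]
    rw [h1, Matrix.det_transpose]
    intro h0
    have h2 := Module.Basis.toMatrix_mul_toMatrix_flip (Pi.basisFun k (Fin d)) b
    have h3 := congrArg Matrix.det h2
    rw [Matrix.det_mul, h0, zero_mul, Matrix.det_one] at h3
    exact zero_ne_one h3
  · ext i j
    have h1 := b.sum_repr (Matrix.toLin' M.transpose (b i))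
    have h2 := congrFun h1 j
    rw [Finset.sum_apply] at h2
    rw [Matrix.mul_apply, Matrix.mul_apply]
    simp only [hC, hT, Matrix.of_apply]
    simp only [Pi.smul_apply, smul_eq_mul] at h2
    rw [h2, Matrix.toLin'_apply, Matrix.mulVec, dotProduct]
    exact Finset.sum_congr rfl fun l _ => by rw [Matrix.transpose_apply, mul_comm]
  · intro i j hji
    have h1 := hb i
    rw [Module.Basis.mem_span_image] at h1
    by_contra hne
    have h2 : j ∈ (b.repr (Matrix.toLin' M.transpose (b i))).support := Finsupp.mem_support_iff.2 hne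
    exact absurd (h1 h2) (not_lt.2 hji)

end Pool.Agent.FolGap
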