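import Pool.Agent.FolGap.Hom
import Pool.Agent.FolGap.Flag
import Pool.Agent.FolGap.Change

/-!
# Adapted coordinates for a nilpotent derivation

PROOF of `exists_adapted`. `lin`: for `f` in `filt p w1 1` there are constants `c j` in `k` with
`f - ∑ c j z_j` in `filt p w1 2` (`filt_res` with `n = 1`: a weighted homogeneous polynomial of
weight `1` is `∑ c_j X_j`). In particular `D z_i = ∑_j M i j z_j + filt 2`. By induction
`D^[n] z_i - ∑_j (M ^ n) i j z_j ∈ filt 2` (`D` maps `filt 2` into `filt 2`: `D (a b) = a D b + b D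
a`, with `filt_mul` and span induction, using `D (ring) ⊆ filt 1`). As `D^[N] z_i ∈ filt 2`, the
polynomial `∑_j (M ^ N) i j X_j` has its value in `filt 2` and is zero by `hom_eq_zero` (weights
`1`, `n = 1`), so `M ^ N = 0`. Take `C, T` from `exists_matrix` and `p'` from `exists_change`. Then
`D (coord' i) = ∑_j C i j D z_j = ∑_l (C M) i l z_l + filt 2 = ∑_l (T C) i l z_l + filt 2 =
∑_(j > i) T i j coord' j + filt 2`. With the weights `w0`: `coord' j ∈ filt p' w0 (d + j)`,
`d + j ≥ d + i + 1`, and `filt p' w1 2 ≤ filt p' w0 (2 d)` (`filt_two`), `2 d ≥ d + i + 1`. (The ideal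
`filt w1 2` is the square of the maximal ideal for `p` and for `p'`: `filt_same`.) The last
statement: `filt p w1 1`, `filt p' w0 1` are both the maximal ideal (`filt_one_iff`).
-/

set_option autoImplicit false

noncomputable section

namespace Pool.Agent.FolGap

open IsLocalRing

variable {k K : Type} [Field k] [Field K] [Algebra k K] {d : ℕ}

/-- a linear form in the coordinates -/
private def lf (p : SmoothPoint k K d) (c : Fin d → k) : K :=
  ∑ j, algebraMap k K (c j) * zz p j

private theorem kmul_mem (p : SmoothPoint k K d) {w : Fin d → ℕ} {n : ℕ} (c : k) {x : K}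
    (hx : x ∈ filt p w n) : algebraMap k K c * x ∈ filt p w n :=
  Submodule.smul_mem (filt p w n) (algebraMap k p.ring c) hx

private theorem lf_poly_hom (c : Fin d → k) :
    (∑ j, MvPolynomial.C (c j) * MvPolynomial.X j : MvPolynomial (Fin d) k).IsWeightedHomogeneous
      (w1 d) 1 := by
  refine MvPolynomial.IsWeightedHomogeneous.sum _ _ _ fun j _ => ?_
  have h1 := (MvPolynomial.isWeightedHomogeneous_C (w1 d) (c j)).mul
    (MvPolynomial.isWeightedHomogeneous_X k (w1 d) j)
  have h2 : 0 + w1 d j = 1 := rfl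
  rw [h2] at h1
  exact h1

private theorem aeval_lf (p : SmoothPoint k K d) (c : Fin d → k) :
    MvPolynomial.aeval (zz p) (∑ j, MvPolynomial.C (c j) * MvPolynomial.X j) = lf p c := by
  unfold lf
  rw [map_sum]
  refine Finset.sum_congr rfl fun j _ => ?_
  rw [map_mul, MvPolynomial.aeval_C, MvPolynomial.aeval_X]

private theorem weight_w1 (α : Fin d →₀ ℕ) : Finsupp.weight (w1 d) α = ∑ i, α i := by
  rw [Finsupp.weight_apply, Finsupp.sum_fintype _ _ (fun i => by simp)]
  exact Finset.sum_congr rfl fun i _ => by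
    show α i * 1 = α i
    rw [mul_one]

private theorem exists_single {α : Fin d →₀ ℕ} (h : ∑ i, α i = 1) :
    ∃ j, α = Finsupp.single j 1 := by
  have h1 : ∃ j, α j ≠ 0 := by
    by_contra h2
    push Not at h2
    rw [Finset.sum_eq_zero fun i _ => h2 i] at h
    exact zero_ne_one h
  obtain ⟨j, hj⟩ := h1
  refine ⟨j, Finsupp.ext fun i => ?_⟩
  have h3 : α j + ∑ i ∈ Finset.univ.erase j, α i = 1 := by
    rw [Finset.add_sum_erase _ _ (Finset.mem_univ j)]
    exact h
  have h4 : ∑ i ∈ Finset.univ.erase j, α i = 0 := by omega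
  by_cases hi : i = j
  · rw [hi, Finsupp.single_eq_same]
    omega
  · rw [Finsupp.single_eq_of_ne hi]
    exact Finset.sum_eq_zero_iff.1 h4 i (Finset.mem_erase.2 ⟨hi, Finset.mem_univ i⟩)

private theorem lin {p : SmoothPoint k K d} {f : K} (hf : f ∈ filt p (w1 d) 1) :
    ∃ c : Fin d → k, f - lf p c ∈ filt p (w1 d) 2 := by
  obtain ⟨P, hP, hfP⟩ := filt_res p (w := w1 d) (fun _ => le_rfl) hf
  refine ⟨fun j => P.coeff (Finsupp.single j 1), ?_⟩
  rw [← aeval_lf]
  have h1 : P = ∑ j, MvPolynomial.C (P.coeff (Finsupp.single j 1)) * MvPolynomial.X j := by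
    classical
    ext α
    rw [MvPolynomial.coeff_sum]
    by_cases h : ∃ j, α = Finsupp.single j 1
    · obtain ⟨j, rfl⟩ := h
      rw [Finset.sum_eq_single j]
      · rw [MvPolynomial.coeff_C_mul, MvPolynomial.coeff_X', if_pos rfl, mul_one]
      · intro i _ hi
        rw [MvPolynomial.coeff_C_mul, MvPolynomial.coeff_X', if_neg, mul_zero]
        intro h2
        exact hi ((Finsupp.single_left_inj one_ne_zero).1 h2)
      · exact fun h2 => absurd (Finset.mem_univ j) h2
    · have h2 : P.coeff α = 0 := by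
        by_contra h3
        have h4 := hP h3
        rw [weight_w1] at h4
        exact h (exists_single h4)
      rw [h2]
      refine (Finset.sum_eq_zero fun j _ => ?_).symm
      rw [MvPolynomial.coeff_C_mul, MvPolynomial.coeff_X', if_neg, mul_zero]
      exact fun h3 => h ⟨j, h3.symm⟩
  rw [← h1]
  exact hfP

/-- a monomial of degree at least two is a product of two monomials of positive degree -/
private theorem mon_split (p : SmoothPoint k K d) {α : Fin d →₀ ℕ}
    (h : 2 ≤ Finsupp.weight (w1 d) α) :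
    ∃ x ∈ filt p (w1 d) 1, ∃ y ∈ filt p (w1 d) 1, mon p α = x * y := by
  rw [weight_w1] at h
  have h1 : ∃ j, α j ≠ 0 := by
    by_contra h2
    push Not at h2
    rw [Finset.sum_eq_zero fun i _ => h2 i] at h
    omega
  obtain ⟨j, hj⟩ := h1
  have hle : Finsupp.single j 1 ≤ α := by
    rw [Finsupp.single_le_iff]
    omega
  have h2 : α = Finsupp.single j 1 + (α - Finsupp.single j 1) := (add_tsub_cancel_of_le hle).symm
  have hs : ∑ i, (Finsupp.single j 1 : Fin d →₀ ℕ) i = 1 := by
    rw [Finset.sum_eq_single j]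
    · rw [Finsupp.single_eq_same]
    · intro i _ hi
      rw [Finsupp.single_eq_of_ne hi]
    · exact fun h2 => absurd (Finset.mem_univ j) h2
  have h3' : ∑ i, α i = ∑ i, (Finsupp.single j 1 : Fin d →₀ ℕ) i +
      ∑ i, (α - Finsupp.single j 1 : Fin d →₀ ℕ) i := by
    rw [← Finset.sum_add_distrib]
    refine Finset.sum_congr rfl fun i _ => ?_
    rw [← Finsupp.add_apply, ← h2]
  rw [hs] at h3'
  refine ⟨mon p (Finsupp.single j 1), Submodule.subset_span ⟨_, ?_, rfl⟩,
    mon p (α - Finsupp.single j 1), Submodule.subset_span ⟨_, ?_, rfl⟩, ?_⟩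
  · rw [weight_w1, hs]
  · rw [weight_w1]
    omega
  · rw [← mon_add, ← h2]

private theorem der_prod {p : SmoothPoint k K d} {D : Derivation k K K}
    (hD : ∀ f ∈ p.ring, D f ∈ filt p (w1 d) 1) {x y : K} (hx : x ∈ filt p (w1 d) 1)
    (hy : y ∈ filt p (w1 d) 1) : D (x * y) ∈ filt p (w1 d) 2 := by
  have h1 : x * D y ∈ filt p (w1 d) (1 + 1) := filt_mul hx (hD y (filt_le hy))
  have h2 : y * D x ∈ filt p (w1 d) (1 + 1) := filt_mul hy (hD x (filt_le hx))
  have h3 : D (x * y) = x * D y + y * D x := by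
    rw [Derivation.leibniz, smul_eq_mul, smul_eq_mul]
  rw [h3]
  exact Submodule.add_mem _ h1 h2

private theorem der_smul {p : SmoothPoint k K d} {D : Derivation k K K}
    (hD : ∀ f ∈ p.ring, D f ∈ filt p (w1 d) 1) (a : p.ring) {x : K}
    (hx : x ∈ filt p (w1 d) 2) (hx' : D x ∈ filt p (w1 d) 2) :
    D (a • x) ∈ filt p (w1 d) 2 := by
  have h1 : (a : K) * D x ∈ filt p (w1 d) 2 := Submodule.smul_mem (filt p (w1 d) 2) a hx'
  have h2 : x * D a ∈ filt p (w1 d) (2 + 1) := filt_mul hx (hD a a.2)
  have h3 : D (a • x) = a * D x + x * D a := by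
    rw [Subalgebra.smul_def, smul_eq_mul, Derivation.leibniz, smul_eq_mul, smul_eq_mul]
  rw [h3]
  exact Submodule.add_mem _ h1 (filt_anti p (w1 d) (Nat.le_succ 2) h2)

private theorem der_two {p : SmoothPoint k K d} {D : Derivation k K K}
    (hD : ∀ f ∈ p.ring, D f ∈ filt p (w1 d) 1) {f : K} (hf : f ∈ filt p (w1 d) 2) :
    D f ∈ filt p (w1 d) 2 := by
  unfold filt at hf
  induction hf using Submodule.span_induction with
  | mem x hx =>
    obtain ⟨α, hα, rfl⟩ := hx
    obtain ⟨x, hx, y, hy, e⟩ := mon_split p hα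
    rw [e]
    exact der_prod hD hx hy
  | zero =>
    rw [map_zero]
    exact Submodule.zero_mem _
  | add x y _ _ hx hy =>
    rw [map_add]
    exact Submodule.add_mem _ hx hy
  | smul a x hx' hx => exact der_smul hD a hx' hx

private theorem mem_one_iff (p : SmoothPoint k K d) {w : Fin d → ℕ} (hw : ∀ i, 1 ≤ w i) (x : K) :
    x ∈ filt p w 1 ↔ x ∈ p.ring ∧ ∀ y ∈ p.ring, x * y ≠ 1 := by
  constructor
  · intro h
    have hx := filt_le h
    refine ⟨hx, fun y hy hxy => ?_⟩
    have h1 := (filt_one_iff p hw ⟨x, hx⟩).1 h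
    rw [mem_maximalIdeal, mem_nonunits_iff] at h1
    apply h1
    exact IsUnit.of_mul_eq_one ⟨y, hy⟩ (Subtype.ext hxy)
  · rintro ⟨hx, h⟩
    refine (filt_one_iff p hw ⟨x, hx⟩).2 ?_
    rw [mem_maximalIdeal, mem_nonunits_iff]
    rintro ⟨u, hu⟩
    apply h ((u⁻¹ : p.ringˣ) : p.ring) (Subtype.property _)
    have h1 : (⟨x, hx⟩ : p.ring) * ((u⁻¹ : p.ringˣ) : p.ring) = 1 := by
      rw [← hu]
      exact u.mul_inv
    exact congrArg Subtype.val h1

private theorem one_same {p p' : SmoothPoint k K d} (hr : p'.ring = p.ring) {w w' : Fin d → ℕ}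
    (hw : ∀ i, 1 ≤ w i) (hw' : ∀ i, 1 ≤ w' i) {x : K} (hx : x ∈ filt p w 1) :
    x ∈ filt p' w' 1 := by
  rw [mem_one_iff p' hw', hr]
  exact (mem_one_iff p hw x).1 hx

private theorem two_same {p p' : SmoothPoint k K d} (hr : p'.ring = p.ring) {x : K}
    (hx : x ∈ filt p (w1 d) 2) : x ∈ filt p' (w1 d) 2 := by
  have hw : ∀ i : Fin d, 1 ≤ w1 d i := fun _ => le_rfl
  unfold filt at hx
  induction hx using Submodule.span_induction with
  | mem x hx =>
    obtain ⟨α, hα, rfl⟩ := hx
    obtain ⟨x, hx, y, hy, e⟩ := mon_split p hα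
    rw [e]
    have h1 : x * y ∈ filt p' (w1 d) (1 + 1) :=
      filt_mul (one_same hr hw hw hx) (one_same hr hw hw hy)
    exact h1
  | zero => exact Submodule.zero_mem _
  | add x y _ _ hx hy => exact Submodule.add_mem _ hx hy
  | smul a x _ hx =>
    have ha : (a : K) ∈ p'.ring := by
      rw [hr]
      exact a.2
    exact Submodule.smul_mem (filt p' (w1 d) 2) ⟨(a : K), ha⟩ hx

theorem exists_adapted [CharZero k] (p : SmoothPoint k K d) {D : Derivation k K K}
    (hD : ∀ f ∈ p.ring, D f ∈ filt p (w1 d) 1) {N : ℕ}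
    (hN : ∀ f ∈ p.ring, (⇑D)^[N] f ∈ filt p (w1 d) 2) :
    ∃ p' : SmoothPoint k K d, p'.ring = p.ring ∧
      (∃ c : k, c ≠ 0 ∧ ∀ f : Fin d → K, jac p' f = algebraMap k K c * jac p f) ∧
      (∀ i, D (zz p' i) ∈ filt p' (w0 d) (w0 d i + 1)) ∧
      ∀ f ∈ p'.ring, D f ∈ filt p' (w0 d) 1 := by
  have hw1 : ∀ i : Fin d, 1 ≤ w1 d i := fun _ => le_rfl
  have hw0 : ∀ i : Fin d, 1 ≤ w0 d i := fun i => by
    have := i.2
    unfold w0
    omega
  have hz : ∀ i, zz p i ∈ p.ring := fun i => (p.coord i).2
  choose M hM using fun i => lin (hD (zz p i) (hz i))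
  -- the derivative of a linear form
  have hlf : ∀ (A : Matrix (Fin d) (Fin d) k) (i : Fin d),
      D (lf p (A i)) - lf p ((A * (Matrix.of M)) i) ∈ filt p (w1 d) 2 := by
    intro A i
    have h1 : D (lf p (A i)) = ∑ j, algebraMap k K (A i j) * D (zz p j) := by
      unfold lf
      rw [map_sum]
      refine Finset.sum_congr rfl fun j _ => ?_
      rw [← Algebra.smul_def, D.map_smul, Algebra.smul_def]
    have h2 : lf p ((A * (Matrix.of M)) i) = ∑ j, algebraMap k K (A i j) * lf p (M j) := by
      unfold lf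
      simp only [Matrix.mul_apply, Matrix.of_apply, map_sum, map_mul, Finset.sum_mul,
        Finset.mul_sum, mul_assoc]
      exact Finset.sum_comm
    rw [h1, h2, ← Finset.sum_sub_distrib]
    refine sum_mem fun j _ => ?_
    rw [← mul_sub]
    exact kmul_mem p _ (hM j)
  -- the iterates
  have hit : ∀ (n : ℕ) (i : Fin d), (⇑D)^[n] (zz p i) - lf p (((Matrix.of M) ^ n) i) ∈
      filt p (w1 d) 2 := by
    intro n
    induction n with
    | zero =>
      intro i
      have h1 : lf p (((Matrix.of M) ^ 0) i) = zz p i := by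
        unfold lf
        rw [pow_zero, Finset.sum_eq_single i]
        · rw [Matrix.one_apply_eq, map_one, one_mul]
        · intro j _ hj
          rw [Matrix.one_apply_ne hj.symm, map_zero, zero_mul]
        · exact fun h2 => absurd (Finset.mem_univ i) h2
      rw [h1, Function.iterate_zero_apply, sub_self]
      exact zero_mem _
    | succ n ih =>
      intro i
      rw [Function.iterate_succ_apply', pow_succ]
      have h1 := der_two hD (ih i)
      rw [map_sub] at h1
      have h2 := add_mem h1 (hlf ((Matrix.of M) ^ n) i)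
      rw [sub_add_sub_cancel] at h2
      exact h2
  -- the matrix is nilpotent
  have hMN : (Matrix.of M) ^ N = 0 := by
    ext i j
    have h1 := hit N i
    have h2 : lf p (((Matrix.of M) ^ N) i) ∈ filt p (w1 d) 2 := by
      have h3 := sub_mem (hN _ (hz i)) h1
      rw [sub_sub_cancel] at h3
      exact h3
    rw [← aeval_lf] at h2
    have h4 := hom_eq_zero p hw1 (lf_poly_hom _) h2
    have h5 := congrArg (MvPolynomial.coeff (Finsupp.single j 1)) h4
    rw [MvPolynomial.coeff_sum, MvPolynomial.coeff_zero, Finset.sum_eq_single j] at h5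
    · classical
      rw [MvPolynomial.coeff_C_mul, MvPolynomial.coeff_X', if_pos rfl, mul_one] at h5
      exact h5
    · classical
      intro l _ hl
      rw [MvPolynomial.coeff_C_mul, MvPolynomial.coeff_X', if_neg, mul_zero]
      intro h6
      exact hl ((Finsupp.single_left_inj one_ne_zero).1 h6)
    · exact fun h6 => absurd (Finset.mem_univ j) h6
  obtain ⟨C, T, hC, hCT, hT⟩ := exists_matrix (Matrix.of M) N hMN
  obtain ⟨p', hr, hc, hjac⟩ := exists_change p C hC
  have hc' : ∀ i, zz p' i = lf p (C i) := hc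
  refine ⟨p', hr, hjac, fun i => ?_, fun f hf => ?_⟩
  · have h1 := two_same hr (hlf C i)
    have h2 := filt_two p' h1
    have h3 : lf p ((C * (Matrix.of M)) i) = ∑ j, algebraMap k K (T i j) * zz p' j := by
      rw [hCT]
      simp only [hc']
      unfold lf
      simp only [Matrix.mul_apply, map_sum, map_mul, Finset.sum_mul,
        Finset.mul_sum, mul_assoc]
      exact Finset.sum_comm
    have h4 : ∑ j, algebraMap k K (T i j) * zz p' j ∈ filt p' (w0 d) (w0 d i + 1) := by
      refine sum_mem fun j _ => ?_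
      rcases le_or_gt j i with h | h
      · rw [hT i j h, map_zero, zero_mul]
        exact zero_mem _
      · refine kmul_mem p' _ (filt_anti p' (w0 d) ?_ (coord_mem_filt p' (w0 d) j))
        have h5 : (i : ℕ) < j := h
        unfold w0
        omega
    have h5 : D (lf p (C i)) - lf p ((C * (Matrix.of M)) i) ∈ filt p' (w0 d) (w0 d i + 1) := by
      refine filt_anti p' (w0 d) ?_ h2
      have := i.2
      unfold w0
      omega
    rw [hc']
    have h6 := add_mem h5 h4
    rw [← h3, sub_add_cancel] at h6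
    exact h6
  · rw [hr] at hf
    exact one_same hr hw1 hw0 (hD f hf)

end Pool.Agent.FolGap
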