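import Pool.Agent.FolGap.Defs

/-!
# The origin of affine space

PROOF. `R = k[x_1, ..., x_d]`, `K` its fraction field, `ring` the subalgebra of all `g / h` with
`g, h` in `R`, `h (0) ≠ 0` (it is a localization of `R` at the complement of the prime ideal of
the origin). `essFin`: the coordinates generate `R`, and `h` is a unit. `trdeg`:
`MvPolynomial.trdeg_of_isDomain` and `K` is algebraic over `R`. `isLocal`:
`IsLocalRing.of_nonunits_add`, an element `g / h` is a unit iff `g (0) ≠ 0`. `res`:
`c = g (0) / h (0)`. `coord i = X i`. `span_coord`: a polynomial with `g (0) = 0` is in the ideal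
generated by the `X i`. `der i`: the partial derivative `MvPolynomial.pderiv i`, extended to the
field of fractions (`K` is formally étale over `R`).
-/

set_option autoImplicit false

noncomputable section

namespace Pool.Agent.FolGap

open IsLocalRing MvPolynomial

section affineAux

variable (k : Type) [Field k] (d : ℕ)

private abbrev AffK : Type := FractionRing (MvPolynomial (Fin d) k)

private abbrev affEmb : MvPolynomial (Fin d) k →+* AffK k d :=
  algebraMap (MvPolynomial (Fin d) k) (AffK k d)

private theorem affEmb_inj {g h : MvPolynomial (Fin d) k} (e : affEmb k d g = affEmb k d h) :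
    g = h :=
  IsFractionRing.injective (MvPolynomial (Fin d) k) (AffK k d) e

private theorem affEmb_ne {h : MvPolynomial (Fin d) k} (hh : constantCoeff h ≠ 0) :
    affEmb k d h ≠ 0 := by
  intro h0
  have h1 : h = 0 := affEmb_inj k d (by rw [h0, map_zero])
  rw [h1, map_zero] at hh
  exact hh rfl

private def affRing : Subalgebra k (AffK k d) where
  carrier := {x | ∃ g h : MvPolynomial (Fin d) k, constantCoeff h ≠ 0 ∧
    x = affEmb k d g / affEmb k d h}
  mul_mem' := by
    rintro _ _ ⟨g, h, hh, rfl⟩ ⟨g', h', hh', rfl⟩
    refine ⟨g * g', h * h', by rw [map_mul]; exact mul_ne_zero hh hh', ?_⟩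
    rw [map_mul, map_mul, div_mul_div_comm]
  add_mem' := by
    rintro _ _ ⟨g, h, hh, rfl⟩ ⟨g', h', hh', rfl⟩
    refine ⟨g * h' + h * g', h * h', by rw [map_mul]; exact mul_ne_zero hh hh', ?_⟩
    rw [map_add, map_mul, map_mul, map_mul,
      div_add_div _ _ (affEmb_ne k d hh) (affEmb_ne k d hh')]
  algebraMap_mem' := fun c => by
    refine ⟨C c, 1, by simp, ?_⟩
    rw [map_one, div_one, IsScalarTower.algebraMap_apply k (MvPolynomial (Fin d) k) (AffK k d)]
    rfl

private theorem affEmb_mem (g : MvPolynomial (Fin d) k) : affEmb k d g ∈ affRing k d :=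
  ⟨g, 1, by simp, by rw [map_one, div_one]⟩

private theorem affUnit {x : affRing k d} {g h : MvPolynomial (Fin d) k}
    (hh : constantCoeff h ≠ 0) (hx : (x : AffK k d) = affEmb k d g / affEmb k d h) :
    IsUnit x ↔ constantCoeff g ≠ 0 := by
  constructor
  · intro hu
    obtain ⟨y, hy⟩ := hu.exists_right_inv
    obtain ⟨g', h', hh', hy'⟩ := y.2
    have h1 : (x : AffK k d) * (y : AffK k d) = 1 := by
      rw [← MulMemClass.coe_mul, hy]
      rfl
    rw [hx, hy', div_mul_div_comm, div_eq_one_iff_eq
      (mul_ne_zero (affEmb_ne k d hh) (affEmb_ne k d hh')), ← map_mul, ← map_mul] at h1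
    have h2 := congrArg constantCoeff (affEmb_inj k d h1)
    rw [map_mul, map_mul] at h2
    intro h0
    rw [h0, zero_mul] at h2
    exact mul_ne_zero hh hh' h2.symm
  · intro hg
    refine IsUnit.of_mul_eq_one ⟨affEmb k d h / affEmb k d g, h, g, hg, rfl⟩ ?_
    apply Subtype.ext
    rw [MulMemClass.coe_mul, hx]
    simp only
    rw [div_mul_div_comm, mul_comm, div_self]
    · rfl
    · exact mul_ne_zero (affEmb_ne k d hh) (affEmb_ne k d hg)

private instance affLocal : IsLocalRing (affRing k d) := by
  refine IsLocalRing.of_nonunits_add fun a b ha hb => ?_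
  obtain ⟨g, h, hh, hx⟩ := a.2
  obtain ⟨g', h', hh', hx'⟩ := b.2
  have h1 : constantCoeff g = 0 := by
    by_contra hcon
    exact ha ((affUnit k d hh hx).2 hcon)
  have h2 : constantCoeff g' = 0 := by
    by_contra hcon
    exact hb ((affUnit k d hh' hx').2 hcon)
  intro hu
  have h3 : ((a + b : affRing k d) : AffK k d) =
      affEmb k d (g * h' + h * g') / affEmb k d (h * h') := by
    rw [AddMemClass.coe_add, hx, hx', map_add, map_mul, map_mul, map_mul,
      div_add_div _ _ (affEmb_ne k d hh) (affEmb_ne k d hh')]
  rw [affUnit k d (by rw [map_mul]; exact mul_ne_zero hh hh') h3] at hu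
  apply hu
  rw [map_add, map_mul, map_mul, h1, h2]
  simp

private theorem affMax {x : affRing k d} {g h : MvPolynomial (Fin d) k}
    (hh : constantCoeff h ≠ 0) (hx : (x : AffK k d) = affEmb k d g / affEmb k d h) :
    x ∈ maximalIdeal (affRing k d) ↔ constantCoeff g = 0 := by
  rw [IsLocalRing.mem_maximalIdeal, mem_nonunits_iff, affUnit k d hh hx, not_not]

private def affCoord (i : Fin d) : affRing k d := ⟨affEmb k d (X i), affEmb_mem k d _⟩

private theorem affAeval (g : MvPolynomial (Fin d) k) :
    ((aeval (affCoord k d) g : affRing k d) : AffK k d) = affEmb k d g := by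
  have h1 : (affRing k d).val.comp (aeval (affCoord k d)) =
      IsScalarTower.toAlgHom k (MvPolynomial (Fin d) k) (AffK k d) := by
    apply MvPolynomial.algHom_ext
    intro i
    rw [AlgHom.comp_apply, aeval_X]
    rfl
  exact DFunLike.congr_fun h1 g

private theorem affEss : Algebra.EssFiniteType k (affRing k d) := by
  classical
  rw [Algebra.essFiniteType_iff]
  refine ⟨Finset.univ.image (affCoord k d), fun s => ?_⟩
  rw [Finset.coe_image, Finset.coe_univ, Set.image_univ, Algebra.adjoin_range_eq_range_aeval]
  obtain ⟨g, h, hh, hx⟩ := s.2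
  refine ⟨aeval (affCoord k d) h, ⟨h, rfl⟩, ?_, ⟨g, ?_⟩⟩
  · exact (affUnit k d (g := h) (h := 1) (by simp)
      (by rw [affAeval, map_one, div_one])).2 hh
  · apply Subtype.ext
    change ((aeval (affCoord k d) g : affRing k d) : AffK k d) = _
    rw [MulMemClass.coe_mul, affAeval, affAeval, hx, div_mul_cancel₀ _ (affEmb_ne k d hh)]

private theorem affTrdeg : Algebra.trdeg k (AffK k d) = d := by
  have h1 : Algebra.trdeg k (MvPolynomial (Fin d) k) = d := by
    rw [MvPolynomial.trdeg_of_isDomain]
    simp
  have h2 : Algebra.IsAlgebraic (MvPolynomial (Fin d) k) (AffK k d) :=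
    (IsFractionRing.comap_isAlgebraic_iff (A := MvPolynomial (Fin d) k)
      (K := AffK k d) (C := AffK k d)).2 inferInstance
  have h3 := trdeg_add_eq k (MvPolynomial (Fin d) k) (A := AffK k d)
  rw [h1, trdeg_eq_zero (R := MvPolynomial (Fin d) k), add_zero] at h3
  exact h3.symm

private theorem affSpan :
    Ideal.span (Set.range (affCoord k d)) = maximalIdeal (affRing k d) := by
  apply le_antisymm
  · rw [Ideal.span_le]
    rintro _ ⟨i, rfl⟩
    exact (affMax k d (g := X i) (h := 1) (by simp) (by rw [map_one, div_one]; rfl)).2 (by simp)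
  · intro x hx
    obtain ⟨g, h, hh, hgh⟩ := x.2
    have h1 : constantCoeff g = 0 := (affMax k d hh hgh).1 hx
    have h2 : g ∈ Ideal.span (X '' (Set.univ : Set (Fin d))) := by
      rw [MvPolynomial.mem_ideal_span_X_image]
      intro m hm
      by_contra hcon
      push Not at hcon
      have h3 : m = 0 := by
        ext i
        exact hcon i (Set.mem_univ i)
      rw [mem_support_iff, h3] at hm
      exact hm h1
    have h3 : aeval (affCoord k d) g ∈ Ideal.span (Set.range (affCoord k d)) := by
      have h4 := Ideal.mem_map_of_mem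
        (aeval (affCoord k d) : MvPolynomial (Fin d) k →ₐ[k] affRing k d) h2
      rw [Ideal.map_span, Set.image_image, Set.image_univ] at h4
      simpa only [aeval_X] using h4
    have h4 : x = ⟨(affEmb k d h)⁻¹, 1, h, hh, by rw [map_one, one_div]⟩ *
        aeval (affCoord k d) g := by
      apply Subtype.ext
      rw [MulMemClass.coe_mul, affAeval, hgh]
      simp only
      rw [div_eq_mul_inv, mul_comm]
    rw [h4]
    exact Ideal.mul_mem_left _ _ h3

private theorem affRes (f : affRing k d) :
    ∃ c : k, f - algebraMap k (affRing k d) c ∈ maximalIdeal (affRing k d) := by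
  obtain ⟨g, h, hh, hx⟩ := f.2
  refine ⟨constantCoeff g / constantCoeff h, ?_⟩
  have h1 : ((f - algebraMap k (affRing k d) (constantCoeff g / constantCoeff h) :
      affRing k d) : AffK k d) =
      affEmb k d (g - h * C (constantCoeff g / constantCoeff h)) / affEmb k d h := by
    rw [AddSubgroupClass.coe_sub, hx, map_sub, map_mul, sub_div, mul_div_assoc, mul_comm,
      div_mul_cancel₀ _ (affEmb_ne k d hh)]
    congr 1
  rw [affMax k d hh h1, map_sub, map_mul, constantCoeff_C, mul_div_cancel₀ _ hh, sub_self]

private theorem affDer (i : Fin d) : ∃ D : Derivation k (AffK k d) (AffK k d),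
    ∀ g : MvPolynomial (Fin d) k, D (affEmb k d g) = affEmb k d (pderiv i g) := by
  have hE : Algebra.FormallyEtale (MvPolynomial (Fin d) k) (AffK k d) :=
    Algebra.FormallyEtale.of_isLocalization (nonZeroDivisors (MvPolynomial (Fin d) k))
  let D₀ : Derivation k (MvPolynomial (Fin d) k) (AffK k d) :=
    (Algebra.linearMap (MvPolynomial (Fin d) k) (AffK k d)).compDer (pderiv i)
  let e := KaehlerDifferential.tensorKaehlerEquivOfFormallyEtale k
    (MvPolynomial (Fin d) k) (AffK k d)
  let l := (D₀.liftKaehlerDifferential.liftBaseChange (AffK k d)).comp e.symm.toLinearMap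
  refine ⟨l.compDer (KaehlerDifferential.D k (AffK k d)), fun g => ?_⟩
  have h1 : (l.compDer (KaehlerDifferential.D k (AffK k d))) (affEmb k d g) =
      (D₀.liftKaehlerDifferential.liftBaseChange (AffK k d))
        (e.symm (KaehlerDifferential.D k (AffK k d) (affEmb k d g))) := rfl
  rw [h1, KaehlerDifferential.tensorKaehlerEquivOfFormallyEtale_symm_D_algebraMap,
    LinearMap.liftBaseChange_tmul, Derivation.liftKaehlerDifferential_comp_D, one_smul]
  rfl

end affineAux

theorem exists_smoothPoint (k : Type) [Field k] (d : ℕ) :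
    Nonempty (SmoothPoint k (FractionRing (MvPolynomial (Fin d) k)) d) := by
  choose D hD using affDer k d
  exact ⟨{
    ring := affRing k d
    essFin := affEss k d
    frac := fun f => by
      obtain ⟨a, b, hb, rfl⟩ := IsFractionRing.div_surjective (A := MvPolynomial (Fin d) k) f
      refine ⟨_, affEmb_mem k d a, _, affEmb_mem k d b, ?_, rfl⟩
      intro h0
      have h1 : b = 0 := affEmb_inj k d (by rw [h0, map_zero])
      exact nonZeroDivisors.ne_zero hb h1
    trdeg := affTrdeg k d
    isLocal := affLocal k d
    res := affRes k d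
    coord := affCoord k d
    span_coord := affSpan k d
    der := D
    der_mem := fun i f => by
      obtain ⟨g, h, hh, hx⟩ := f.2
      rw [hx, Derivation.leibniz_div, hD, hD]
      refine ⟨h * pderiv i g - g * pderiv i h, h ^ 2, by
        rw [map_pow]; exact pow_ne_zero 2 hh, ?_⟩
      rw [map_sub, map_mul, map_mul, map_pow]
      simp only [smul_eq_mul]
      have := affEmb_ne k d hh
      field_simp
    der_coord := fun i j => by
      change D i (affEmb k d (X j)) = _
      rw [hD, pderiv_X]
      by_cases hij : i = j
      · subst hij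
        simp
      · rw [if_neg hij, Pi.single_apply, if_neg (fun h => hij h.symm), map_zero] }⟩

end Pool.Agent.FolGap
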