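import Pool.Agent.FolGap.Defs

/-!
# Interpolated log canonical thresholds with a boundary divisor with real coefficients
-/

set_option autoImplicit false

noncomputable section

namespace Pool.Agent.FolGap

open IsLocalRing

variable {k K : Type} [Field k] [Field K] [Algebra k K] {d : ℕ}

/-- The adjoint foliated structure `(X, F, t B, t)` is log canonical at the point, where
`B = B₀ + ∑ b_j div (f_j)` and `D` generates `O(-(K_F + B₀))` (`B₀` an effective divisor with
integral coefficients, for example `0`; then `D` generates the foliation). The multiplicity of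
`D_Y` along a prime divisor `E` over `X` is `t (m + ∑ b_j ord_E (f_j)) - (1 - t) a`, and it has to be
at most `t ε(E) + (1 - t)`. -/
def LcB (p : SmoothPoint k K d) (D : Derivation k K K) {s : ℕ} (b : Fin s → ℝ) (f : Fin s → K)
    (t : ℝ) : Prop :=
  ∀ v : AddValuation K (WithTop ℤ), IsDivisor p v → ∀ m a : ℤ, OrdAlong v D m → Disc p v a →
    ∀ n : Fin s → ℤ, (∀ j, v (f j) = ((n j : ℤ) : WithTop ℤ)) →
      t * (m + ∑ j, b j * n j) - (1 - t) * a ≤ t * eps v D m + (1 - t)

/-- The interpolated log canonical threshold of `(X, F, B)` at the point: the supremum of all `t` in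
`[0, 1]` for which `(X, F, t B, t)` is log canonical. -/
def ilctB (p : SmoothPoint k K d) (D : Derivation k K K) {s : ℕ} (b : Fin s → ℝ)
    (f : Fin s → K) : ℝ :=
  sSup {t : ℝ | 0 ≤ t ∧ t ≤ 1 ∧ LcB p D b f t}

end Pool.Agent.FolGap
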