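import Pool.Agent.FolGap.Defs

/-!
# Changes of coordinates

PROOF of `exists_coords`. `p'` has the same ring, `coord' = y`, `der' i = ∑_j (M⁻¹) i j • der j`
where `M i j = ∂_i y_j` is the matrix of the Jacobian (entries in `K`; its inverse has entries in the
ring: `M⁻¹ = det⁻¹ adj M`, `det⁻¹ = u`). Then `der' i (y l) = (M⁻¹ M) i l`; `der' i f` is in the ring
for `f` in the ring (`adj M` has entries in the ring). `jac p' f = det (M⁻¹) * jac p f`
(`Matrix.det_mul`). The only point is that the `y_i` generate the maximal ideal: for `f` in the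
maximal ideal `f = ∑ a_j z_j` (`span_coord`, `Ideal.mem_span_range_iff_exists_fun`),
`∂_i f = a_i + ∑_j z_j ∂_i a_j`, so `f - ∑_j (∂_j f) z_j ∈ m ^ 2`. In particular
`y_i - ∑_j (∂_j y_i) z_j ∈ m ^ 2`, and as the matrix `M` is invertible over the ring,
`z_j ∈ span (y) + m ^ 2`, `m ≤ span (y) ⊔ m • m`; by Nakayama (`Submodule.le_of_le_smul_of_le_jacobson_bot`
or `Submodule.sup_smul_eq_of_le_...`) `m = span (y)`.
-/

set_option autoImplicit false

noncomputable section

namespace Pool.Agent.FolGap

open IsLocalRing

variable {k K : Type} [Field k] [Field K] [Algebra k K] {d : ℕ}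

private theorem coords_sum_apply (c : Fin d → K) (D : Fin d → Derivation k K K) (f : K) :
    (∑ j, c j • D j) f = ∑ j, c j * D j f := by
  have h := map_sum (Derivation.coeFnAddMonoidHom (R := k) (A := K) (M := K))
    (fun j => c j • D j) Finset.univ
  have h2 := congrFun h f
  simp only [Finset.sum_apply] at h2
  exact h2

/-- the derivation on the ring -/
private def coords_der (p : SmoothPoint k K d) (i : Fin d) (f : p.ring) : p.ring :=
  ⟨p.der i (f : K), p.der_mem i f⟩

private theorem coords_taylor (p : SmoothPoint k K d) {f : p.ring} (hf : f ∈ maximalIdeal p.ring) :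
    f - ∑ i, coords_der p i f * p.coord i ∈ maximalIdeal p.ring * maximalIdeal p.ring := by
  have hz : ∀ i, p.coord i ∈ maximalIdeal p.ring := fun i => by
    rw [← p.span_coord]
    exact Ideal.subset_span ⟨i, rfl⟩
  rw [← p.span_coord] at hf
  obtain ⟨a, ha⟩ := (Ideal.mem_span_range_iff_exists_fun).1 hf
  have h1 : ∀ i, coords_der p i f = a i + ∑ j, p.coord j * coords_der p i (a j) := by
    intro i
    apply Subtype.ext
    have h2 : ((∑ j, a j * p.coord j : p.ring) : K) = ∑ j, (a j : K) * (p.coord j : K) := by
      push_cast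
      rfl
    have h3 : ((a i + ∑ j, p.coord j * coords_der p i (a j) : p.ring) : K) =
        (a i : K) + ∑ j, (p.coord j : K) * p.der i (a j : K) := by
      push_cast
      rfl
    show p.der i (f : K) = _
    rw [h3, ← ha, h2, map_sum]
    have h4 : ∀ j, p.der i ((a j : K) * (p.coord j : K)) =
        (a j : K) * (if i = j then 1 else 0) + (p.coord j : K) * p.der i (a j : K) := by
      intro j
      rw [Derivation.leibniz, p.der_coord]
      rfl
    rw [Finset.sum_congr rfl fun j _ => h4 j, Finset.sum_add_distrib]
    congr 1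
    simp
  have h2 : f - ∑ i, coords_der p i f * p.coord i =
      -∑ i, ∑ j, coords_der p i (a j) * (p.coord j * p.coord i) := by
    have h3 : ∑ i, coords_der p i f * p.coord i =
        ∑ i, a i * p.coord i + ∑ i, ∑ j, coords_der p i (a j) * (p.coord j * p.coord i) := by
      rw [← Finset.sum_add_distrib]
      refine Finset.sum_congr rfl fun i _ => ?_
      rw [h1 i, add_mul, Finset.sum_mul]
      congr 1
      exact Finset.sum_congr rfl fun j _ => by ring
    rw [h3, ha]
    ring
  rw [h2]
  refine neg_mem (Ideal.sum_mem _ fun i _ => Ideal.sum_mem _ fun j _ => ?_)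
  exact Ideal.mul_mem_left _ _ (Ideal.mul_mem_mul (hz j) (hz i))

theorem exists_coords (p : SmoothPoint k K d) (y : Fin d → p.ring)
    (hy : ∀ i, y i ∈ maximalIdeal p.ring) {u : K} (hu : u ∈ p.ring)
    (hJ : jac p (fun j => (y j : K)) * u = 1) :
    ∃ p' : SmoothPoint k K d, p'.ring = p.ring ∧ (∀ i, (p'.coord i : K) = y i) ∧
      ∀ f : Fin d → K, jac p' f = u * jac p f := by
  obtain ⟨N, hN⟩ : ∃ N : Matrix (Fin d) (Fin d) p.ring,
      N = Matrix.of fun i j => coords_der p i (y j) := ⟨_, rfl⟩
  obtain ⟨v, hv⟩ : ∃ v : p.ring, v = ⟨u, hu⟩ := ⟨_, rfl⟩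
  have hmap : (algebraMap p.ring K).mapMatrix N =
      Matrix.of fun i j : Fin d => p.der i (y j : K) := by
    rw [hN]
    rfl
  have hdet : N.det * v = 1 := by
    apply Subtype.ext
    have h1 : ((N.det * v : p.ring) : K) = algebraMap p.ring K N.det * u := by
      rw [hv]
      rfl
    rw [h1, RingHom.map_det, hmap]
    exact hJ
  obtain ⟨B, hB⟩ : ∃ B : Matrix (Fin d) (Fin d) p.ring, B = v • N.adjugate := ⟨_, rfl⟩
  have hBN : B * N = 1 := by
    rw [hB, Matrix.smul_mul, Matrix.adjugate_mul, smul_smul, mul_comm, hdet, one_smul]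
  have hNB : N * B = 1 := by
    rw [hB, Matrix.mul_smul, Matrix.mul_adjugate, smul_smul, mul_comm, hdet, one_smul]
  have hBdet : B.det = v := by
    have h1 : B.det * N.det = 1 := by rw [← Matrix.det_mul, hBN, Matrix.det_one]
    calc B.det = B.det * (N.det * v) := by rw [hdet, mul_one]
      _ = (B.det * N.det) * v := by ring
      _ = v := by rw [h1, one_mul]
  have hy' : ∀ l, y l - ∑ i, N i l * p.coord i ∈ maximalIdeal p.ring * maximalIdeal p.ring := by
    intro l
    have h1 := coords_taylor p (hy l)
    rw [hN]
    exact h1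
  have hz : ∀ j, p.coord j ∈ Ideal.span (Set.range y) ⊔
      maximalIdeal p.ring * maximalIdeal p.ring := by
    intro j
    have h1 : p.coord j = ∑ l, B l j * (∑ i, N i l * p.coord i) := by
      have h2 : ∑ l, B l j * (∑ i, N i l * p.coord i) = ∑ i, (N * B) i j * p.coord i := by
        simp only [Matrix.mul_apply, Finset.mul_sum, Finset.sum_mul]
        rw [Finset.sum_comm]
        exact Finset.sum_congr rfl fun i _ => Finset.sum_congr rfl fun l _ => by ring
      rw [h2, hNB]
      simp [Matrix.one_apply]
    have h2 : p.coord j = ∑ l, B l j * y l -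
        ∑ l, B l j * (y l - ∑ i, N i l * p.coord i) := by
      rw [← Finset.sum_sub_distrib]
      refine h1.trans (Finset.sum_congr rfl fun l _ => by ring)
    rw [h2]
    refine Submodule.sub_mem _ ?_ ?_
    · refine Submodule.mem_sup_left (Ideal.sum_mem _ fun l _ => ?_)
      exact Ideal.mul_mem_left _ _ (Ideal.subset_span ⟨l, rfl⟩)
    · exact Submodule.mem_sup_right (Ideal.sum_mem _ fun l _ => Ideal.mul_mem_left _ _ (hy' l))
  have hspan : Ideal.span (Set.range y) = maximalIdeal p.ring := by
    refine le_antisymm ?_ ?_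
    · rw [Ideal.span_le]
      rintro _ ⟨i, rfl⟩
      exact hy i
    · refine Submodule.le_of_le_smul_of_le_jacobson_bot (I := maximalIdeal p.ring)
        (IsNoetherian.noetherian _) (maximalIdeal_le_jacobson _) ?_
      conv_lhs => rw [← p.span_coord]
      rw [Ideal.span_le]
      rintro _ ⟨j, rfl⟩
      exact hz j
  refine ⟨{ ring := p.ring
            essFin := p.essFin
            frac := p.frac
            trdeg := p.trdeg
            isLocal := p.isLocal
            res := p.res
            coord := y
            span_coord := hspan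
            der := fun i => ∑ j, (B i j : K) • p.der j
            der_mem := ?_
            der_coord := ?_ }, rfl, fun _ => rfl, ?_⟩
  · intro i f
    rw [coords_sum_apply]
    exact Subalgebra.sum_mem _ fun j _ => Subalgebra.mul_mem _ (B i j).2 (p.der_mem j f)
  · intro i l
    rw [coords_sum_apply]
    have h1 : ((∑ j, B i j * N j l : p.ring) : K) = ∑ j, (B i j : K) * p.der j (y l : K) := by
      push_cast
      rw [hN]
      rfl
    rw [← h1, ← Matrix.mul_apply, hBN, Matrix.one_apply]
    split_ifs <;> rfl
  · intro f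
    have h1 : (Matrix.of fun i j : Fin d => (∑ l, (B i l : K) • p.der l) (f j)) =
        (algebraMap p.ring K).mapMatrix B * Matrix.of fun i j : Fin d => p.der i (f j) := by
      ext i j
      rw [Matrix.mul_apply, Matrix.of_apply, coords_sum_apply]
      rfl
    show Matrix.det (Matrix.of fun i j : Fin d => (∑ l, (B i l : K) • p.der l) (f j)) = _
    rw [h1, Matrix.det_mul, ← RingHom.map_det, hBdet, hv]
    rfl

end Pool.Agent.FolGap
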