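import Mathlib

/-!
# Sets of real numbers with the descending chain condition

PROOF. `Γ` is well-founded (`Set.IsWF`, `Set.isWF_iff_no_descending_seq` or similar), so
partially well ordered (`Set.IsWF.isPWO`, linear order). `β`: if `Γ \ {0}` is nonempty take its
minimum (`Set.IsWF.min`), otherwise `1`. `δ`: the additive closure of `Γ` is partially well ordered
(`Set.IsPWO.addSubmonoid_closure` with `0 ≤ γ`), the sums `∑ b_j n_j` are in it; if there are sums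
greater than one let `1 + δ` be the minimum of the part of the closure above `1`, otherwise
`δ = 1`.
-/

set_option autoImplicit false

noncomputable section

namespace Pool.Agent.FolGap

theorem exists_delta {Γ : Set ℝ} (h0 : ∀ γ ∈ Γ, 0 ≤ γ)
    (hΓ : ∀ g : ℕ → ℝ, StrictAnti g → ∃ n, g n ∉ Γ) :
    ∃ β > 0, ∃ δ > 0, (∀ γ ∈ Γ, γ = 0 ∨ β ≤ γ) ∧
      ∀ (s : ℕ) (b : Fin s → ℝ) (n : Fin s → ℕ), (∀ j, b j ∈ Γ) → 1 < ∑ j, b j * n j →
        1 + δ ≤ ∑ j, b j * n j := by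
  have hwf : Γ.IsWF := by
    rw [Set.isWF_iff_no_descending_seq]
    intro f hf hn
    obtain ⟨n, hn'⟩ := hΓ f hf
    exact hn' (hn n)
  have hpwo : Γ.IsPWO := hwf.isPWO
  have hcl : (AddSubmonoid.closure Γ : Set ℝ).IsPWO :=
    Set.IsPWO.addSubmonoid_closure (fun x hx => h0 x hx) hpwo
  obtain ⟨β, hβ, hβ2⟩ : ∃ β > 0, ∀ γ ∈ Γ, γ = 0 ∨ β ≤ γ := by
    by_cases hne : (Γ \ {0}).Nonempty
    · have hw : (Γ \ {0}).IsWF := (hpwo.mono Set.sdiff_subset).isWF
      refine ⟨hw.min hne, ?_, fun γ hγ => ?_⟩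
      · have h1 := hw.min_mem hne
        exact lt_of_le_of_ne (h0 _ h1.1) (fun h => h1.2 h.symm)
      · by_cases h : γ = 0
        · exact Or.inl h
        · exact Or.inr (hw.min_le hne ⟨hγ, h⟩)
    · refine ⟨1, one_pos, fun γ hγ => Or.inl ?_⟩
      by_contra h
      exact hne ⟨γ, hγ, h⟩
  have hsum : ∀ (s : ℕ) (b : Fin s → ℝ) (n : Fin s → ℕ), (∀ j, b j ∈ Γ) →
      ∑ j, b j * n j ∈ AddSubmonoid.closure Γ := by
    intro s b n hb
    refine sum_mem fun j _ => ?_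
    rw [mul_comm, ← nsmul_eq_mul]
    exact AddSubmonoid.nsmul_mem _ (AddSubmonoid.subset_closure (hb j)) _
  obtain ⟨δ, hδ, hδ2⟩ : ∃ δ > 0, ∀ x ∈ AddSubmonoid.closure Γ, 1 < x → 1 + δ ≤ x := by
    by_cases hne : ((AddSubmonoid.closure Γ : Set ℝ) ∩ {x | 1 < x}).Nonempty
    · have hw : ((AddSubmonoid.closure Γ : Set ℝ) ∩ {x | 1 < x}).IsWF :=
        (hcl.mono Set.inter_subset_left).isWF
      refine ⟨hw.min hne - 1, ?_, fun x hx h1 => ?_⟩
      · have h1 : 1 < hw.min hne := (hw.min_mem hne).2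
        exact sub_pos.2 h1
      · have h2 := hw.min_le hne ⟨hx, h1⟩
        linarith
    · refine ⟨1, one_pos, fun x hx h1 => ?_⟩
      exact absurd ⟨x, hx, h1⟩ hne
  exact ⟨β, hβ, δ, hδ, hβ2, fun s b n hb h1 => hδ2 _ (hsum s b n hb) h1⟩

end Pool.Agent.FolGap
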