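import Mathlib

/-!
# Foliations of rank one on smooth varieties: interpolated log canonical thresholds (definitions)

`K` is the function field of a variety `X` of dimension `d` over the field `k` of characteristic
zero, and `ring` is the local ring of `X` at a smooth closed point `x` with residue field `k`. A
foliation of rank one on a neighbourhood of `x`, together with an effective divisor `B` with
integral coefficients, is given by a derivation `D ≠ 0` of the local ring, the generator of
`T_F(-B) = O(-(K_F + B))` at `x` (on a smooth variety this sheaf is invertible).

A prime divisor `E` over `X` whose centre contains `x` is given by its valuation: a normalized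
discrete valuation `v` of `K` which is nonnegative on the local ring, with a residue field of
transcendence degree `d - 1` over `k`.
-/

set_option autoImplicit false

noncomputable section

namespace Pool.Agent.FolGap

open IsLocalRing

/-- A smooth closed point, with residue field `k`, of a `d`-dimensional variety over `k` with
function field `K`: the local ring (a localization of a finitely generated algebra), with
coordinates and the dual derivations (the partial derivatives with respect to the coordinates). -/
structure SmoothPoint (k K : Type) [Field k] [Field K] [Algebra k K] (d : ℕ) where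
  /-- the local ring -/
  ring : Subalgebra k K
  essFin : Algebra.EssFiniteType k ring
  frac : ∀ f : K, ∃ g ∈ ring, ∃ h ∈ ring, h ≠ 0 ∧ f = g / h
  trdeg : Algebra.trdeg k K = d
  [isLocal : IsLocalRing ring]
  res : ∀ f : ring, ∃ c : k, f - algebraMap k ring c ∈ maximalIdeal ring
  /-- the coordinates -/
  coord : Fin d → ring
  span_coord : Ideal.span (Set.range coord) = maximalIdeal ring
  /-- the partial derivatives -/
  der : Fin d → Derivation k K K
  der_mem : ∀ (i : Fin d) (f : ring), der i (f : K) ∈ ring
  der_coord : ∀ i j : Fin d, der i (coord j : K) = if i = j then 1 else 0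

attribute [instance] SmoothPoint.isLocal

instance SmoothPoint.noeth {k K : Type} [Field k] [Field K] [Algebra k K] {d : ℕ}
    (p : SmoothPoint k K d) : IsNoetherianRing p.ring :=
  haveI := p.essFin
  Algebra.EssFiniteType.isNoetherianRing k p.ring

variable {k K : Type} [Field k] [Field K] [Algebra k K] {d : ℕ}

/-- `v` is the valuation of a prime divisor `E` over `X` whose centre contains the point: it is
nonnegative on the local ring, its value group is `ℤ`, and its residue field has transcendence
degree `d - 1` over `k` (there are `d - 1` elements with algebraically independent residues). -/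
structure IsDivisor (p : SmoothPoint k K d) (v : AddValuation K (WithTop ℤ)) : Prop where
  nonneg : ∀ f ∈ p.ring, 0 ≤ v f
  surj : ∃ f : K, v f = 1
  trdeg : ∃ u : Fin (d - 1) → K, ∀ P : MvPolynomial (Fin (d - 1)) k, P ≠ 0 →
    v (MvPolynomial.aeval u P) = 0

/-- `m` is the order of the derivation `D` along the divisor `E`: the largest integer such that
`D / π ^ m` maps the valuation ring into itself (`π` a uniformizer). So `D / π ^ m` generates the
induced foliation at the generic point of `E`. -/
def OrdAlong (v : AddValuation K (WithTop ℤ)) (D : Derivation k K K) (m : ℤ) : Prop :=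
  IsGreatest {m : ℤ | ∀ f : K, 0 ≤ v f → (m : WithTop ℤ) ≤ v (D f)} m

/-- The divisor `E` is invariant: `D / π ^ m` maps the maximal ideal of the valuation ring into
itself. -/
def Invariant (v : AddValuation K (WithTop ℤ)) (D : Derivation k K K) (m : ℤ) : Prop :=
  ∀ f : K, 0 < v f → (m : WithTop ℤ) < v (D f)

open Classical in
/-- `ε(E)`, which is `0` if the divisor is invariant and `1` otherwise. -/
def eps (v : AddValuation K (WithTop ℤ)) (D : Derivation k K K) (m : ℤ) : ℤ :=
  if Invariant v D m then 0 else 1

/-- The Jacobian determinant of `f 1, ..., f d` with respect to the coordinates at the point: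
`d f_1 ∧ ... ∧ d f_d = jac f * d x_1 ∧ ... ∧ d x_d`. -/
def jac (p : SmoothPoint k K d) (f : Fin d → K) : K :=
  Matrix.det (Matrix.of fun i j : Fin d => p.der i (f j))

/-- `a` is the discrepancy of `E` with respect to `X`: the canonical divisor of a model which
contains `E` is the pull-back of the canonical divisor of `X` plus `a E + ...`. The differential
forms `d f_1 ∧ ... ∧ d f_d`, with `f_j` in the valuation ring, generate the forms which are regular
at `E`; so `- a` is the smallest order of the functions `jac f`. -/
def Disc (p : SmoothPoint k K d) (v : AddValuation K (WithTop ℤ)) (a : ℤ) : Prop :=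
  IsLeast {a : ℤ | ∀ f : Fin d → K, (∀ j, 0 ≤ v (f j)) → ((-a : ℤ) : WithTop ℤ) ≤ v (jac p f)} a

/-- The adjoint foliated structure `(X, F, t B, t)`, where `D` generates `O(-(K_F + B))`, is log
canonical at the point. With `t K_(F_Y) + (1 - t) K_Y + D_Y` equal to the pull-back of
`t (K_F + B) + (1 - t) K_X`, the multiplicity of `D_Y` along the divisor `E` is `t m - (1 - t) a`;
it has to be at most `t ε(E) + (1 - t)`, for all divisors `E` over `X` whose centre contains the
point. -/
def Lc (p : SmoothPoint k K d) (D : Derivation k K K) (t : ℝ) : Prop :=
  ∀ v : AddValuation K (WithTop ℤ), IsDivisor p v → ∀ m a : ℤ, OrdAlong v D m → Disc p v a →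
    t * m - (1 - t) * a ≤ t * eps v D m + (1 - t)

/-- The interpolated log canonical threshold of `(X, F, B)` at the point, where `D` generates
`O(-(K_F + B))`: the supremum of all `t` in `[0, 1]` for which `(X, F, t B, t)` is log canonical. -/
def ilct (p : SmoothPoint k K d) (D : Derivation k K K) : ℝ :=
  sSup {t : ℝ | 0 ≤ t ∧ t ≤ 1 ∧ Lc p D t}

end Pool.Agent.FolGap
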