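import Mathlib

/-!
# The determinant of a rank one perturbation

PROOF. By `Matrix.det` multilinear in the columns, or by `Matrix.det_add_replicateCol_mul_replicateRow` /
`Matrix.det_one_add_...` over a fraction field of polynomials, or by induction on the number of
columns which are perturbed: `det (updateCol B j (B_j + r_j c)) = det B + r_j det (updateCol B j c)`,
and a matrix with column `j` equal to `c` does not change its determinant if multiples of `c` are
added to the other columns. (A possible statement for the induction: for a finite set `S` of
columns, the matrix with the columns `B_j + r_j c` for `j ∈ S` and `B_j` for `j ∉ S` has determinant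
`det B + ∑ j ∈ S, r_j det (B.updateCol j c)`. Another way: `Matrix.det_add_mul`-type lemmas and the
adjugate: `det (B + c rᵀ) = det B + rᵀ adj(B) c`, and `(adj(B) c)_j = det (B.updateCol j c)` is
`Matrix.cramer_apply`.)
-/

set_option autoImplicit false

noncomputable section

namespace Pool.Agent.FolGap

/-- Multiples of the column `k` are added to other columns. -/
private theorem det_col {R : Type} [CommRing R] {d : ℕ} {A B : Matrix (Fin d) (Fin d) R}
    (c : Fin d → R) (k : Fin d) (hk : c k = 0) (h : ∀ i j, A i j = B i j + c j * B i k) :
    A.det = B.det := by
  rw [← Matrix.det_transpose A, ← Matrix.det_transpose B]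
  exact Matrix.det_eq_of_forall_row_eq_smul_add_const c k hk fun i j => h j i

private theorem aux {R : Type} [CommRing R] {d : ℕ} (B : Matrix (Fin d) (Fin d) R)
    (c r : Fin d → R) (S : Finset (Fin d)) :
    (Matrix.of fun i j => B i j + if j ∈ S then c i * r j else 0).det =
      B.det + ∑ j ∈ S, r j * (B.updateCol j c).det := by
  classical
  induction S using Finset.induction_on with
  | empty =>
    simp only [Finset.notMem_empty, if_false, add_zero, Finset.sum_empty]
    rfl
  | insert a S ha ih =>
    rw [Finset.sum_insert ha]
    set M : Matrix (Fin d) (Fin d) R :=
      Matrix.of fun i j => B i j + if j ∈ S then c i * r j else 0 with hM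
    have h1 : (Matrix.of fun i j => B i j + if j ∈ insert a S then c i * r j else 0) =
        M.updateCol a ((fun i => B i a) + r a • c) := by
      ext i j
      rw [Matrix.updateCol_apply]
      split_ifs with h
      · subst h
        simp only [Matrix.of_apply, Finset.mem_insert_self, if_true, Pi.add_apply, Pi.smul_apply,
          smul_eq_mul]
        ring
      · simp only [hM, Matrix.of_apply, Finset.mem_insert, h, false_or]
    have h2 : M.updateCol a (fun i => B i a) = M := by
      ext i j
      rw [Matrix.updateCol_apply]
      split_ifs with h
      · subst h
        simp only [hM, Matrix.of_apply, ha, if_false, add_zero]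
      · rfl
    have h3 : (M.updateCol a c).det = (B.updateCol a c).det := by
      refine det_col (fun j => if j ∈ S then r j else 0) a (if_neg ha) fun i j => ?_
      rw [Matrix.updateCol_apply, Matrix.updateCol_apply, Matrix.updateCol_self]
      split_ifs with h h'
      · subst h
        exact absurd h' ha
      · rw [zero_mul, add_zero]
      · simp only [hM, Matrix.of_apply, if_pos ‹j ∈ S›]
        ring
      · simp only [hM, Matrix.of_apply, if_neg ‹j ∉ S›]
        ring
    rw [h1, Matrix.det_updateCol_add, Matrix.det_updateCol_smul, h2, h3, ih]
    ring

theorem det_add_rank_one {R : Type} [CommRing R] {d : ℕ} (B : Matrix (Fin d) (Fin d) R)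
    (c r : Fin d → R) :
    (Matrix.of fun i j => B i j + c i * r j).det =
      B.det + ∑ j, r j * (B.updateCol j c).det := by
  simpa only [Finset.mem_univ, if_true] using aux B c r Finset.univ

end Pool.Agent.FolGap
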