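import Pool.Agent.FolGap.Defs

/-!
# Monomial filtrations of the local ring at a smooth point (basic properties)

`mon p α` is the monomial in the coordinates, `filt p w n` is the ideal of the local ring (as a
submodule of `K`) which is generated by the monomials of weight at least `n`.

PROOFS. `filt_le`: the monomials are in the ring. `mem_filt_zero`: the monomial `1` (`α = 0`).
`filt_mul`: `Submodule.span_induction` twice (or `Submodule.mul_mem...`), `mon (α + β) = mon α *
mon β`, the weight is additive. `filt_anti`: `Submodule.span_mono`. `aeval_mem`: write `P` as the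
sum of its monomials (`MvPolynomial.as_sum`, `MvPolynomial.aeval_monomial` or `eval₂`), a monomial
`c Z ^ α` of `P` has weight `n`, and `c • mon α` is in the submodule (`c` in `k`, `algebraMap k
ring c`).
`filt_two`: a monomial of degree at least two has `w0`-weight at least `2 d`, since all weights
are at least `d`.
-/

set_option autoImplicit false

noncomputable section

namespace Pool.Agent.FolGap

open IsLocalRing

variable {k K : Type} [Field k] [Field K] [Algebra k K] {d : ℕ}

/-- The monomial with exponent `α` in the coordinates. -/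
def mon (p : SmoothPoint k K d) (α : Fin d →₀ ℕ) : K := ∏ i, (p.coord i : K) ^ α i

/-- The ideal generated by the monomials of weight at least `n`. -/
def filt (p : SmoothPoint k K d) (w : Fin d → ℕ) (n : ℕ) : Submodule p.ring K :=
  Submodule.span p.ring {x | ∃ α : Fin d →₀ ℕ, n ≤ Finsupp.weight w α ∧ x = mon p α}

/-- The coordinates as elements of the function field. -/
def zz (p : SmoothPoint k K d) (i : Fin d) : K := (p.coord i : K)

/-- The weights `d, d + 1, ..., 2 d - 1`. -/
def w0 (d : ℕ) (i : Fin d) : ℕ := d + i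

/-- The weights `1`. -/
def w1 (d : ℕ) (_ : Fin d) : ℕ := 1

theorem mon_add (p : SmoothPoint k K d) (α β : Fin d →₀ ℕ) :
    mon p (α + β) = mon p α * mon p β := by
  unfold mon
  rw [← Finset.prod_mul_distrib]
  exact Finset.prod_congr rfl fun i _ => by rw [Finsupp.add_apply, pow_add]

private theorem mon_mem (p : SmoothPoint k K d) (α : Fin d →₀ ℕ) : mon p α ∈ p.ring :=
  prod_mem fun i _ => pow_mem (p.coord i).2 _

private theorem mon_mem_filt (p : SmoothPoint k K d) {w : Fin d → ℕ} {n : ℕ} {α : Fin d →₀ ℕ}
    (h : n ≤ Finsupp.weight w α) : mon p α ∈ filt p w n :=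
  Submodule.subset_span ⟨α, h, rfl⟩

theorem filt_le {p : SmoothPoint k K d} {w : Fin d → ℕ} {n : ℕ} {f : K} (hf : f ∈ filt p w n) :
    f ∈ p.ring := by
  unfold filt at hf
  induction hf using Submodule.span_induction with
  | mem x hx =>
    obtain ⟨α, -, rfl⟩ := hx
    exact mon_mem p α
  | zero => exact zero_mem _
  | add x y _ _ hx hy => exact add_mem hx hy
  | smul a x _ hx =>
    rw [Subalgebra.smul_def, smul_eq_mul]
    exact mul_mem a.2 hx

theorem mem_filt_zero {p : SmoothPoint k K d} (w : Fin d → ℕ) {f : K} (hf : f ∈ p.ring) :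
    f ∈ filt p w 0 := by
  have h1 : mon p 0 ∈ filt p w 0 := mon_mem_filt p (Nat.zero_le _)
  have h2 := Submodule.smul_mem _ (⟨f, hf⟩ : p.ring) h1
  have h3 : (⟨f, hf⟩ : p.ring) • mon p 0 = f := by
    rw [Subalgebra.smul_def, smul_eq_mul]
    unfold mon
    simp
  rwa [h3] at h2

theorem filt_mul {p : SmoothPoint k K d} {w : Fin d → ℕ} {a b : ℕ} {f g : K}
    (hf : f ∈ filt p w a) (hg : g ∈ filt p w b) : f * g ∈ filt p w (a + b) := by
  unfold filt at hf
  induction hf using Submodule.span_induction with
  | mem x hx =>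
    obtain ⟨α, hα, rfl⟩ := hx
    unfold filt at hg
    induction hg using Submodule.span_induction with
    | mem y hy =>
      obtain ⟨β, hβ, rfl⟩ := hy
      rw [← mon_add]
      exact mon_mem_filt p (by rw [map_add]; exact add_le_add hα hβ)
    | zero =>
      rw [mul_zero]
      exact zero_mem _
    | add y z _ _ hy hz =>
      rw [mul_add]
      exact add_mem hy hz
    | smul c y _ hy =>
      rw [mul_smul_comm]
      exact Submodule.smul_mem _ c hy
  | zero =>
    rw [zero_mul]
    exact zero_mem _
  | add x y _ _ hx hy =>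
    rw [add_mul]
    exact add_mem hx hy
  | smul c x _ hx =>
    rw [smul_mul_assoc]
    exact Submodule.smul_mem _ c hx

theorem filt_anti (p : SmoothPoint k K d) (w : Fin d → ℕ) {a b : ℕ} (h : a ≤ b) :
    filt p w b ≤ filt p w a :=
  Submodule.span_mono fun _ ⟨α, hα, hx⟩ => ⟨α, h.trans hα, hx⟩

theorem coord_mem_filt (p : SmoothPoint k K d) (w : Fin d → ℕ) (i : Fin d) :
    zz p i ∈ filt p w (w i) := by
  have h : zz p i = mon p (Finsupp.single i 1) := by
    unfold zz mon
    rw [Finset.prod_eq_single i]
    · simp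
    · intro j _ hj
      simp [hj.symm]
    · simp
  rw [h]
  exact mon_mem_filt p (by simp [Finsupp.weight_apply])

theorem aeval_mem (p : SmoothPoint k K d) {w : Fin d → ℕ} {n : ℕ} {P : MvPolynomial (Fin d) k}
    (hP : P.IsWeightedHomogeneous w n) : MvPolynomial.aeval (zz p) P ∈ filt p w n := by
  rw [MvPolynomial.aeval_def, MvPolynomial.eval₂_eq']
  refine Submodule.sum_mem _ fun α hα => ?_
  have h1 := hP (MvPolynomial.mem_support_iff.mp hα)
  have h2 : mon p α ∈ filt p w n := mon_mem_filt p h1.ge
  have h3 := Submodule.smul_mem _ (algebraMap k p.ring (P.coeff α)) h2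
  rw [Subalgebra.smul_def, smul_eq_mul] at h3
  exact h3

theorem filt_two (p : SmoothPoint k K d) {f : K} (hf : f ∈ filt p (w1 d) 2) :
    f ∈ filt p (w0 d) (2 * d) := by
  have h : filt p (w1 d) 2 ≤ filt p (w0 d) (2 * d) := by
    unfold filt
    refine Submodule.span_mono ?_
    rintro x ⟨α, hα, rfl⟩
    refine ⟨α, ?_, rfl⟩
    refine (Nat.mul_le_mul_right d hα).trans ?_
    rw [Finsupp.weight_apply, Finsupp.weight_apply, Finsupp.sum, Finsupp.sum, Finset.sum_mul]
    refine Finset.sum_le_sum fun i _ => ?_
    unfold w1 w0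
    simp only [smul_eq_mul, mul_one]
    exact Nat.mul_le_mul_left _ (Nat.le_add_right _ _)
  exact h hf

end Pool.Agent.FolGap
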