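import Pool.Agent.FolGap.Filt

/-!
# Monomial filtrations: the maximal ideal, initial forms

PROOFS. All weights are at least `1` where `hw` is assumed.
`filt_one_iff`: the monomials of weight at least one are those with `α ≠ 0`, they are divisible by
a coordinate, so they are in the maximal ideal (`span_coord`); conversely the maximal ideal is
spanned by the coordinates, which have weight at least one.
`filt_res`: for `f = a * mon α` with `α` of weight `m ≥ n`: if `m > n` take `P = 0`; if `m = n`
write `a = c + b`, `b` in the maximal ideal (`res`), `P = c Z ^ α`, `b * mon α` is in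
`filt (1 + n)` by `filt_mul`. Sums: `Submodule.span_induction`, `IsWeightedHomogeneous.add`. (It is
convenient to prove by `span_induction` the closure under `smul` by elements `a` of the ring for
all elements: `a f = (c + b) f`, `c f` has the polynomial `c P`, and `b f` is in `filt (1 + n)`.)
-/

set_option autoImplicit false

noncomputable section

namespace Pool.Agent.FolGap

open IsLocalRing

variable {k K : Type} [Field k] [Field K] [Algebra k K] {d : ℕ}

theorem filt_one_iff (p : SmoothPoint k K d) {w : Fin d → ℕ} (hw : ∀ i, 1 ≤ w i) (f : p.ring) :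
    (f : K) ∈ filt p w 1 ↔ f ∈ maximalIdeal p.ring := by
  have hcoord : ∀ i, p.coord i ∈ maximalIdeal p.ring := by
    intro i
    rw [← p.span_coord]
    exact Ideal.subset_span ⟨i, rfl⟩
  constructor
  · intro hf
    have key : ∀ x ∈ filt p w 1, ∃ g ∈ maximalIdeal p.ring, (g : K) = x := by
      intro x hx
      unfold filt at hx
      induction hx using Submodule.span_induction with
      | mem x hx =>
        obtain ⟨α, hα, rfl⟩ := hx
        refine ⟨∏ i, p.coord i ^ α i, ?_, ?_⟩
        · obtain ⟨i, hi⟩ : ∃ i, α i ≠ 0 := by
            by_contra hcon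
            push Not at hcon
            have h0 : α = 0 := Finsupp.ext hcon
            rw [h0, map_zero] at hα
            omega
          exact Ideal.prod_mem _ (Finset.mem_univ i)
            (Ideal.pow_mem_of_mem _ (hcoord i) _ (Nat.pos_of_ne_zero hi))
        · unfold mon
          push_cast
          rfl
      | zero => exact ⟨0, Ideal.zero_mem _, rfl⟩
      | add x y _ _ hx hy =>
        obtain ⟨a, ha, rfl⟩ := hx
        obtain ⟨b, hb, rfl⟩ := hy
        exact ⟨a + b, Ideal.add_mem _ ha hb, rfl⟩
      | smul a x _ hx =>
        obtain ⟨b, hb, rfl⟩ := hx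
        exact ⟨a * b, Ideal.mul_mem_left _ _ hb, rfl⟩
    obtain ⟨g, hg, h⟩ := key _ hf
    rw [← Subtype.ext h]
    exact hg
  · intro hf
    rw [← p.span_coord] at hf
    induction hf using Submodule.span_induction with
    | mem x hx =>
      obtain ⟨i, rfl⟩ := hx
      exact filt_anti p w (hw i) (coord_mem_filt p w i)
    | zero => exact Submodule.zero_mem _
    | add x y _ _ hx hy => exact Submodule.add_mem _ hx hy
    | smul a x _ hx => exact Submodule.smul_mem _ a hx

theorem filt_res (p : SmoothPoint k K d) {w : Fin d → ℕ} (hw : ∀ i, 1 ≤ w i) {n : ℕ} {f : K}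
    (hf : f ∈ filt p w n) : ∃ P : MvPolynomial (Fin d) k, P.IsWeightedHomogeneous w n ∧
      f - MvPolynomial.aeval (zz p) P ∈ filt p w (n + 1) := by
  unfold filt at hf
  induction hf using Submodule.span_induction with
  | mem x hx =>
    obtain ⟨α, hα, rfl⟩ := hx
    rcases hα.lt_or_eq with h | h
    · refine ⟨0, MvPolynomial.isWeightedHomogeneous_zero _ _ _, ?_⟩
      rw [map_zero, sub_zero]
      exact Submodule.subset_span ⟨α, h, rfl⟩
    · refine ⟨MvPolynomial.monomial α 1,
        MvPolynomial.isWeightedHomogeneous_monomial w α 1 h.symm, ?_⟩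
      have h1 : MvPolynomial.aeval (zz p) (MvPolynomial.monomial α (1 : k)) = mon p α := by
        rw [MvPolynomial.aeval_monomial, map_one, one_mul]
        unfold mon zz
        exact Finsupp.prod_fintype _ _ fun i => pow_zero _
      rw [h1, sub_self]
      exact Submodule.zero_mem _
  | zero =>
    refine ⟨0, MvPolynomial.isWeightedHomogeneous_zero _ _ _, ?_⟩
    rw [map_zero, sub_zero]
    exact Submodule.zero_mem _
  | add x y _ _ hx hy =>
    obtain ⟨P, hP, hP'⟩ := hx
    obtain ⟨Q, hQ, hQ'⟩ := hy
    refine ⟨P + Q, hP.add hQ, ?_⟩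
    rw [map_add, add_sub_add_comm]
    exact Submodule.add_mem _ hP' hQ'
  | smul a x hx ih =>
    obtain ⟨P, hP, hP'⟩ := ih
    obtain ⟨c, hc⟩ := p.res a
    refine ⟨c • P, Submodule.smul_mem (MvPolynomial.weightedHomogeneousSubmodule k w n) c hP, ?_⟩
    have hx' : x ∈ filt p w n := hx
    have h1 : ((a - algebraMap k p.ring c : p.ring) : K) * x ∈ filt p w (1 + n) :=
      filt_mul ((filt_one_iff p hw _).2 hc) hx'
    rw [add_comm] at h1
    have h2 : algebraMap k p.ring c • (x - MvPolynomial.aeval (zz p) P) ∈ filt p w (n + 1) :=
      Submodule.smul_mem _ _ hP'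
    have h3 : a • x - MvPolynomial.aeval (zz p) (c • P) =
        ((a - algebraMap k p.ring c : p.ring) : K) * x +
          algebraMap k p.ring c • (x - MvPolynomial.aeval (zz p) P) := by
      have e1 : ((a - algebraMap k p.ring c : p.ring) : K) = (a : K) - algebraMap k K c := rfl
      have e2 : algebraMap k p.ring c • (x - MvPolynomial.aeval (zz p) P) =
          algebraMap k K c * (x - MvPolynomial.aeval (zz p) P) := rfl
      have e3 : a • x = (a : K) * x := rfl
      rw [e1, e2, e3, map_smul, Algebra.smul_def]
      ring
    rw [h3]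
    exact Submodule.add_mem _ h1 h2

end Pool.Agent.FolGap
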