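import Pool.Agent.FolGap.Filt

/-!
# Monomial filtrations and derivations

`shift_der`: a derivation which shifts the filtration on the coordinates and on the local ring by
`s` shifts the filtration by `s`; both theorems are special cases (`s n = n - w i`, `s n = n + 1`).
-/

set_option autoImplicit false

noncomputable section

namespace Pool.Agent.FolGap

open IsLocalRing

variable {k K : Type} [Field k] [Field K] [Algebra k K] {d : ℕ}

private theorem mon_filt (p : SmoothPoint k K d) (w : Fin d → ℕ) (α : Fin d →₀ ℕ) :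
    mon p α ∈ filt p w (Finsupp.weight w α) :=
  Submodule.subset_span ⟨α, le_rfl, rfl⟩

private theorem mon_single (p : SmoothPoint k K d) (j : Fin d) (n : ℕ) :
    mon p (Finsupp.single j n) = zz p j ^ n := by
  unfold mon zz
  rw [Finset.prod_eq_single j]
  · simp
  · intro i _ hi
    simp [hi.symm]
  · simp

private theorem shift_der (p : SmoothPoint k K d) {w : Fin d → ℕ} {D : Derivation k K K}
    {s : ℕ → ℕ} (hs : ∀ a b, s (a + b) ≤ a + s b) (hmono : ∀ a b, a ≤ b → s a ≤ s b)
    (hD : ∀ f ∈ p.ring, D f ∈ filt p w (s 0)) (hc : ∀ j, D (zz p j) ∈ filt p w (s (w j)))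
    {n : ℕ} {f : K} (hf : f ∈ filt p w n) : D f ∈ filt p w (s n) := by
  have hs' : ∀ a b, s (a + b) ≤ s a + b := by
    intro a b
    rw [add_comm a b, add_comm (s a) b]
    exact hs b a
  -- products
  have hprod : ∀ {a b : ℕ} {x y : K}, x ∈ filt p w a → y ∈ filt p w b → D x ∈ filt p w (s a) →
      D y ∈ filt p w (s b) → D (x * y) ∈ filt p w (s (a + b)) := by
    intro a b x y hx hy hDx hDy
    rw [Derivation.leibniz, smul_eq_mul, smul_eq_mul]
    refine add_mem (filt_anti p w (hs a b) (filt_mul hx hDy)) ?_
    rw [mul_comm]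
    exact filt_anti p w (hs' a b) (filt_mul hDx hy)
  have hpow : ∀ (j : Fin d) (n : ℕ), zz p j ^ n ∈ filt p w (n * w j) ∧
      D (zz p j ^ n) ∈ filt p w (s (n * w j)) := by
    intro j n
    induction n with
    | zero =>
      rw [pow_zero, Nat.zero_mul]
      exact ⟨mem_filt_zero w (one_mem _), by rw [Derivation.map_one_eq_zero]; exact zero_mem _⟩
    | succ n ih =>
      rw [pow_succ, Nat.succ_mul]
      exact ⟨filt_mul ih.1 (coord_mem_filt p w j),
        hprod ih.1 (coord_mem_filt p w j) ih.2 (hc j)⟩
  have hmon : ∀ α : Fin d →₀ ℕ, D (mon p α) ∈ filt p w (s (Finsupp.weight w α)) := by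
    intro α
    induction α using Finsupp.induction_linear with
    | zero =>
      have h1 : mon p 0 = 1 := by
        unfold mon
        simp
      rw [h1, Derivation.map_one_eq_zero]
      exact zero_mem _
    | add α β hα hβ =>
      rw [mon_add, map_add]
      exact hprod (mon_filt p w α) (mon_filt p w β) hα hβ
    | single j n =>
      rw [mon_single]
      have h1 : Finsupp.weight w (Finsupp.single j n) = n * w j := by
        simp [Finsupp.weight_apply]
      rw [h1]
      exact (hpow j n).2
  unfold filt at hf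
  induction hf using Submodule.span_induction with
  | mem x hx =>
    obtain ⟨α, hα, rfl⟩ := hx
    exact filt_anti p w (hmono _ _ hα) (hmon α)
  | zero =>
    rw [map_zero]
    exact zero_mem _
  | add x y _ _ hx hy =>
    rw [map_add]
    exact add_mem hx hy
  | smul a x hxm hx =>
    rw [Subalgebra.smul_def, smul_eq_mul, Derivation.leibniz, smul_eq_mul, smul_eq_mul]
    refine add_mem ?_ ?_
    · have h1 := Submodule.smul_mem _ a hx
      rwa [Subalgebra.smul_def, smul_eq_mul] at h1
    · have h2 : x ∈ filt p w n := hxm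
      have h3 := filt_mul h2 (hD a a.2)
      exact filt_anti p w (hs n 0) h3

theorem filt_der (p : SmoothPoint k K d) (w : Fin d → ℕ) {n : ℕ} {f : K}
    (hf : f ∈ filt p w n) (i : Fin d) : p.der i f ∈ filt p w (n - w i) := by
  refine shift_der p (s := fun n => n - w i) (fun a b => ?_) (fun a b h => ?_) (fun f hf => ?_)
    (fun j => ?_) hf
  · show a + b - w i ≤ a + (b - w i)
    omega
  · exact Nat.sub_le_sub_right h _
  · have h1 : 0 - w i = 0 := Nat.zero_sub _
    rw [h1]
    exact mem_filt_zero w (p.der_mem i ⟨f, hf⟩)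
  · have h1 := p.der_coord i j
    unfold zz
    rw [h1]
    by_cases h : i = j
    · subst h
      rw [if_pos rfl, Nat.sub_self]
      exact mem_filt_zero w (one_mem _)
    · rw [if_neg h]
      exact zero_mem _

theorem filt_deriv (p : SmoothPoint k K d) {w : Fin d → ℕ} {D : Derivation k K K}
    (hD : ∀ f ∈ p.ring, D f ∈ filt p w 1) (hc : ∀ i, D (zz p i) ∈ filt p w (w i + 1))
    {n : ℕ} {f : K} (hf : f ∈ filt p w n) : D f ∈ filt p w (n + 1) := by
  refine shift_der p (s := fun n => n + 1) (fun a b => ?_) (fun a b h => ?_) (fun f hf => ?_)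
    (fun j => hc j) hf
  · show a + b + 1 ≤ a + (b + 1)
    omega
  · exact Nat.succ_le_succ h
  · exact hD f hf

end Pool.Agent.FolGap
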