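import Pool.Agent.FolGap.Val

/-!
# Properties of the monomial valuation

PROOFS.
`MonVal.le`: an element `f ≠ 0` of `filt n` is in the ring, it has an order `m` (`exists_ord`), and
`m ≥ n` (otherwise `f ∈ filt n ≤ filt (m + 1)`).
`MonVal.nonneg`: `mem_filt_zero` and `MonVal.le`. `MonVal.hom`: `aeval_mem` and `hom_eq_zero`.
`MonVal.deriv`: for `f = g / h`, `g, h ≠ 0` of orders `a, b`:
`D f = (h D g - g D h) / h ^ 2` and `D g ∈ filt (a + 1)`, `D h ∈ filt (b + 1)`, so the numerator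
is in `filt (a + b + 1)`, `v (D f) ≥ a + b + 1 - 2 b = v f + 1`. The case `f = 0` is trivial.
`MonVal.der`: the same with `p.der i` and `filt_der`: `v (∂_i g) ≥ a - w_i` also if `a < w_i`.
-/

set_option autoImplicit false

noncomputable section

namespace Pool.Agent.FolGap

open IsLocalRing

variable {k K : Type} [Field k] [Field K] [Algebra k K] {d : ℕ}

theorem MonVal.le {p : SmoothPoint k K d} {w : Fin d → ℕ} (hw : ∀ i, 1 ≤ w i)
    {v : AddValuation K (WithTop ℤ)} (hv : MonVal p w v) {f : K} {n : ℕ} (hf : f ∈ filt p w n) :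
    ((n : ℤ) : WithTop ℤ) ≤ v f := by
  by_cases h0 : f = 0
  · rw [h0, AddValuation.map_zero]
    exact le_top
  · obtain ⟨m, hm⟩ := exists_ord p hw (filt_le hf) h0
    rw [hv f m hm]
    have h1 : n ≤ m := by
      by_contra h
      exact hm.2 (filt_anti p w (by omega) hf)
    exact_mod_cast h1

theorem MonVal.nonneg {p : SmoothPoint k K d} {w : Fin d → ℕ} (hw : ∀ i, 1 ≤ w i)
    {v : AddValuation K (WithTop ℤ)} (hv : MonVal p w v) {f : K} (hf : f ∈ p.ring) :
    0 ≤ v f := by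
  have h := hv.le hw (mem_filt_zero w hf)
  simpa using h

theorem MonVal.hom [CharZero k] {p : SmoothPoint k K d} {w : Fin d → ℕ} (hw : ∀ i, 1 ≤ w i)
    {v : AddValuation K (WithTop ℤ)} (hv : MonVal p w v) {n : ℕ} {P : MvPolynomial (Fin d) k}
    (hP : P.IsWeightedHomogeneous w n) (h0 : P ≠ 0) :
    v (MvPolynomial.aeval (zz p) P) = ((n : ℤ) : WithTop ℤ) :=
  hv _ _ ⟨aeval_mem p hP, fun h => h0 (hom_eq_zero p hw hP h)⟩

private theorem gen_Val2 {p : SmoothPoint k K d} {w : Fin d → ℕ} (hw : ∀ i, 1 ≤ w i)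
    {v : AddValuation K (WithTop ℤ)} (hv : MonVal p w v) {D : Derivation k K K} (c : ℕ)
    (hD : ∀ (n : ℕ) (f : K), f ∈ filt p w n → D f ∈ filt p w (n + c)) (f : K) :
    v f + ((c : ℤ) : WithTop ℤ) ≤ v (D f) := by
  by_cases h0 : f = 0
  · rw [h0, D.map_zero, AddValuation.map_zero]
    exact le_top
  obtain ⟨g, hg, h, hh, hh0, hfgh⟩ := p.frac f
  have hfh : f * h = g := by
    rw [hfgh, div_mul_cancel₀ _ hh0]
  have hg0 : g ≠ 0 := by
    rw [← hfh]
    exact mul_ne_zero h0 hh0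
  obtain ⟨a, ha⟩ := exists_ord p hw hg hg0
  obtain ⟨b, hb⟩ := exists_ord p hw hh hh0
  have hva := hv g a ha
  have hvb := hv h b hb
  obtain ⟨x, hx⟩ : ∃ x : ℤ, v f = (x : WithTop ℤ) := by
    have h1 : v f ≠ ⊤ := fun h => h0 (v.top_iff.1 h)
    obtain ⟨x, hx⟩ := WithTop.ne_top_iff_exists.1 h1
    exact ⟨x, hx.symm⟩
  have hab : (a : ℤ) = x + b := by
    have h1 : v (f * h) = v g := by rw [hfh]
    rw [v.map_mul, hva, hvb, hx] at h1
    exact_mod_cast h1.symm
  have h2 : h * D f = D g - f * D h := by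
    rw [← hfh, D.leibniz]
    simp only [smul_eq_mul]
    ring
  have h3 : (((a + c : ℕ) : ℤ) : WithTop ℤ) ≤ v (D g) := hv.le hw (hD a g ha.1)
  have h4 : (((b + c : ℕ) : ℤ) : WithTop ℤ) ≤ v (D h) := hv.le hw (hD b h hb.1)
  have h5 : (((a + c : ℕ) : ℤ) : WithTop ℤ) ≤ v (f * D h) := by
    rw [v.map_mul, hx]
    have h6 : (((a + c : ℕ) : ℤ) : WithTop ℤ) =
        (x : WithTop ℤ) + (((b + c : ℕ) : ℤ) : WithTop ℤ) := by
      rw [← WithTop.coe_add]
      congr 1
      push_cast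
      omega
    rw [h6]
    exact add_le_add le_rfl h4
  have h7 : (((a + c : ℕ) : ℤ) : WithTop ℤ) ≤ v (h * D f) := by
    rw [h2]
    exact v.map_le_sub h3 h5
  rw [v.map_mul, hvb] at h7
  rw [hx]
  rcases eq_or_ne (v (D f)) ⊤ with h8 | h8
  · rw [h8]
    exact le_top
  · obtain ⟨y, hy⟩ := WithTop.ne_top_iff_exists.1 h8
    rw [← hy] at h7 ⊢
    rw [← WithTop.coe_add, WithTop.coe_le_coe] at h7 ⊢
    push_cast at h7
    omega

theorem MonVal.deriv {p : SmoothPoint k K d} {w : Fin d → ℕ} (hw : ∀ i, 1 ≤ w i)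
    {v : AddValuation K (WithTop ℤ)} (hv : MonVal p w v) {D : Derivation k K K}
    (hD : ∀ (n : ℕ) (f : K), f ∈ filt p w n → D f ∈ filt p w (n + 1)) (f : K) :
    v f + 1 ≤ v (D f) := by
  have h := gen_Val2 hw hv 1 hD f
  simpa using h

theorem MonVal.der {p : SmoothPoint k K d} {w : Fin d → ℕ} (hw : ∀ i, 1 ≤ w i)
    {v : AddValuation K (WithTop ℤ)} (hv : MonVal p w v) (i : Fin d) (f : K) :
    v f ≤ v (zz p i * p.der i f) := by
  have h := gen_Val2 hw hv (D := (zz p i) • p.der i) 0 (fun n g hg => by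
    have h1 := filt_mul (coord_mem_filt p w i) (filt_der p w hg i)
    have h2 : ((zz p i) • p.der i) g = zz p i * p.der i g := rfl
    rw [h2]
    exact filt_anti p w (by omega) h1) f
  have h2 : ((zz p i) • p.der i) f = zz p i * p.der i f := rfl
  rw [h2] at h
  simpa using h

end Pool.Agent.FolGap
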