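import Pool.Agent.FolGap.Filt2
import Pool.Agent.FolGap.Filt3
import Pool.Agent.FolGap.Val2

/-!
# Derivations which lower the weight

PROOFS. `filt_deriv_sub` (truncated subtraction in `ℕ`): like `filt_deriv` in `Filt3.lean`:
`D (a * mon α) = D a * mon α + a * D (mon α)`, the first term is in `filt n ≤ filt (n - r)`
(`filt_anti`), and `D (mon α)` is a sum of terms `α_i mon (α - e_i) D z_i` in
`filt (weight α - w_i + (w_i - r))`, and `(A - w_i) + (w_i - r) ≥ A - r` if `w_i ≤ A`.
`MonVal.deriv_sub`: like `MonVal.deriv` in `Val2.lean`: for `f = g / h` of orders `a`, `b`: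
`D f = (h D g - g D h) / h ^ 2`, `v (D g) ≥ a - r`, `v (D h) ≥ b - r` (integers).
-/

set_option autoImplicit false

noncomputable section

namespace Pool.Agent.FolGap

open IsLocalRing

variable {k K : Type} [Field k] [Field K] [Algebra k K] {d : ℕ}

private theorem mon_mem_Filt4 (p : SmoothPoint k K d) (w : Fin d → ℕ) (α : Fin d →₀ ℕ) :
    mon p α ∈ filt p w (Finsupp.weight w α) :=
  Submodule.subset_span ⟨α, le_rfl, rfl⟩

private theorem mon_zero_Filt4 (p : SmoothPoint k K d) : mon p 0 = 1 := by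
  unfold mon
  simp

private theorem mon_single_Filt4 (p : SmoothPoint k K d) (i : Fin d) :
    mon p (Finsupp.single i 1) = zz p i := by
  unfold zz mon
  rw [Finset.prod_eq_single i]
  · simp
  · intro j _ hj
    simp [hj.symm]
  · simp

private theorem deriv_add_Filt4 (p : SmoothPoint k K d) {w : Fin d → ℕ}
    {D : Derivation k K K} {r : ℕ} {α β : Fin d →₀ ℕ}
    (hα : D (mon p α) ∈ filt p w (Finsupp.weight w α - r))
    (hβ : D (mon p β) ∈ filt p w (Finsupp.weight w β - r)) :
    D (mon p (α + β)) ∈ filt p w (Finsupp.weight w (α + β) - r) := by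
  rw [mon_add, D.leibniz, smul_eq_mul, smul_eq_mul, map_add]
  refine add_mem ?_ ?_
  · exact filt_anti p w (by omega) (filt_mul (mon_mem_Filt4 p w α) hβ)
  · exact filt_anti p w (by omega) (filt_mul (mon_mem_Filt4 p w β) hα)

private theorem deriv_mon_Filt4 (p : SmoothPoint k K d) {w : Fin d → ℕ}
    {D : Derivation k K K} {r : ℕ} (hc : ∀ i, D (zz p i) ∈ filt p w (w i - r))
    (α : Fin d →₀ ℕ) : D (mon p α) ∈ filt p w (Finsupp.weight w α - r) := by
  induction α using Finsupp.induction_linear with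
  | zero =>
    rw [mon_zero_Filt4, D.map_one_eq_zero]
    exact zero_mem _
  | add α β hα hβ => exact deriv_add_Filt4 p hα hβ
  | single i n =>
    induction n with
    | zero =>
      rw [Finsupp.single_zero, mon_zero_Filt4, D.map_one_eq_zero]
      exact zero_mem _
    | succ n ih =>
      rw [Finsupp.single_add]
      refine deriv_add_Filt4 p ih ?_
      rw [mon_single_Filt4]
      simpa [Finsupp.weight_apply] using hc i

theorem filt_deriv_sub (p : SmoothPoint k K d) {w : Fin d → ℕ} {D : Derivation k K K} {r : ℕ}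
    (hD : ∀ f ∈ p.ring, D f ∈ p.ring) (hc : ∀ i, D (zz p i) ∈ filt p w (w i - r))
    {n : ℕ} {f : K} (hf : f ∈ filt p w n) : D f ∈ filt p w (n - r) := by
  have hf' := hf
  unfold filt at hf'
  induction hf' using Submodule.span_induction with
  | mem x hx =>
    obtain ⟨α, hα, rfl⟩ := hx
    exact filt_anti p w (by omega) (deriv_mon_Filt4 p hc α)
  | zero =>
    rw [D.map_zero]
    exact zero_mem _
  | add x y hx hy ihx ihy =>
    rw [D.map_add]
    exact add_mem (ihx hx) (ihy hy)
  | smul a x hx ih =>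
    rw [Subalgebra.smul_def, smul_eq_mul, D.leibniz, smul_eq_mul, smul_eq_mul]
    refine add_mem ?_ ?_
    · have h1 := Submodule.smul_mem _ a (ih hx)
      rwa [Subalgebra.smul_def, smul_eq_mul] at h1
    · have h1 := filt_mul hx (mem_filt_zero w (hD (a : K) a.2))
      exact filt_anti p w (by omega) h1

theorem MonVal.deriv_sub {p : SmoothPoint k K d} {w : Fin d → ℕ} (hw : ∀ i, 1 ≤ w i)
    {v : AddValuation K (WithTop ℤ)} (hv : MonVal p w v) {D : Derivation k K K} {r : ℕ}
    (hD : ∀ (n : ℕ) (f : K), f ∈ filt p w n → D f ∈ filt p w (n - r)) (f : K) :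
    v f + ((-(r : ℤ) : ℤ) : WithTop ℤ) ≤ v (D f) := by
  by_cases h0 : f = 0
  · rw [h0, D.map_zero, AddValuation.map_zero]
    exact le_top
  obtain ⟨g, hg, h, hh, hh0, hfgh⟩ := p.frac f
  have hfh : f * h = g := by
    rw [hfgh, div_mul_cancel₀ _ hh0]
  have hg0 : g ≠ 0 := by
    rw [← hfh]
    exact mul_ne_zero h0 hh0
  obtain ⟨a, ha⟩ := exists_ord p hw hg hg0
  obtain ⟨b, hb⟩ := exists_ord p hw hh hh0
  have hva := hv g a ha
  have hvb := hv h b hb
  obtain ⟨x, hx⟩ : ∃ x : ℤ, v f = (x : WithTop ℤ) := by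
    have h1 : v f ≠ ⊤ := fun h => h0 (v.top_iff.1 h)
    obtain ⟨x, hx⟩ := WithTop.ne_top_iff_exists.1 h1
    exact ⟨x, hx.symm⟩
  have hab : (a : ℤ) = x + b := by
    have h1 : v (f * h) = v g := by rw [hfh]
    rw [v.map_mul, hva, hvb, hx] at h1
    exact_mod_cast h1.symm
  have h2 : h * D f = D g - f * D h := by
    rw [← hfh, D.leibniz]
    simp only [smul_eq_mul]
    ring
  have h3 : (((a : ℤ) - r : ℤ) : WithTop ℤ) ≤ v (D g) := by
    refine le_trans ?_ (hv.le hw (hD a g ha.1))
    rw [WithTop.coe_le_coe]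
    omega
  have h4 : (((b : ℤ) - r : ℤ) : WithTop ℤ) ≤ v (D h) := by
    refine le_trans ?_ (hv.le hw (hD b h hb.1))
    rw [WithTop.coe_le_coe]
    omega
  have h5 : (((a : ℤ) - r : ℤ) : WithTop ℤ) ≤ v (f * D h) := by
    rw [v.map_mul, hx]
    have h6 : (((a : ℤ) - r : ℤ) : WithTop ℤ) =
        (x : WithTop ℤ) + (((b : ℤ) - r : ℤ) : WithTop ℤ) := by
      rw [← WithTop.coe_add]
      congr 1
      omega
    rw [h6]
    exact add_le_add le_rfl h4
  have h7 : (((a : ℤ) - r : ℤ) : WithTop ℤ) ≤ v (h * D f) := by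
    rw [h2]
    exact v.map_le_sub h3 h5
  rw [v.map_mul, hvb] at h7
  rw [hx]
  rcases eq_or_ne (v (D f)) ⊤ with h8 | h8
  · rw [h8]
    exact le_top
  · obtain ⟨y, hy⟩ := WithTop.ne_top_iff_exists.1 h8
    rw [← hy] at h7 ⊢
    rw [← WithTop.coe_add, WithTop.coe_le_coe] at h7 ⊢
    omega

end Pool.Agent.FolGap
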