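import Pool.Agent.FolGap.Bdry

/-!
# Interpolated log canonical thresholds of a smooth variety

A smooth variety `X` with function field `K` over an algebraically closed field `k` is given here by
its closed points `p i` (the index `i` runs through the closed points). `(X, F, t B, t)` is log
canonical if and only if it is log canonical at all closed points. (Every family of smooth points is
allowed, so the results contain the local ones: take one point.)
-/

set_option autoImplicit false

noncomputable section

namespace Pool.Agent.FolGap

variable {k K : Type} [Field k] [Field K] [Algebra k K] {d : ℕ}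

/-- The interpolated log canonical threshold of `(X, F, B)`, where `p i` are the closed points of
the smooth variety `X`, and `D i` generates `O(-(K_F + B))` at the point `p i`: the supremum of all
`t` in `[0, 1]` for which `(X, F, t B, t)` is log canonical. -/
def ilctX {I : Type} (p : I → SmoothPoint k K d) (D : I → Derivation k K K) : ℝ :=
  sSup {t : ℝ | 0 ≤ t ∧ t ≤ 1 ∧ ∀ i, Lc (p i) (D i) t}

/-- The interpolated log canonical threshold of `(X, F, B)`, where `p i` are the closed points of
the smooth variety `X`, `D i` generates `O(-(K_F + B₀))` at the point `p i`, and
`B = B₀ + ∑ b_j div (f_j)` near this point: the supremum of all `t` in `[0, 1]` for which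
`(X, F, t B, t)` is log canonical. -/
def ilctXB {I : Type} (p : I → SmoothPoint k K d) (D : I → Derivation k K K) {s : I → ℕ}
    (b : (i : I) → Fin (s i) → ℝ) (f : (i : I) → Fin (s i) → K) : ℝ :=
  sSup {t : ℝ | 0 ≤ t ∧ t ≤ 1 ∧ ∀ i, LcB (p i) (D i) (b i) (f i) t}

end Pool.Agent.FolGap
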