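import Pool.Agent.FolGap.Filt2
import Pool.Agent.FolGap.Filt3

/-!
# Initial forms

PROOFS. `hom_eq_zero` (strong induction on `n`): let `P` be weighted homogeneous of weight `n` with
`P (z)` in `filt (n + 1)`. For all `i`, `(pderiv i P) (z) = ∂_i (P (z))` (`Derivation` chain rule:
both sides are derivations in `P` which agree on `X j`, see `MvPolynomial.derivation_ext` or
`Derivation.map_aeval`; use `der_coord`), so it is in `filt (n + 1 - w i)` (`filt_der`). If
`w i ≤ n` then `pderiv i P` is weighted homogeneous of weight `n - w i`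
(`MvPolynomial.IsWeightedHomogeneous.pderiv` if it exists, otherwise on coefficients) and
`n + 1 - w i = (n - w i) + 1`, so `pderiv i P = 0` by induction; if `w i > n` no monomial of `P`
contains `X i`, and `pderiv i P = 0` as well. In characteristic zero `P` is then a constant
`C c`. If `n ≥ 1` then `c = 0` since `P` is homogeneous of weight `n`; if `n = 0` then `c` is in
`filt 1`, which is the maximal ideal (`filt_one_iff`), so `c = 0` (a nonzero constant is a unit).
`ord_mul`: with `filt_res` take `P, Q` for `f, g`; `P ≠ 0` because `f` is not in `filt (a + 1)`,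
the same for `Q`. `f g - (P Q)(z)` is in `filt (a + b + 1)`; if `f g` were in it then
`(P Q) (z)` too, and `P Q = 0` by `hom_eq_zero`.
`exists_ord`: `filt (n)` is contained in the power `m ^ N` of the maximal ideal if
`n ≥ N * W`, `W` larger than all weights (a monomial of weight `≥ N W` has degree `≥ N`); the
intersection of the powers of the maximal ideal of a Noetherian local ring is zero
(`Ideal.iInf_pow_eq_bot_of_isLocalRing`), so `f` is not in all `filt n`; take the first `n` with
`f` not in `filt (n + 1)` (`Nat.find`, `mem_filt_zero`).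
-/

set_option autoImplicit false

noncomputable section

namespace Pool.Agent.FolGap

open IsLocalRing

variable {k K : Type} [Field k] [Field K] [Algebra k K] {d : ℕ}

private theorem hom_chain (p : SmoothPoint k K d) (i : Fin d) (P : MvPolynomial (Fin d) k) :
    p.der i (MvPolynomial.aeval (zz p) P) =
      MvPolynomial.aeval (zz p) (MvPolynomial.pderiv i P) := by
  induction P using MvPolynomial.induction_on with
  | C a =>
    rw [MvPolynomial.pderiv_C, map_zero, MvPolynomial.aeval_C, Derivation.map_algebraMap]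
  | add P Q hP hQ => rw [map_add, map_add, map_add, map_add, hP, hQ]
  | mul_X P j hP =>
    have h1 : p.der i (zz p j) = if i = j then 1 else 0 := p.der_coord i j
    have h2 : MvPolynomial.aeval (zz p)
        (MvPolynomial.pderiv i (MvPolynomial.X j : MvPolynomial (Fin d) k)) =
        (if i = j then 1 else 0 : K) := by
      by_cases hij : i = j
      · subst hij
        rw [MvPolynomial.pderiv_X_self, map_one, if_pos rfl]
      · rw [MvPolynomial.pderiv_X_of_ne (Ne.symm hij), map_zero, if_neg hij]
    have h3 : MvPolynomial.aeval (zz p) (P * MvPolynomial.X j) =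
        MvPolynomial.aeval (zz p) P * zz p j := by
      rw [map_mul, MvPolynomial.aeval_X]
    rw [h3, Derivation.leibniz, hP, h1, MvPolynomial.pderiv_mul, map_add, map_mul, map_mul, h2,
      MvPolynomial.aeval_X, smul_eq_mul, smul_eq_mul]
    ring

private theorem hom_weight {w : Fin d → ℕ} {n : ℕ} {P : MvPolynomial (Fin d) k}
    (hP : P.IsWeightedHomogeneous w n) {i : Fin d} {m : Fin d →₀ ℕ}
    (hm : MvPolynomial.coeff m (MvPolynomial.pderiv i P) ≠ 0) :
    Finsupp.weight w m + w i = n := by
  rw [MvPolynomial.coeff_pderiv] at hm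
  have h1 := hP (left_ne_zero_of_mul hm)
  rw [map_add, Finsupp.weight_single, one_smul] at h1
  exact h1

private theorem hom_const [CharZero k] {P : MvPolynomial (Fin d) k}
    (hP : ∀ i, MvPolynomial.pderiv i P = 0) {m : Fin d →₀ ℕ} (hm : m ≠ 0) :
    MvPolynomial.coeff m P = 0 := by
  obtain ⟨i, hi⟩ : ∃ i, m i ≠ 0 := by
    by_contra hc
    push Not at hc
    exact hm (Finsupp.ext hc)
  have h1 := congrArg (MvPolynomial.coeff (m - Finsupp.single i 1)) (hP i)
  rw [MvPolynomial.coeff_pderiv, MvPolynomial.coeff_zero] at h1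
  have h2 : m - Finsupp.single i 1 + Finsupp.single i 1 = m := by
    refine tsub_add_cancel_of_le ?_
    rw [Finsupp.single_le_iff]
    exact Nat.one_le_iff_ne_zero.2 hi
  rw [h2] at h1
  rcases mul_eq_zero.1 h1 with h3 | h3
  · exact h3
  · exfalso
    have h4 : (((m - Finsupp.single i 1 : Fin d →₀ ℕ) i + 1 : ℕ) : k) = 0 := by
      push_cast
      exact h3
    exact Nat.cast_ne_zero.2 (Nat.succ_ne_zero _) h4

theorem hom_eq_zero [CharZero k] (p : SmoothPoint k K d) {w : Fin d → ℕ} (hw : ∀ i, 1 ≤ w i)
    {n : ℕ} {P : MvPolynomial (Fin d) k} (hP : P.IsWeightedHomogeneous w n)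
    (h : MvPolynomial.aeval (zz p) P ∈ filt p w (n + 1)) : P = 0 := by
  induction n using Nat.strong_induction_on generalizing P with
  | _ n ih =>
    have h1 : ∀ i, MvPolynomial.pderiv i P = 0 := by
      intro i
      by_cases hi : w i ≤ n
      · refine ih (n - w i) ?_ (P := MvPolynomial.pderiv i P) ?_ ?_
        · have := hw i
          omega
        · intro m hm
          have h2 := hom_weight hP hm
          omega
        · rw [← hom_chain]
          have h2 := filt_der p w h i
          have h3 : n + 1 - w i = n - w i + 1 := by omega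
          rwa [h3] at h2
      · ext m
        rw [MvPolynomial.coeff_zero]
        by_contra hc
        have h2 := hom_weight hP hc
        omega
    have h2 : P = MvPolynomial.C (MvPolynomial.coeff 0 P) := by
      ext m
      rw [MvPolynomial.coeff_C]
      split_ifs with h0
      · rw [← h0]
      · exact hom_const h1 (Ne.symm h0)
    have h3 : MvPolynomial.coeff 0 P = 0 := by
      by_contra hc
      have h4 := hP hc
      rw [map_zero] at h4
      rw [h2, MvPolynomial.aeval_C, ← h4, zero_add] at h
      have h5 := (filt_one_iff p hw (algebraMap k p.ring (MvPolynomial.coeff 0 P))).1 h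
      have h6 : IsUnit (algebraMap k p.ring (MvPolynomial.coeff 0 P)) :=
        (isUnit_iff_ne_zero.2 hc).map (algebraMap k p.ring)
      exact (mem_maximalIdeal _).1 h5 h6
    rw [h2, h3, map_zero]

/-- The element `f` of the local ring has order exactly `n`. -/
def IsOrd (p : SmoothPoint k K d) (w : Fin d → ℕ) (f : K) (n : ℕ) : Prop :=
  f ∈ filt p w n ∧ f ∉ filt p w (n + 1)

theorem ord_mul [CharZero k] (p : SmoothPoint k K d) {w : Fin d → ℕ} (hw : ∀ i, 1 ≤ w i)
    {f g : K} {a b : ℕ} (hf : IsOrd p w f a) (hg : IsOrd p w g b) : IsOrd p w (f * g) (a + b) := by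
  refine ⟨filt_mul hf.1 hg.1, fun h => ?_⟩
  obtain ⟨P, hP, hfP⟩ := filt_res p hw hf.1
  obtain ⟨Q, hQ, hgQ⟩ := filt_res p hw hg.1
  have hP0 : P ≠ 0 := by
    rintro rfl
    rw [map_zero, sub_zero] at hfP
    exact hf.2 hfP
  have hQ0 : Q ≠ 0 := by
    rintro rfl
    rw [map_zero, sub_zero] at hgQ
    exact hg.2 hgQ
  have h1 : f * (g - MvPolynomial.aeval (zz p) Q) ∈ filt p w (a + b + 1) := by
    have h3 := filt_mul hf.1 hgQ
    have h4 : a + (b + 1) = a + b + 1 := by omega
    rwa [h4] at h3
  have h2 : (f - MvPolynomial.aeval (zz p) P) * MvPolynomial.aeval (zz p) Q ∈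
      filt p w (a + b + 1) := by
    have h3 := filt_mul hfP (aeval_mem p hQ)
    have h4 : a + 1 + b = a + b + 1 := by omega
    rwa [h4] at h3
  have h3 : MvPolynomial.aeval (zz p) (P * Q) ∈ filt p w (a + b + 1) := by
    have h4 : MvPolynomial.aeval (zz p) (P * Q) = f * g -
        (f * (g - MvPolynomial.aeval (zz p) Q) +
          (f - MvPolynomial.aeval (zz p) P) * MvPolynomial.aeval (zz p) Q) := by
      rw [map_mul]
      ring
    rw [h4]
    exact sub_mem h (add_mem h1 h2)
  exact mul_ne_zero hP0 hQ0 (hom_eq_zero p hw (hP.mul hQ) h3)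

private theorem mon_mem_pow (p : SmoothPoint k K d) (α : Fin d →₀ ℕ) :
    (∏ i, p.coord i ^ α i) ∈ maximalIdeal p.ring ^ ∑ i, α i := by
  have h1 : ∀ i, p.coord i ∈ maximalIdeal p.ring := fun i => by
    rw [← p.span_coord]
    exact Ideal.subset_span ⟨i, rfl⟩
  rw [← Finset.prod_pow_eq_pow_sum]
  exact Ideal.prod_mem_prod fun i _ => Ideal.pow_mem_pow (h1 i) _

private theorem filt_pow (p : SmoothPoint k K d) {w : Fin d → ℕ} {N : ℕ} {f : K}
    (hf : f ∈ filt p w (N * (∑ i, w i + 1))) :
    ∃ g : p.ring, (g : K) = f ∧ g ∈ maximalIdeal p.ring ^ N := by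
  unfold filt at hf
  induction hf using Submodule.span_induction with
  | mem x hx =>
    obtain ⟨α, hα, rfl⟩ := hx
    refine ⟨∏ i, p.coord i ^ α i, ?_, ?_⟩
    · unfold mon
      push_cast
      rfl
    · refine Ideal.pow_le_pow_right ?_ (mon_mem_pow p α)
      rw [Finsupp.weight_eq_sum] at hα
      have h1 : ∑ i, α i • w i ≤ (∑ i, α i) * (∑ i, w i + 1) := by
        rw [Finset.sum_mul]
        refine Finset.sum_le_sum fun i _ => ?_
        rw [smul_eq_mul]
        refine Nat.mul_le_mul_left _ ?_
        have h2 := Finset.single_le_sum (f := w) (fun j _ => Nat.zero_le _) (Finset.mem_univ i)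
        omega
      exact Nat.le_of_mul_le_mul_right (hα.trans h1) (Nat.succ_pos _)
  | zero => exact ⟨0, rfl, Ideal.zero_mem _⟩
  | add x y _ _ hx hy =>
    obtain ⟨g, rfl, hg⟩ := hx
    obtain ⟨g', rfl, hg'⟩ := hy
    exact ⟨g + g', rfl, Ideal.add_mem _ hg hg'⟩
  | smul a x _ hx =>
    obtain ⟨g, rfl, hg⟩ := hx
    exact ⟨a * g, rfl, Ideal.mul_mem_left _ a hg⟩

theorem exists_ord (p : SmoothPoint k K d) {w : Fin d → ℕ} (hw : ∀ i, 1 ≤ w i) {f : K}
    (hf : f ∈ p.ring) (h0 : f ≠ 0) : ∃ n, IsOrd p w f n := by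
  classical
  have _ := hw
  have h1 : ∃ n, f ∉ filt p w n := by
    by_contra hc
    push Not at hc
    have h2 : (⟨f, hf⟩ : p.ring) ∈ ⨅ N, maximalIdeal p.ring ^ N := by
      rw [Submodule.mem_iInf]
      intro N
      obtain ⟨g, hg, hgN⟩ := filt_pow p (hc (N * (∑ i, w i + 1)))
      have h3 : g = ⟨f, hf⟩ := Subtype.ext hg
      rwa [h3] at hgN
    rw [Ideal.iInf_pow_eq_bot_of_isLocalRing _ Ideal.IsPrime.ne_top', Submodule.mem_bot] at h2
    exact h0 (congrArg Subtype.val h2)
  have h2 : Nat.find h1 ≠ 0 := by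
    intro h3
    have h4 := Nat.find_spec h1
    rw [h3] at h4
    exact h4 (mem_filt_zero w hf)
  obtain ⟨n, hn⟩ := Nat.exists_eq_succ_of_ne_zero h2
  refine ⟨n, ?_, ?_⟩
  · have h3 := Nat.find_min h1 (m := n) (by omega)
    exact not_not.1 h3
  · have h3 := Nat.find_spec h1
    rwa [hn] at h3

end Pool.Agent.FolGap
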