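import Pool.Agent.FolGap.Defs

/-!
# The order of a derivation along a divisor

PROOFS. `ge_of_ord`: let `π` have value `1`, `m` the order. Put `D' f = D f / π ^ m`: `v (D' f) ≥ 0`
for `v f ≥ 0`. If the divisor is invariant, `v (D' f) ≥ 1` for `v f ≥ 1`. For `f = π ^ n u`,
`v u = 0` (`f ≠ 0`, `n = v f`): `D f = n π ^ (n - 1) u D π + π ^ n D u`
(`Derivation.leibniz`, `Derivation.leibniz_zpow` or similar for integer exponents), so
`v (D f) ≥ min (n - 1 + v (D π), n + m)`, and `v (D π) ≥ m + 1` if `E` is invariant, `≥ m` always.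
`le_of_ge`: if `E` is invariant, then `c ≤ m` because `v (D f) ≥ v f + c ≥ c` for `v f ≥ 0`
(`m` is the greatest integer with this property). If not, there is `f` with `v f > 0` and
`v (D f) ≤ m`; then `m ≥ v f + c ≥ 1 + c`.
`exists_ord`: the set is nonempty (it contains `c`: `v (D f) ≥ v f + c ≥ c`), and bounded above:
`D ≠ 0`, so `D g ≠ 0` for some `g`; if `v g < 0` replace `g` by `g⁻¹`, `D g⁻¹ = - g⁻² D g ≠ 0`; so
there is `g` with `v g ≥ 0` and `v (D g)` an integer, which is an upper bound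
(`Int.exists_greatest_of_bdd`).
`exists_disc`: the set of all `a` with the property contains `b` and is bounded below by `0`: take
`f = coord`, the Jacobian is `det 1 = 1`, so `-a ≤ v 1 = 0` (`Int.exists_least_of_bdd`).
`disc_nonneg`: the same.
-/

set_option autoImplicit false

noncomputable section

namespace Pool.Agent.FolGap

open IsLocalRing

variable {k K : Type} [Field k] [Field K] [Algebra k K] {d : ℕ}

omit [Algebra k K] [Field k] in
private theorem Ord_zpow {v : AddValuation K (WithTop ℤ)} {π : K} (hπ : v π = 1) (n : ℤ) :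
    v (π ^ n) = (n : WithTop ℤ) := by
  have key : ∀ j : ℕ, v (π ^ j) = ((j : ℤ) : WithTop ℤ) := by
    intro j
    induction j with
    | zero =>
      rw [pow_zero, v.map_one]
      rfl
    | succ j ih =>
      rw [pow_succ, v.map_mul, ih, hπ]
      push_cast
      rfl
  rcases n with j | j
  · rw [Int.ofNat_eq_natCast, zpow_natCast]
    exact key j
  · rw [zpow_negSucc, v.map_inv, key]
    rfl

omit [Algebra k K] [Field k] in
private theorem Ord_int (v : AddValuation K (WithTop ℤ)) (n : ℤ) : 0 ≤ v ((n : ℤ) : K) := by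
  have key : ∀ j : ℕ, 0 ≤ v ((j : ℕ) : K) := by
    intro j
    induction j with
    | zero =>
      rw [Nat.cast_zero, v.map_zero]
      exact le_top
    | succ j ih =>
      rw [Nat.cast_succ]
      exact v.map_le_add ih (by rw [v.map_one])
  rcases n with j | j
  · rw [Int.ofNat_eq_natCast, Int.cast_natCast]
    exact key j
  · rw [Int.cast_negSucc, v.map_neg]
    exact key _

theorem ge_of_ord [CharZero k] {v : AddValuation K (WithTop ℤ)} (hv : ∃ f : K, v f = 1)
    {D : Derivation k K K} {m : ℤ} (h : OrdAlong v D m) (f : K) :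
    v f + ((m - eps v D m : ℤ) : WithTop ℤ) ≤ v (D f) := by
  by_cases hf : f = 0
  · rw [hf, map_zero D, v.map_zero]
    exact le_top
  obtain ⟨n, hn⟩ := WithTop.ne_top_iff_exists.1 (v.ne_top_iff.2 hf)
  obtain ⟨π, hπ⟩ := hv
  have hπ0 : π ≠ 0 := by
    intro h0
    rw [h0, v.map_zero] at hπ
    exact absurd hπ (by decide)
  obtain ⟨u, hu⟩ : ∃ u, u = f * π ^ (-n) := ⟨_, rfl⟩
  have hfu : f = π ^ n * u := by
    rw [hu, mul_comm f, ← mul_assoc, ← zpow_add₀ hπ0, add_neg_cancel, zpow_zero, one_mul]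
  have hvu : v u = 0 := by
    rw [hu, v.map_mul, Ord_zpow hπ, ← hn, ← WithTop.coe_add, add_neg_cancel]
    rfl
  have hDu : (m : WithTop ℤ) ≤ v (D u) := h.1 u (by rw [hvu])
  have hDπ : (m : WithTop ℤ) ≤ v (D π) := h.1 π (by rw [hπ]; exact zero_le_one)
  obtain ⟨e, he, he0, hπ1⟩ : ∃ e : ℤ, eps v D m = e ∧ 0 ≤ e ∧
      ((m - e + 1 : ℤ) : WithTop ℤ) ≤ v (D π) := by
    by_cases hinv : Invariant v D m
    · refine ⟨0, if_pos hinv, le_refl _, ?_⟩
      have h1 := hinv π (by rw [hπ]; exact zero_lt_one)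
      by_cases ht : v (D π) = ⊤
      · rw [ht]
        exact le_top
      · obtain ⟨j, hj⟩ := WithTop.ne_top_iff_exists.1 ht
        rw [← hj] at h1 ⊢
        have h2 : m < j := WithTop.coe_lt_coe.1 h1
        exact WithTop.coe_le_coe.2 (by omega)
    · refine ⟨1, if_neg hinv, zero_le_one, ?_⟩
      rw [sub_add_cancel]
      exact hDπ
  rw [he, ← hn]
  have hD : D f = π ^ n * D u + u * (((n : ℤ) : K) * (π ^ (n - 1) * D π)) := by
    conv_lhs => rw [hfu]
    rw [Derivation.leibniz, Derivation.leibniz_zpow, zsmul_eq_mul, smul_eq_mul, smul_eq_mul,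
      smul_eq_mul]
  rw [hD]
  refine v.map_le_add ?_ ?_
  · rw [v.map_mul, Ord_zpow hπ]
    refine add_le_add le_rfl (le_trans ?_ hDu)
    exact WithTop.coe_le_coe.2 (by omega)
  · rw [v.map_mul, hvu, zero_add, v.map_mul, v.map_mul, Ord_zpow hπ]
    have h1 : (n : WithTop ℤ) + ((m - e : ℤ) : WithTop ℤ) =
        ((n - 1 : ℤ) : WithTop ℤ) + ((m - e + 1 : ℤ) : WithTop ℤ) := by
      rw [← WithTop.coe_add, ← WithTop.coe_add]
      congr 1
      ring
    rw [h1]
    exact (add_le_add le_rfl hπ1).trans (le_add_of_nonneg_left (Ord_int v n))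

theorem le_of_ge {v : AddValuation K (WithTop ℤ)}
    {D : Derivation k K K} {m c : ℤ} (h : OrdAlong v D m)
    (hc : ∀ f : K, v f + (c : WithTop ℤ) ≤ v (D f)) : c ≤ m - eps v D m := by
  by_cases hinv : Invariant v D m
  · have he : eps v D m = 0 := if_pos hinv
    rw [he, sub_zero]
    exact h.2 fun f hf => (le_add_of_nonneg_left hf).trans (hc f)
  · have he : eps v D m = 1 := if_neg hinv
    rw [he]
    unfold Invariant at hinv
    push Not at hinv
    obtain ⟨f, hf, hDf⟩ := hinv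
    have h1 := (hc f).trans hDf
    by_cases ht : v f = ⊤
    · rw [ht, top_add] at h1
      exact absurd h1 (by simp)
    · obtain ⟨j, hj⟩ := WithTop.ne_top_iff_exists.1 ht
      rw [← hj] at h1 hf
      rw [← WithTop.coe_add] at h1
      have h2 : j + c ≤ m := WithTop.coe_le_coe.1 h1
      have h3 : 0 < j := WithTop.coe_lt_coe.1 hf
      omega

theorem exists_ord_along {v : AddValuation K (WithTop ℤ)} {D : Derivation k K K} (hD : D ≠ 0)
    {c : ℤ} (hc : ∀ f : K, v f + (c : WithTop ℤ) ≤ v (D f)) : ∃ m, OrdAlong v D m := by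
  have h1 : ∃ g : K, D g ≠ 0 := by
    by_contra hcon
    push Not at hcon
    exact hD (Derivation.ext fun g => by rw [hcon g]; rfl)
  have h2 : ∃ g : K, 0 ≤ v g ∧ D g ≠ 0 := by
    obtain ⟨g, hg⟩ := h1
    have hg0 : g ≠ 0 := by
      intro h0
      rw [h0, map_zero D] at hg
      exact hg rfl
    by_cases hvg : 0 ≤ v g
    · exact ⟨g, hvg, hg⟩
    · refine ⟨g⁻¹, ?_, ?_⟩
      · obtain ⟨j, hj⟩ := WithTop.ne_top_iff_exists.1 (v.ne_top_iff.2 hg0)
        rw [v.map_inv, ← hj]
        rw [← hj] at hvg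
        have h3 : j < 0 := by
          by_contra h4
          exact hvg (WithTop.coe_le_coe.2 (not_lt.1 h4))
        have h4 : (0 : ℤ) ≤ -j := by omega
        exact WithTop.coe_le_coe.2 h4
      · rw [Derivation.leibniz_inv, smul_eq_mul]
        exact mul_ne_zero (neg_ne_zero.2 (pow_ne_zero _ (inv_ne_zero hg0))) hg
  obtain ⟨g, hvg, hDg⟩ := h2
  obtain ⟨b, hb⟩ := WithTop.ne_top_iff_exists.1 (v.ne_top_iff.2 hDg)
  obtain ⟨m, hm1, hm2⟩ := Int.exists_greatest_of_bdd
    (P := fun m : ℤ => ∀ f : K, 0 ≤ v f → (m : WithTop ℤ) ≤ v (D f))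
    ⟨b, fun z hz => by
      have h3 := hz g hvg
      rw [← hb] at h3
      exact WithTop.coe_le_coe.1 h3⟩
    ⟨c, fun f hf => (le_add_of_nonneg_left hf).trans (hc f)⟩
  exact ⟨m, hm1, fun z hz => hm2 z hz⟩

theorem disc_nonneg {p : SmoothPoint k K d} {v : AddValuation K (WithTop ℤ)}
    (hv : ∀ f ∈ p.ring, 0 ≤ v f) {a : ℤ}
    (ha : ∀ f : Fin d → K, (∀ j, 0 ≤ v (f j)) → ((-a : ℤ) : WithTop ℤ) ≤ v (jac p f)) : 0 ≤ a := by
  have h1 := ha (fun j => (p.coord j : K)) fun j => hv _ (p.coord j).2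
  have h2 : jac p (fun j => (p.coord j : K)) = 1 := by
    unfold jac
    have h3 : (Matrix.of fun i j : Fin d => p.der i ((p.coord j : p.ring) : K)) = 1 := by
      ext i j
      rw [Matrix.of_apply, p.der_coord, Matrix.one_apply]
    rw [h3, Matrix.det_one]
  rw [h2, v.map_one] at h1
  have h3 : -a ≤ 0 := WithTop.coe_le_coe.1 h1
  omega

theorem exists_disc {p : SmoothPoint k K d} {v : AddValuation K (WithTop ℤ)}
    (hv : ∀ f ∈ p.ring, 0 ≤ v f) {b : ℤ}
    (hb : ∀ f : Fin d → K, (∀ j, 0 ≤ v (f j)) → ((-b : ℤ) : WithTop ℤ) ≤ v (jac p f)) :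
    ∃ a ≤ b, Disc p v a := by
  obtain ⟨a, ha1, ha2⟩ := Int.exists_least_of_bdd
    (P := fun a : ℤ => ∀ f : Fin d → K, (∀ j, 0 ≤ v (f j)) →
      ((-a : ℤ) : WithTop ℤ) ≤ v (jac p f))
    ⟨0, fun z hz => disc_nonneg hv hz⟩ ⟨b, hb⟩
  exact ⟨a, ha2 b hb, ha1, fun z hz => ha2 z hz⟩

end Pool.Agent.FolGap
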