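import Pool.Agent.FolGap.Ord
import Pool.Agent.FolGap.Filt2

/-!
# Orders along divisors, for a nonsingular derivation

`D' = u⁻¹ D`, with a unit `u` of the local ring, has the same orders as `D`, and `D' x = 1`.

PROOFS. `val_unit`: `v u ≥ 0`, `v u⁻¹ ≥ 0`, the sum is `0`. `val_smul`: `D' f = u⁻¹ D f`.
`ord_nonpos`: `0 = v (D x) ≥ v x + (m - ε)` by `ge_of_ord` and `v x ≥ 0`. `val_le`: let
`e = -(m - ε) ≥ 0`. `v (D' g) = v (D g) ≥ v g - e` for all `g`, so `0 = v (D'^[n] f) ≥ v f - n e`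
by induction; `D'^[n] f` is a unit of the local ring (not in the maximal ideal, `filt_one_iff`), so it
has `v = 0`.
-/

set_option autoImplicit false

noncomputable section

namespace Pool.Agent.FolGap

open IsLocalRing

variable {k K : Type} [Field k] [Field K] [Algebra k K] {d : ℕ}

theorem val_unit {p : SmoothPoint k K d} {v : AddValuation K (WithTop ℤ)}
    (hv : ∀ f ∈ p.ring, 0 ≤ v f) {u : K} (h0 : u ≠ 0) (hu : u ∈ p.ring) (hu' : u⁻¹ ∈ p.ring) :
    v u = 0 := by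
  obtain ⟨j, hj⟩ := WithTop.ne_top_iff_exists.1 (v.ne_top_iff.2 h0)
  have h1 := hv u hu
  have h2 := hv u⁻¹ hu'
  rw [v.map_inv, ← hj] at h2
  rw [← hj] at h1 ⊢
  have h3 : (0 : ℤ) ≤ j := WithTop.coe_le_coe.1 h1
  have h4 : (0 : ℤ) ≤ -j := WithTop.coe_le_coe.1 h2
  have h5 : j = 0 := by omega
  rw [h5]
  rfl

theorem val_of_not_mem {p : SmoothPoint k K d} {v : AddValuation K (WithTop ℤ)}
    (hv : ∀ f ∈ p.ring, 0 ≤ v f) {f : K} (hf : f ∈ p.ring) (hf' : f ∉ filt p (w1 d) 1) :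
    v f = 0 := by
  have h1 : (⟨f, hf⟩ : p.ring) ∉ maximalIdeal p.ring := fun h =>
    hf' ((filt_one_iff p (fun _ => le_refl 1) ⟨f, hf⟩).2 h)
  have h2 : IsUnit (⟨f, hf⟩ : p.ring) := by
    by_contra h3
    exact h1 ((mem_maximalIdeal _).2 h3)
  obtain ⟨g, hg⟩ := h2.exists_right_inv
  have h3 : f * (g : K) = 1 := congrArg (fun z : p.ring => (z : K)) hg
  have h4 : f ≠ 0 := by
    intro h5
    rw [h5, zero_mul] at h3
    exact zero_ne_one h3
  have h5 : f⁻¹ = (g : K) := inv_eq_of_mul_eq_one_right h3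
  exact val_unit hv h4 hf (by rw [h5]; exact g.2)

theorem val_smul {p : SmoothPoint k K d} {v : AddValuation K (WithTop ℤ)}
    (hv : ∀ f ∈ p.ring, 0 ≤ v f) {u : K} (h0 : u ≠ 0) (hu : u ∈ p.ring) (hu' : u⁻¹ ∈ p.ring)
    (D : Derivation k K K) (f : K) : v ((u⁻¹ • D) f) = v (D f) := by
  have h1 : v u⁻¹ = 0 := val_unit hv (inv_ne_zero h0) hu' (by rw [inv_inv]; exact hu)
  rw [Derivation.smul_apply, smul_eq_mul, v.map_mul, h1, zero_add]

theorem ord_nonpos [CharZero k] {p : SmoothPoint k K d} {v : AddValuation K (WithTop ℤ)}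
    (hv : IsDivisor p v) {D : Derivation k K K} {m : ℤ} (hm : OrdAlong v D m)
    {x : K} (hx : x ∈ p.ring) (h : v (D x) = 0) : m - eps v D m ≤ 0 := by
  have h1 := ge_of_ord hv.surj hm x
  rw [h] at h1
  have h2 := (le_add_of_nonneg_left (hv.nonneg x hx)).trans h1
  exact WithTop.coe_le_coe.1 h2

theorem val_le [CharZero k] {p : SmoothPoint k K d} {v : AddValuation K (WithTop ℤ)}
    (hv : IsDivisor p v) {D D' : Derivation k K K} {m : ℤ} (hm : OrdAlong v D m)
    (hD' : ∀ f ∈ p.ring, D' f ∈ p.ring) (h : ∀ f : K, v (D' f) = v (D f))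
    {f : K} (hf : f ∈ p.ring) {n : ℕ} (hn : (⇑D')^[n] f ∉ filt p (w1 d) 1)
    {c : ℤ} (hc : v f = ((c : ℤ) : WithTop ℤ)) : c ≤ -(m - eps v D m) * n := by
  have h1 : ∀ j : ℕ, (⇑D')^[j] f ∈ p.ring ∧
      ((c + (m - eps v D m) * j : ℤ) : WithTop ℤ) ≤ v ((⇑D')^[j] f) := by
    intro j
    induction j with
    | zero =>
      refine ⟨hf, ?_⟩
      rw [Function.iterate_zero, id, hc]
      simp
    | succ j ih =>
      rw [Function.iterate_succ_apply']
      refine ⟨hD' _ ih.1, ?_⟩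
      rw [h]
      refine le_trans ?_ (ge_of_ord hv.surj hm _)
      refine le_trans (le_of_eq ?_) (add_le_add ih.2 le_rfl)
      rw [← WithTop.coe_add]
      congr 1
      push_cast
      ring
  obtain ⟨h2, h3⟩ := h1 n
  rw [val_of_not_mem hv.nonneg h2 hn] at h3
  have h4 : c + (m - eps v D m) * n ≤ 0 := WithTop.coe_le_coe.1 h3
  linarith

end Pool.Agent.FolGap
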