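import Pool.Agent.FolGap.Val2

/-!
# The discrepancy of the monomial valuation

PROOF. Let `v (f_j) ≥ 0` for all `j`. Multiply row `i` of the matrix `∂_i f_j` by `z_i`: the
determinant of `N = (z_i ∂_i f_j)` is `(∏ z_i) * jac p f` (`Matrix.det_mul_column` or
`Matrix.det_mul_row`), and `v (∏ z_i) = ∑ w_i`. So it is enough that `v (det N) ≥ 1`. All entries
of `N` have `v ≥ 0` by `MonVal.der`. The Euler derivation `E f = ∑ w_i z_i ∂_i f` has the property
`v (E f) ≥ 1` for all `f` with `v f ≥ 0` (`euler`): for `g` in `filt a`, `E g - a g` is in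
`filt (a + 1)`, because by `filt_res` `g = P(z) + r`, `E (P(z)) = a P(z)` (Euler's formula for
weighted homogeneous polynomials, `MvPolynomial.IsWeightedHomogeneous.sum_weight_X_mul_pderiv` or
similar; or prove it for monomials), and `E r` is in `filt (a + 1)` (`filt_der`, `filt_mul`,
`coord_mem_filt`; note that `w_i + (a + 1 - w_i) ≥ a + 1`). For `f = g / h` with orders `a = b + c`,
`b`, `c = v f ≥ 0`: `E f = ((E g - a g) h - g (E h - b h)) / h ^ 2 + (a - b) f`, of value `≥ c + 1`
resp. `≥ c` with the factor `c`, which vanishes if `c = 0`.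
Now `w_0 ≥ 1` is invertible in `K`: replace row `0` of `N` by `∑ w_i` row `i`
(`Matrix.det_updateRow_sum` or `Matrix.det_updateRow_...`: `w_0 det N = det (N with row 0 replaced by
∑ w_i N_i)`), the new row `(E f_j)` has entries with `v ≥ 1`, so the determinant has `v ≥ 1`
(expand by `Matrix.det_apply`: every term of the sum has a factor from row `0`).
-/

set_option autoImplicit false

noncomputable section

namespace Pool.Agent.FolGap

open IsLocalRing

variable {k K : Type} [Field k] [Field K] [Algebra k K] {d : ℕ}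

/-- the Euler derivation -/
private def Eu (p : SmoothPoint k K d) (w : Fin d → ℕ) : Derivation k K K :=
  ∑ i, (w i : K) • (zz p i • p.der i)

private theorem Eu_apply (p : SmoothPoint k K d) (w : Fin d → ℕ) (f : K) :
    Eu p w f = ∑ i, (w i : K) * (zz p i * p.der i f) := by
  unfold Eu
  rw [← Derivation.coeFnAddMonoidHom_apply, map_sum, Finset.sum_apply]
  refine Finset.sum_congr rfl fun i _ => ?_
  rw [Derivation.coeFnAddMonoidHom_apply, Derivation.smul_apply, Derivation.smul_apply,
    smul_eq_mul, smul_eq_mul]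

private theorem der_aeval_ValJac (p : SmoothPoint k K d) (P : MvPolynomial (Fin d) k)
    (i : Fin d) : p.der i (MvPolynomial.aeval (zz p) P) =
      MvPolynomial.aeval (zz p) (MvPolynomial.pderiv i P) := by
  induction P using MvPolynomial.induction_on with
  | C a =>
    rw [MvPolynomial.aeval_C, Derivation.map_algebraMap, MvPolynomial.pderiv_C, map_zero]
  | add P Q hP hQ => rw [map_add, map_add, hP, hQ, map_add, map_add]
  | mul_X P j hP =>
    rw [map_mul, Derivation.leibniz, hP, MvPolynomial.aeval_X, Derivation.leibniz,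
      MvPolynomial.pderiv_X]
    have h1 : p.der i (zz p j) = if i = j then 1 else 0 := p.der_coord i j
    rw [h1]
    simp only [smul_eq_mul, map_add, map_mul, MvPolynomial.aeval_X]
    congr 1
    by_cases hij : i = j
    · subst hij
      simp
    · rw [if_neg hij, Pi.single_eq_of_ne (fun h => hij h.symm)]
      simp

private theorem Eu_aeval (p : SmoothPoint k K d) {w : Fin d → ℕ} {n : ℕ}
    {P : MvPolynomial (Fin d) k} (hP : P.IsWeightedHomogeneous w n) :
    Eu p w (MvPolynomial.aeval (zz p) P) = (n : K) * MvPolynomial.aeval (zz p) P := by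
  have h1 := congrArg (MvPolynomial.aeval (zz p)) hP.sum_weight_X_mul_pderiv
  rw [map_sum] at h1
  rw [Eu_apply]
  have h2 : (n : K) * MvPolynomial.aeval (zz p) P = MvPolynomial.aeval (zz p) (n • P) := by
    rw [map_nsmul, nsmul_eq_mul]
  rw [h2, ← h1]
  refine Finset.sum_congr rfl fun i _ => ?_
  rw [der_aeval_ValJac, map_nsmul, nsmul_eq_mul, map_mul, MvPolynomial.aeval_X]

private theorem natCast_mul_mem (p : SmoothPoint k K d) {w : Fin d → ℕ} {n : ℕ} (m : ℕ) {f : K}
    (hf : f ∈ filt p w n) : (m : K) * f ∈ filt p w n := by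
  rw [← nsmul_eq_mul]
  exact nsmul_mem hf m

private theorem Eu_sub_mem (p : SmoothPoint k K d) {w : Fin d → ℕ} (hw : ∀ i, 1 ≤ w i)
    {n : ℕ} {f : K} (hf : f ∈ filt p w n) : Eu p w f - (n : K) * f ∈ filt p w (n + 1) := by
  obtain ⟨P, hP, hr⟩ := filt_res p hw hf
  set r : K := f - MvPolynomial.aeval (zz p) P with hr'
  have hE : Eu p w r ∈ filt p w (n + 1) := by
    rw [Eu_apply]
    refine Submodule.sum_mem _ fun i _ => natCast_mul_mem p _ ?_
    have h1 := filt_mul (coord_mem_filt p w i) (filt_der p w hr i)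
    exact filt_anti p w (by omega) h1
  have h2 : f = MvPolynomial.aeval (zz p) P + r := by rw [hr']; ring
  have h3 : Eu p w f - (n : K) * f = Eu p w r - (n : K) * r := by
    rw [h2, map_add, Eu_aeval p hP]
    ring
  rw [h3]
  exact sub_mem hE (natCast_mul_mem p n hr)

private theorem le_of_mul_ValJac {v : AddValuation K (WithTop ℤ)} {x y : K} {m n : ℤ}
    (hy : v y = (n : WithTop ℤ)) (h : ((m + n : ℤ) : WithTop ℤ) ≤ v (x * y)) :
    (m : WithTop ℤ) ≤ v x := by
  rw [v.map_mul, hy] at h
  cases hx : v x with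
  | top => exact le_top
  | coe a =>
    rw [hx] at h
    norm_cast at h ⊢
    omega

private theorem natCast_nonneg_ValJac {p : SmoothPoint k K d} {w : Fin d → ℕ}
    (hw : ∀ i, 1 ≤ w i) {v : AddValuation K (WithTop ℤ)} (hv : MonVal p w v) (n : ℤ) :
    0 ≤ v (n : K) :=
  hv.nonneg hw (intCast_mem p.ring n)

theorem MonVal.euler [CharZero k] {p : SmoothPoint k K d} {w : Fin d → ℕ} (hw : ∀ i, 1 ≤ w i)
    {v : AddValuation K (WithTop ℤ)} (hv : MonVal p w v) {f : K} (hf : 0 ≤ v f) :
    1 ≤ v (∑ i, (w i : K) * (zz p i * p.der i f)) := by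
  rw [← Eu_apply]
  rcases eq_or_ne f 0 with rfl | hf0
  · rw [map_zero, v.map_zero]
    exact le_top
  obtain ⟨g, hg, h, hh, hh0, rfl⟩ := p.frac f
  have hg0 : g ≠ 0 := by
    rintro rfl
    exact hf0 (zero_div h)
  obtain ⟨a, ha⟩ := exists_ord p hw hg hg0
  obtain ⟨b, hb⟩ := exists_ord p hw hh hh0
  have hva := hv g a ha
  have hvb := hv h b hb
  have hab : b ≤ a := by
    by_contra hlt
    have h1 : v (g / h * h) = v (g / h) + v h := v.map_mul _ _
    rw [div_mul_cancel₀ _ hh0, hva, hvb] at h1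
    cases hx : v (g / h) with
    | top =>
      rw [hx] at h1
      simp at h1
    | coe c =>
      rw [hx] at h1 hf
      norm_cast at h1 hf
      omega
  obtain ⟨c, rfl⟩ := Nat.exists_eq_add_of_le hab
  -- the two remainders
  have hr1 := Eu_sub_mem p hw ha.1
  have hr2 := Eu_sub_mem p hw hb.1
  set r1 : K := Eu p w g - ((b + c : ℕ) : K) * g with hr1'
  set r2 : K := Eu p w h - (b : K) * h with hr2'
  have hv1 : (((b + c : ℕ) + 1 : ℤ) : WithTop ℤ) ≤ v r1 := by
    have := hv.le hw hr1
    push_cast at this ⊢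
    exact this
  have hv2 : (((b : ℕ) + 1 : ℤ) : WithTop ℤ) ≤ v r2 := by
    have := hv.le hw hr2
    push_cast at this ⊢
    exact this
  have hE : Eu p w (g / h) * (h * h) = (c : K) * (g * h) + (r1 * h - g * r2) := by
    have h1 : Eu p w g = Eu p w (g / h * h) := by rw [div_mul_cancel₀ _ hh0]
    rw [Derivation.leibniz, smul_eq_mul, smul_eq_mul] at h1
    have h2 : Eu p w g = r1 + ((b + c : ℕ) : K) * g := by rw [hr1']; ring
    have h3 : Eu p w h = r2 + (b : K) * h := by rw [hr2']; ring
    have h4 : Eu p w (g / h) * h = Eu p w g - g / h * Eu p w h := by rw [h1]; ring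
    have h5 : Eu p w (g / h) * (h * h) = Eu p w g * h - g * Eu p w h := by
      calc Eu p w (g / h) * (h * h) = (Eu p w (g / h) * h) * h := by ring
        _ = (Eu p w g - g / h * Eu p w h) * h := by rw [h4]
        _ = Eu p w g * h - (g / h * h) * Eu p w h := by ring
        _ = Eu p w g * h - g * Eu p w h := by rw [div_mul_cancel₀ _ hh0]
    rw [h5, h2, h3]
    push_cast
    ring
  have hvhh : v (h * h) = ((2 * b : ℤ) : WithTop ℤ) := by
    rw [v.map_mul, hvb]
    norm_cast
    ring
  refine le_of_mul_ValJac (m := 1) hvhh ?_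
  rw [hE]
  refine v.map_le_add ?_ ?_
  · rcases Nat.eq_zero_or_pos c with rfl | hc
    · rw [Nat.cast_zero, zero_mul, v.map_zero]
      exact le_top
    · rw [v.map_mul, v.map_mul, hva, hvb]
      have h1 := natCast_nonneg_ValJac hw hv (c : ℤ)
      rw [Int.cast_natCast] at h1
      cases hx : v (c : K) with
      | top => simp
      | coe t =>
        rw [hx] at h1
        norm_cast at h1 ⊢
        push_cast
        omega
  · refine v.map_le_sub ?_ ?_
    · rw [v.map_mul, hvb]
      cases hx : v r1 with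
      | top => simp
      | coe t =>
        rw [hx] at hv1
        norm_cast at hv1 ⊢
        push_cast at hv1
        omega
    · rw [v.map_mul, hva]
      cases hx : v r2 with
      | top => simp
      | coe t =>
        rw [hx] at hv2
        norm_cast at hv2 ⊢
        push_cast at hv2 ⊢
        omega

private theorem prod_nonneg_ValJac {v : AddValuation K (WithTop ℤ)} {ι : Type} (s : Finset ι)
    (g : ι → K) (h : ∀ i ∈ s, 0 ≤ v (g i)) : 0 ≤ v (∏ i ∈ s, g i) := by
  classical
  induction s using Finset.induction_on with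
  | empty => rw [Finset.prod_empty, v.map_one]
  | insert a s ha ih =>
    rw [Finset.prod_insert ha, v.map_mul]
    exact add_nonneg (h a (Finset.mem_insert_self _ _))
      (ih fun i hi => h i (Finset.mem_insert_of_mem hi))

private theorem det_ge_one {v : AddValuation K (WithTop ℤ)} {n : ℕ}
    (M : Matrix (Fin n) (Fin n) K) (i₀ : Fin n) (h0 : ∀ i j, 0 ≤ v (M i j))
    (h1 : ∀ j, 1 ≤ v (M i₀ j)) : 1 ≤ v M.det := by
  rw [Matrix.det_apply']
  refine v.map_le_sum fun σ _ => ?_
  rw [v.map_mul]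
  have hs : 0 ≤ v (((Equiv.Perm.sign σ : ℤˣ) : ℤ) : K) := by
    rcases Int.units_eq_one_or (Equiv.Perm.sign σ) with h | h
    · rw [h]
      simp
    · rw [h]
      simp [v.map_neg]
  have hp : 1 ≤ v (∏ i, M (σ i) i) := by
    rw [← Finset.mul_prod_erase Finset.univ (fun i => M (σ i) i) (Finset.mem_univ (σ.symm i₀)),
      v.map_mul]
    have h2 : 1 ≤ v (M (σ (σ.symm i₀)) (σ.symm i₀)) := by
      rw [Equiv.apply_symm_apply]
      exact h1 _
    calc (1 : WithTop ℤ) = 1 + 0 := (add_zero _).symm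
      _ ≤ _ := add_le_add h2 (prod_nonneg_ValJac _ _ fun i _ => h0 _ _)
  calc (1 : WithTop ℤ) = 0 + 1 := (zero_add _).symm
    _ ≤ _ := add_le_add hs hp

private theorem v_zz_ValJac [CharZero k] {p : SmoothPoint k K d} {w : Fin d → ℕ}
    (hw : ∀ i, 1 ≤ w i) {v : AddValuation K (WithTop ℤ)} (hv : MonVal p w v) (i : Fin d) :
    v (zz p i) = ((w i : ℤ) : WithTop ℤ) := by
  have h1 := hv.hom hw (MvPolynomial.isWeightedHomogeneous_X k w i) (MvPolynomial.X_ne_zero i)
  rwa [MvPolynomial.aeval_X] at h1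

private theorem v_prod_ValJac {v : AddValuation K (WithTop ℤ)} {ι : Type} (s : Finset ι)
    (g : ι → K) (w : ι → ℕ) (h : ∀ i ∈ s, v (g i) = ((w i : ℤ) : WithTop ℤ)) :
    v (∏ i ∈ s, g i) = ((∑ i ∈ s, (w i : ℤ) : ℤ) : WithTop ℤ) := by
  classical
  induction s using Finset.induction_on with
  | empty =>
    rw [Finset.prod_empty, v.map_one, Finset.sum_empty]
    rfl
  | insert a s ha ih =>
    rw [Finset.prod_insert ha, v.map_mul, h a (Finset.mem_insert_self _ _),
      ih fun i hi => h i (Finset.mem_insert_of_mem hi), Finset.sum_insert ha]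
    norm_cast

theorem MonVal.jac [CharZero k] {p : SmoothPoint k K d} {w : Fin d → ℕ} (hw : ∀ i, 1 ≤ w i)
    (hd : 1 ≤ d) {v : AddValuation K (WithTop ℤ)} (hv : MonVal p w v) {f : Fin d → K}
    (hf : ∀ j, 0 ≤ v (f j)) :
    ((-((∑ i, (w i : ℤ)) - 1) : ℤ) : WithTop ℤ) ≤ v (jac p f) := by
  have : CharZero K := charZero_of_injective_algebraMap (algebraMap k K).injective
  let i₀ : Fin d := ⟨0, hd⟩
  set N : Matrix (Fin d) (Fin d) K := Matrix.of fun i j => zz p i * p.der i (f j) with hN
  have hdet : N.det = (∏ i, zz p i) * FolGap.jac p f := by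
    unfold FolGap.jac
    rw [← Matrix.det_mul_column]
    rfl
  have hN0 : ∀ i j, 0 ≤ v (N i j) := fun i j => (hf j).trans (hv.der hw i (f j))
  set N' : Matrix (Fin d) (Fin d) K := N.updateRow i₀ (∑ i, (w i : K) • N i) with hN'
  have hdet' : N'.det = (w i₀ : K) * N.det := by
    rw [hN', Matrix.det_updateRow_sum, smul_eq_mul]
  have hrow : ∀ j, 1 ≤ v (N' i₀ j) := by
    intro j
    rw [hN', Matrix.updateRow_self, Finset.sum_apply]
    exact hv.euler hw (hf j)
  have hN'0 : ∀ i j, 0 ≤ v (N' i j) := by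
    intro i j
    rcases eq_or_ne i i₀ with rfl | hi
    · exact le_trans (by norm_num) (hrow j)
    · rw [hN', Matrix.updateRow_ne hi]
      exact hN0 i j
  have h1 : 1 ≤ v N'.det := det_ge_one N' i₀ hN'0 hrow
  have hw0 : (w i₀ : K) ≠ 0 := Nat.cast_ne_zero.2 (by have := hw i₀; omega)
  have hinv : 0 ≤ v ((w i₀ : K)⁻¹) := by
    have h2 : (w i₀ : K)⁻¹ = algebraMap k K ((w i₀ : k)⁻¹) := by
      rw [map_inv₀, map_natCast]
    rw [h2]
    exact hv.nonneg hw (p.ring.algebraMap_mem _)
  have h2 : 1 ≤ v N.det := by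
    have h3 : N.det = (w i₀ : K)⁻¹ * N'.det := by
      rw [hdet', ← mul_assoc, inv_mul_cancel₀ hw0, one_mul]
    rw [h3, v.map_mul]
    calc (1 : WithTop ℤ) = 0 + 1 := (zero_add _).symm
      _ ≤ _ := add_le_add hinv h1
  have hz : v (∏ i, zz p i) = ((∑ i, (w i : ℤ) : ℤ) : WithTop ℤ) :=
    v_prod_ValJac _ _ _ fun i _ => v_zz_ValJac hw hv i
  refine le_of_mul_ValJac hz ?_
  rw [mul_comm, ← hdet]
  have h4 : (-((∑ i, (w i : ℤ)) - 1) + ∑ i, (w i : ℤ) : ℤ) = 1 := by ring
  rw [h4]
  exact h2

end Pool.Agent.FolGap
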