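import Pool.Agent.FolGap.ValDiv
import Pool.Agent.FolGap.ValJac
import Pool.Agent.FolGap.Ord
import Pool.Agent.FolGap.Smooth

/-!
# The invariants of a monomial valuation
-/

set_option autoImplicit false

noncomputable section

namespace Pool.Agent.FolGap

open IsLocalRing

variable {k K : Type} [Field k] [Field K] [Algebra k K] {d : ℕ}

theorem exists_inv [CharZero k] {p p' : SmoothPoint k K d} (hd : 1 ≤ d) (hring : p'.ring = p.ring)
    {u : K} (hu : u ∈ p.ring) (hu0 : u ≠ 0) (hu' : u⁻¹ ∈ p.ring)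
    (hjac : ∀ f : Fin d → K, jac p' f = u * jac p f) {w : Fin d → ℕ} (hw : ∀ i, 1 ≤ w i)
    {v : AddValuation K (WithTop ℤ)} (hv : MonVal p' w v) {i₁ : Fin d} (hi : w i₁ = 1)
    {D : Derivation k K K} (h0 : D ≠ 0) {c : ℤ}
    (hc : ∀ f : K, v f + ((c : ℤ) : WithTop ℤ) ≤ v (D f)) :
    IsDivisor p v ∧ ∃ m a : ℤ, OrdAlong v D m ∧ Disc p v a ∧ c ≤ m - eps v D m ∧
      a + 1 ≤ ∑ i, (w i : ℤ) := by
  have hnn : ∀ f ∈ p'.ring, 0 ≤ v f := fun f hf => hv.nonneg hw hf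
  have hnn' : ∀ f ∈ p.ring, 0 ≤ v f := fun f hf => hnn f (hring ▸ hf)
  have h1 : v (zz p' i₁) = 1 := by
    have := hv.hom hw (MvPolynomial.isWeightedHomogeneous_X k w i₁) (MvPolynomial.X_ne_zero i₁)
    rw [MvPolynomial.aeval_X, hi] at this
    rw [this]
    rfl
  have hdiv : IsDivisor p v := ⟨hnn', ⟨_, h1⟩, hv.trdeg_gen hw hd⟩
  obtain ⟨m, hm⟩ := exists_ord_along h0 hc
  have hvu : v u = 0 := val_unit hnn' hu0 hu hu'
  have hb : ∀ f : Fin d → K, (∀ j, 0 ≤ v (f j)) →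
      ((-((∑ i, (w i : ℤ)) - 1) : ℤ) : WithTop ℤ) ≤ v (jac p f) := by
    intro f hf
    have := hv.jac hw hd hf
    rwa [hjac, AddValuation.map_mul, hvu, zero_add] at this
  obtain ⟨a, ha1, ha⟩ := exists_disc hnn' hb
  exact ⟨hdiv, m, a, hm, ha, le_of_ge hm hc, by omega⟩

end Pool.Agent.FolGap
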