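import Pool.Agent.FolGap.Ord
import Pool.Agent.FolGap.Det

/-!
# Log discrepancies are at least the sum of the orders of the coordinates

PROOF of `sum_le_disc`. Let `π` have value `1` and `z_j = π ^ n_j u_j`, `v u_j = 0`. Then
`∂_i z_j = π ^ n_j (∂_i u_j + r_j ∂_i π)`, `r_j = n_j u_j / π`. The determinant of `∂_i z_j` is
`det 1 = 1`, so `1 = π ^ (∑ n_j) * det (B + c rᵀ)` with `B i j = ∂_i u_j`, `c i = ∂_i π`, and
`det (B + c rᵀ) = det B + ∑_j r_j det (B with column j replaced by c)` (`det_add_rank_one`, in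
`Det.lean`). `det B = jac p u` and
`det (B with column j replaced by c) = jac p (update u j π)` have
value `≥ -a`, and `v r_j ≥ -1`. So `0 = v 1 ≥ ∑ n_j - 1 - a`.
-/

set_option autoImplicit false

noncomputable section

namespace Pool.Agent.FolGap

open IsLocalRing

variable {k K : Type} [Field k] [Field K] [Algebra k K] {d : ℕ}

private theorem val_nat_Jac (v : AddValuation K (WithTop ℤ)) (n : ℕ) : 0 ≤ v (n : K) := by
  induction n with
  | zero =>
    rw [Nat.cast_zero, v.map_zero]
    exact le_top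
  | succ n ih =>
    rw [Nat.cast_succ]
    exact v.map_le_add ih v.map_one.ge

private theorem val_int_Jac (v : AddValuation K (WithTop ℤ)) (n : ℤ) : 0 ≤ v (n : K) := by
  obtain ⟨m, h | h⟩ := Int.eq_nat_or_neg n
  · rw [h, Int.cast_natCast]
    exact val_nat_Jac v m
  · rw [h, Int.cast_neg, v.map_neg, Int.cast_natCast]
    exact val_nat_Jac v m

private theorem ne_zero_Jac {v : AddValuation K (WithTop ℤ)} {π : K} (hπ : v π = 1) :
    π ≠ 0 := by
  rintro rfl
  rw [v.map_zero] at hπ
  exact WithTop.top_ne_one hπ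

private theorem val_zpow_Jac {v : AddValuation K (WithTop ℤ)} {π : K} (hπ : v π = 1) (n : ℤ) :
    v (π ^ n) = ((n : ℤ) : WithTop ℤ) := by
  have hnat : ∀ m : ℕ, v (π ^ m) = ((m : ℤ) : WithTop ℤ) := by
    intro m
    rw [v.map_pow, hπ, nsmul_one]
    rfl
  have hπ0 : π ≠ 0 := ne_zero_Jac hπ
  obtain ⟨m, h | h⟩ := Int.eq_nat_or_neg n
  · rw [h, zpow_natCast]
    exact hnat m
  · have h0 : v (π ^ (-(m : ℤ))) ≠ ⊤ := by
      rw [Ne, v.top_iff]
      exact zpow_ne_zero _ hπ0
    obtain ⟨b, hb⟩ := WithTop.ne_top_iff_exists.1 h0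
    have h1 : v (π ^ (-(m : ℤ))) + v (π ^ m) = 0 := by
      rw [← v.map_mul, ← zpow_natCast, ← zpow_add₀ hπ0, neg_add_cancel, zpow_zero, v.map_one]
    rw [← hb, hnat] at h1
    have h2 : b + (m : ℤ) = 0 := by exact_mod_cast h1
    rw [h, ← hb, eq_neg_of_add_eq_zero_left h2]

private theorem val_prod_Jac {v : AddValuation K (WithTop ℤ)} {π : K} (hπ : v π = 1)
    (n : Fin d → ℤ) (s : Finset (Fin d)) :
    v (∏ j ∈ s, π ^ n j) = ((∑ j ∈ s, n j : ℤ) : WithTop ℤ) := by
  classical
  induction s using Finset.induction_on with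
  | empty =>
    rw [Finset.prod_empty, Finset.sum_empty, v.map_one]
    rfl
  | insert a s ha ih =>
    rw [Finset.prod_insert ha, Finset.sum_insert ha, v.map_mul, ih, val_zpow_Jac hπ]
    rfl

theorem sum_le_disc [CharZero k] {p : SmoothPoint k K d} {v : AddValuation K (WithTop ℤ)}
    (hv : ∃ f : K, v f = 1) {a : ℤ}
    (ha : ∀ f : Fin d → K, (∀ j, 0 ≤ v (f j)) → ((-a : ℤ) : WithTop ℤ) ≤ v (jac p f))
    {n : Fin d → ℤ} (hn : ∀ i, v (p.coord i : K) = ((n i : ℤ) : WithTop ℤ)) :
    ∑ i, n i ≤ a + 1 := by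
  classical
  obtain ⟨π, hπ⟩ := hv
  have hπ0 : π ≠ 0 := ne_zero_Jac hπ
  have hex : ∀ j, ∃ y : K, v y = 0 ∧ (p.coord j : K) = π ^ n j * y := by
    intro j
    refine ⟨π ^ (-n j) * (p.coord j : K), ?_, ?_⟩
    · rw [v.map_mul, val_zpow_Jac hπ, hn]
      have h1 : ((-n j : ℤ) : WithTop ℤ) + ((n j : ℤ) : WithTop ℤ)
          = ((-n j + n j : ℤ) : WithTop ℤ) := rfl
      rw [h1, neg_add_cancel]
      rfl
    · rw [← mul_assoc, ← zpow_add₀ hπ0, add_neg_cancel, zpow_zero, one_mul]
  choose u huv hz using hex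
  have hder : ∀ i j, p.der i (p.coord j : K)
      = π ^ n j * (p.der i (u j) + p.der i π * ((n j : K) * u j * π ^ (-1 : ℤ))) := by
    intro i j
    rw [hz j, Derivation.leibniz, Derivation.leibniz_zpow, smul_eq_mul, smul_eq_mul, smul_eq_mul,
      zsmul_eq_mul, zpow_sub_one₀ hπ0, zpow_neg_one]
    ring
  have hdet : (∏ j, π ^ n j) * ((Matrix.of fun i j => p.der i (u j)).det +
      ∑ j, ((n j : K) * u j * π ^ (-1 : ℤ)) *
        ((Matrix.of fun i j => p.der i (u j)).updateCol j fun i => p.der i π).det) = 1 := by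
    rw [← det_add_rank_one, ← Matrix.det_mul_row]
    have h1 : (Matrix.of fun i j : Fin d => π ^ n j *
        (Matrix.of fun i j : Fin d => (Matrix.of fun i j : Fin d => p.der i (u j)) i j +
          p.der i π * ((n j : K) * u j * π ^ (-1 : ℤ))) i j) = 1 := by
      ext i j
      rw [Matrix.of_apply, Matrix.of_apply, Matrix.of_apply, ← hder, p.der_coord,
        Matrix.one_apply]
    rw [h1, Matrix.det_one]
  set T : K := (Matrix.of fun i j => p.der i (u j)).det +
      ∑ j, ((n j : K) * u j * π ^ (-1 : ℤ)) *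
        ((Matrix.of fun i j => p.der i (u j)).updateCol j fun i => p.der i π).det with hT
  have hT1 : ((-(a + 1) : ℤ) : WithTop ℤ) ≤ v T := by
    refine v.map_le_add ?_ (v.map_le_sum fun j _ => ?_)
    · refine le_trans ?_ (ha u fun j => (huv j).ge)
      exact WithTop.coe_le_coe.2 (by omega)
    · rw [v.map_mul]
      have h1 : ((-1 : ℤ) : WithTop ℤ) ≤ v ((n j : K) * u j * π ^ (-1 : ℤ)) := by
        rw [v.map_mul, v.map_mul, huv, val_zpow_Jac hπ, add_zero]
        have h2 := add_le_add_left (val_int_Jac v (n j)) ((-1 : ℤ) : WithTop ℤ)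
        rw [zero_add] at h2
        exact h2
      have h3 : ((Matrix.of fun i j => p.der i (u j)).updateCol j fun i => p.der i π)
          = Matrix.of fun i l => p.der i (Function.update u j π l) := by
        ext i l
        rw [Matrix.updateCol_apply, Matrix.of_apply, Matrix.of_apply]
        by_cases h : l = j
        · rw [if_pos h, h, Function.update_self]
        · rw [if_neg h, Function.update_of_ne h]
      have h4 : ((-a : ℤ) : WithTop ℤ) ≤
          v ((Matrix.of fun i j => p.der i (u j)).updateCol j fun i => p.der i π).det := by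
        rw [h3]
        refine ha (Function.update u j π) fun l => ?_
        by_cases h : l = j
        · rw [h, Function.update_self, hπ]
          exact zero_le_one
        · rw [Function.update_of_ne h]
          exact (huv l).ge
      have h5 : ((-(a + 1) : ℤ) : WithTop ℤ) = ((-1 : ℤ) : WithTop ℤ) + ((-a : ℤ) : WithTop ℤ) := by
        rw [← WithTop.coe_add]
        congr 1
        ring
      rw [h5]
      exact add_le_add h1 h4
  have h6 : v ((∏ j, π ^ n j) * T) = 0 := by
    rw [hdet, v.map_one]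
  rw [v.map_mul, val_prod_Jac hπ] at h6
  have h7 := add_le_add_right hT1 (((∑ j, n j : ℤ)) : WithTop ℤ)
  rw [h6, ← WithTop.coe_add] at h7
  have h8 : (∑ j, n j) + -(a + 1) ≤ 0 := by exact_mod_cast h7
  omega

end Pool.Agent.FolGap
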