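import Pool.Agent.FolGap.Hom
import Pool.Agent.FolGap.Ord

/-!
# A divisor on which the foliation is not log canonical forces nilpotency

PROOF of `nil_of_div`. (1) For `f` in the ring, `v (D f) ≥ v f + 1 ≥ 1`, so `D f` is not a unit of
the local ring (a unit has `v = 0`, by `nonneg` for it and its inverse), hence in the maximal ideal,
which is `filt p w1 1` (`filt_one_iff`). (2) Bound for the partial derivatives: if `v g ≥ 0`
then `v (∂_i g) ≥ -a`: take `f j = z_j` for `j ≠ i` and `f i = g` in the property of `a`; the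
matrix `∂_l f_j` has the columns `e_j` for `j ≠ i`, so its determinant is `∂_i g`
(`Matrix.det_updateCol...`, Cramer: `Function.update`, `Matrix.cramer_one` / `Matrix.cramer_apply`).
(3) If `f` is in the ring and `v f ≥ a + 2` then `f` is in `filt p w1 2`: `f` is in the maximal
ideal since `v f > 0` (`a ≥ 0` by `disc_nonneg`); by `filt_res` (`n = 1`) `f - ∑ c_j z_j` is in
`filt 2`, so `∂_i f - c_i` is in the maximal ideal (`filt_der`). If some `c_i ≠ 0` then `∂_i f` is a
unit and `v (∂_i f) = 0`. But with `π` of value `1`, `f = π ^ (a + 2) g`, `v g ≥ 0`,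
`∂_i f = (a + 2) π ^ (a + 1) g ∂_i π + π ^ (a + 2) ∂_i g` has value `≥ (a + 1) - a = 1`, a
contradiction. So all `c_i = 0`. (4) `v (D^[n] f) ≥ n` for `f` in the ring, so by (3)
`D^[a + 2] f` is in `filt 2`.
-/

set_option autoImplicit false

noncomputable section

namespace Pool.Agent.FolGap

open IsLocalRing

variable {k K : Type} [Field k] [Field K] [Algebra k K] {d : ℕ}

private theorem mem_filt_one {p : SmoothPoint k K d} {v : AddValuation K (WithTop ℤ)}
    (hv : ∀ f ∈ p.ring, 0 ≤ v f) {f : K} (hf : f ∈ p.ring) (h1 : 1 ≤ v f) :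
    f ∈ filt p (w1 d) 1 := by
  have h0 := filt_one_iff p (w := w1 d) (fun _ => le_refl _) ⟨f, hf⟩
  refine h0.2 ?_
  rw [mem_maximalIdeal, mem_nonunits_iff]
  intro hu
  obtain ⟨g, hg⟩ := hu.exists_right_inv
  have h2 : v f + v (g : K) = 0 := by
    rw [← v.map_mul, ← v.map_one]
    congr 1
    exact congrArg Subtype.val hg
  have h3 := hv g g.2
  have h4 : (1 : WithTop ℤ) ≤ 0 := by
    calc (1 : WithTop ℤ) = 1 + 0 := (add_zero _).symm
      _ ≤ v f + v (g : K) := add_le_add h1 h3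
      _ = 0 := h2
  have h5 : ((1 : ℤ) : WithTop ℤ) ≤ ((0 : ℤ) : WithTop ℤ) := h4
  rw [WithTop.coe_le_coe] at h5
  omega

private theorem der_bound {p : SmoothPoint k K d} {v : AddValuation K (WithTop ℤ)}
    (hv : ∀ f ∈ p.ring, 0 ≤ v f) {a : ℤ}
    (ha : ∀ f : Fin d → K, (∀ j, 0 ≤ v (f j)) → ((-a : ℤ) : WithTop ℤ) ≤ v (jac p f))
    {g : K} (hg : 0 ≤ v g) (i : Fin d) : ((-a : ℤ) : WithTop ℤ) ≤ v (p.der i g) := by
  have h1 := ha (Function.update (fun j => (p.coord j : K)) i g) (fun j => by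
    by_cases hj : j = i
    · subst hj
      simpa using hg
    · rw [Function.update_of_ne hj]
      exact hv _ (p.coord j).2)
  have h2 : jac p (Function.update (fun j => (p.coord j : K)) i g) = p.der i g := by
    unfold jac
    have e : (Matrix.of fun l j : Fin d =>
        p.der l (Function.update (fun j => (p.coord j : K)) i g j)) =
        (1 : Matrix (Fin d) (Fin d) K).updateCol i (fun l => p.der l g) := by
      ext l j
      by_cases hj : j = i
      · subst hj
        simp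
      · rw [Matrix.of_apply, Function.update_of_ne hj, Matrix.updateCol_ne hj, p.der_coord,
          Matrix.one_apply]
    rw [e, ← Matrix.cramer_apply, Matrix.cramer_one]
    rfl
  rwa [h2] at h1

private theorem euler_one (p : SmoothPoint k K d) {P : MvPolynomial (Fin d) k}
    (hP : P.IsWeightedHomogeneous (w1 d) 1) :
    MvPolynomial.aeval (zz p) P = ∑ i, zz p i * p.der i (MvPolynomial.aeval (zz p) P) := by
  have h1 : MvPolynomial.aeval (zz p) P = ∑ α ∈ P.support, P.coeff α • mon p α := by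
    rw [MvPolynomial.aeval_def, MvPolynomial.eval₂_eq']
    refine Finset.sum_congr rfl fun α _ => ?_
    rw [Algebra.smul_def]
    rfl
  have h2 : ∀ α ∈ P.support, ∑ i, zz p i * p.der i (mon p α) = mon p α := by
    intro α hα
    have h3 := hP (MvPolynomial.mem_support_iff.mp hα)
    rw [Finsupp.weight_apply] at h3
    have h4 : (α.sum fun _ n => n) = 1 := by
      rw [← h3]
      refine Finsupp.sum_congr fun i _ => ?_
      unfold w1
      simp
    obtain ⟨j, rfl⟩ := (Finsupp.sum_eq_one_iff α).1 h4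
    have h5 : mon p (Finsupp.single j 1) = zz p j := by
      unfold zz mon
      rw [Finset.prod_eq_single j]
      · simp
      · intro l _ hl
        simp [hl.symm]
      · simp
    rw [h5, Finset.sum_eq_single j]
    · unfold zz
      rw [p.der_coord, if_pos rfl, mul_one]
    · intro l _ hl
      unfold zz
      rw [p.der_coord, if_neg hl, mul_zero]
    · intro h
      exact absurd (Finset.mem_univ _) h
  conv_rhs => rw [h1]
  simp only [map_sum, Derivation.map_smul, Finset.mul_sum]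
  rw [Finset.sum_comm, h1]
  refine Finset.sum_congr rfl fun α hα => ?_
  conv_lhs => rw [← h2 α hα]
  rw [Finset.smul_sum]
  refine Finset.sum_congr rfl fun i _ => ?_
  rw [mul_smul_comm]

private theorem der_ge_one {p : SmoothPoint k K d} {v : AddValuation K (WithTop ℤ)}
    (hv : IsDivisor p v) {a : ℤ} (ha0 : 0 ≤ a)
    (ha : ∀ f : Fin d → K, (∀ j, 0 ≤ v (f j)) → ((-a : ℤ) : WithTop ℤ) ≤ v (jac p f))
    {f : K} (hf : ((a + 2 : ℤ) : WithTop ℤ) ≤ v f) (i : Fin d) : 1 ≤ v (p.der i f) := by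
  obtain ⟨π, hπ⟩ := hv.surj
  obtain ⟨n, hn⟩ : ∃ n : ℕ, (n : ℤ) = a + 1 := ⟨(a + 1).toNat, by omega⟩
  have hπ0 : π ≠ 0 := by
    intro h
    rw [h, v.map_zero] at hπ
    exact absurd hπ (by simp)
  have hpow : ∀ m : ℕ, v (π ^ m) = ((m : ℤ) : WithTop ℤ) := by
    intro m
    rw [v.map_pow, hπ]
    simp
  obtain ⟨g, hg⟩ : ∃ g, g = f / π ^ (n + 1) := ⟨_, rfl⟩
  have hfg : f = π ^ (n + 1) * g := by
    rw [hg, mul_div_cancel₀ _ (pow_ne_zero _ hπ0)]
  have hvg : 0 ≤ v g := by
    have h1 : v f = (((n + 1 : ℕ) : ℤ) : WithTop ℤ) + v g := by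
      rw [hfg, v.map_mul, hpow]
    have h2 : (a + 2 : ℤ) = ((n + 1 : ℕ) : ℤ) := by push_cast; omega
    rw [h1, h2] at hf
    by_contra hneg
    push Not at hneg
    obtain ⟨z, hz⟩ : ∃ z : ℤ, v g = (z : WithTop ℤ) :=
      ⟨_, (WithTop.coe_untop _ (ne_top_of_lt hneg)).symm⟩
    rw [hz] at hf hneg
    have h3 : z < 0 := by exact_mod_cast hneg
    have h4 : ((n + 1 : ℕ) : ℤ) ≤ ((n + 1 : ℕ) : ℤ) + z := by exact_mod_cast hf
    omega
  have e1 : p.der i f = ((n + 1 : ℕ) : K) * (π ^ n * g * p.der i π) +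
      π ^ (n + 1) * p.der i g := by
    rw [hfg, Derivation.leibniz, Derivation.leibniz_pow]
    simp only [smul_eq_mul, nsmul_eq_mul, Nat.add_sub_cancel]
    ring
  have b1 : ((-a : ℤ) : WithTop ℤ) ≤ v (p.der i π) := der_bound hv.nonneg ha (by
    rw [hπ]
    exact zero_le_one) i
  have b2 : ((-a : ℤ) : WithTop ℤ) ≤ v (p.der i g) := der_bound hv.nonneg ha hvg i
  have c1 : (1 : WithTop ℤ) ≤ v (((n + 1 : ℕ) : K) * (π ^ n * g * p.der i π)) := by
    rw [v.map_mul, v.map_mul, v.map_mul, hpow]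
    have hz : (0 : WithTop ℤ) ≤ v ((n + 1 : ℕ) : K) := hv.nonneg _ (natCast_mem _ _)
    calc (1 : WithTop ℤ) = 0 + (((n : ℤ) : WithTop ℤ) + 0 + ((-a : ℤ) : WithTop ℤ)) := by
          rw [zero_add, add_zero, ← WithTop.coe_add]
          have : (n : ℤ) + -a = 1 := by omega
          rw [this]
          rfl
      _ ≤ _ := add_le_add hz (add_le_add (add_le_add le_rfl hvg) b1)
  have c2 : (1 : WithTop ℤ) ≤ v (π ^ (n + 1) * p.der i g) := by
    rw [v.map_mul, hpow]
    calc (1 : WithTop ℤ) ≤ (((n + 1 : ℕ) : ℤ) : WithTop ℤ) + ((-a : ℤ) : WithTop ℤ) := by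
          rw [← WithTop.coe_add]
          have : ((n + 1 : ℕ) : ℤ) + -a = 2 := by push_cast; omega
          rw [this]
          exact_mod_cast (by norm_num : (1 : ℤ) ≤ 2)
      _ ≤ _ := add_le_add le_rfl b2
  rw [e1]
  exact (le_min c1 c2).trans (v.map_add _ _)

theorem nil_of_div [CharZero k] {p : SmoothPoint k K d} {D : Derivation k K K}
    (hD : ∀ f ∈ p.ring, D f ∈ p.ring) {v : AddValuation K (WithTop ℤ)} (hv : IsDivisor p v)
    {a : ℤ} (ha : Disc p v a) (h : ∀ f : K, v f + 1 ≤ v (D f)) :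
    (∀ f ∈ p.ring, D f ∈ filt p (w1 d) 1) ∧
      ∃ N : ℕ, ∀ f ∈ p.ring, (⇑D)^[N] f ∈ filt p (w1 d) 2 := by
  have ha0 : 0 ≤ a := disc_nonneg hv.nonneg ha.1
  have h1 : ∀ f ∈ p.ring, (1 : WithTop ℤ) ≤ v (D f) := by
    intro f hf
    calc (1 : WithTop ℤ) = 0 + 1 := (zero_add _).symm
      _ ≤ v f + 1 := add_le_add (hv.nonneg f hf) le_rfl
      _ ≤ _ := h f
  refine ⟨fun f hf => mem_filt_one hv.nonneg (hD f hf) (h1 f hf), (a + 2).toNat, fun f hf => ?_⟩
  have hit : ∀ n : ℕ, (⇑D)^[n] f ∈ p.ring ∧ ((n : ℤ) : WithTop ℤ) ≤ v ((⇑D)^[n] f) := by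
    intro n
    induction n with
    | zero => exact ⟨hf, hv.nonneg f hf⟩
    | succ n ih =>
      rw [Function.iterate_succ_apply']
      refine ⟨hD _ ih.1, ?_⟩
      calc (((n + 1 : ℕ) : ℤ) : WithTop ℤ) = ((n : ℤ) : WithTop ℤ) + 1 := by
            rw [Nat.cast_add, WithTop.coe_add]
            rfl
        _ ≤ v ((⇑D)^[n] f) + 1 := add_le_add ih.2 le_rfl
        _ ≤ _ := h _
  obtain ⟨g, hg⟩ : ∃ g, g = (⇑D)^[(a + 2).toNat] f := ⟨_, rfl⟩
  obtain ⟨hgr, hgv⟩ := hit (a + 2).toNat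
  rw [← hg] at hgr hgv ⊢
  have e1 : (((a + 2).toNat : ℕ) : ℤ) = a + 2 := by omega
  rw [e1] at hgv
  have hg1 : (1 : WithTop ℤ) ≤ v g := by
    refine le_trans ?_ hgv
    exact_mod_cast (by omega : (1 : ℤ) ≤ a + 2)
  have hgf := mem_filt_one hv.nonneg hgr hg1
  obtain ⟨P, hP, hPf⟩ := filt_res p (w := w1 d) (fun _ => le_refl _) hgf
  have hPz : MvPolynomial.aeval (zz p) P ∈ filt p (w1 d) (1 + 1) := by
    rw [euler_one p hP]
    refine Submodule.sum_mem _ fun i _ => ?_
    refine filt_mul (coord_mem_filt p (w1 d) i) ?_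
    have h3 : p.der i (g - MvPolynomial.aeval (zz p) P) ∈ filt p (w1 d) 1 :=
      filt_der p (w1 d) hPf i
    have h4 : p.der i g ∈ filt p (w1 d) 1 :=
      mem_filt_one hv.nonneg (p.der_mem i ⟨g, hgr⟩) (der_ge_one hv ha0 ha.1 hgv i)
    rw [map_sub] at h3
    have h5 := Submodule.sub_mem _ h4 h3
    rwa [sub_sub_cancel] at h5
  have h6 := Submodule.add_mem _ hPf hPz
  rwa [sub_add_cancel] at h6

end Pool.Agent.FolGap
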