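import Pool.Agent.FolGap.Filt3

/-!
# The extremal derivation `∑ z_(i+1) ∂_i + z_0 ^ 2 ∂_(d-1)`

PROOFS. `shift_coord`: `der_coord`. `shift_mem`: `der_mem`. `shift_ne_zero`: apply it to the last
coordinate: `z_0 ^ 2 ≠ 0` (`z_0 ≠ 0` since `∂_0 z_0 = 1`). `shift_nil`: by `filt_deriv` with the
weights `w0`, `D^[n] f ∈ filt w0 n` for `f` in the ring; and `filt w0 (2 d) ≤ filt w1 2`, because a
monomial of `w0`-weight `≥ 2 d` has degree `≥ 2` (all weights are `< 2 d`); take `N = 2 d`. (The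
hypotheses of `filt_deriv`: `D z_i = z_(i+1)` has weight `w_i + 1`, `D z_(d-1) = z_0 ^ 2` has weight
`2 d = w_(d-1) + 1`; `D f ∈ filt w0 1` for `f` in the ring, as `D f = ∑ next_i ∂_i f`.)
`shift_val`: the `n_i = v z_i` are integers as `z_i ≠ 0`; `n_(i+1) ≥ n_i + c`,
`2 n_0 ≥ n_(d-1) + c ≥ n_0 + d c`, so `n_0 ≥ d c` and `n_i ≥ (d + i) c`.
-/

set_option autoImplicit false

noncomputable section

namespace Pool.Agent.FolGap

open IsLocalRing

variable {k K : Type} [Field k] [Field K] [Algebra k K] {d : ℕ}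

/-- `z_(i+1)`, and `z_0 ^ 2` for the last index. -/
def next (p : SmoothPoint k K d) (i : Fin d) : K :=
  if h : (i : ℕ) + 1 < d then zz p ⟨i + 1, h⟩ else zz p ⟨0, lt_of_le_of_lt (Nat.zero_le _) i.2⟩ ^ 2

/-- The derivation `∑ z_(i+1) ∂_i + z_0 ^ 2 ∂_(d-1)`. -/
def shift (p : SmoothPoint k K d) : Derivation k K K := ∑ i, next p i • p.der i

theorem der_zz (p : SmoothPoint k K d) (i j : Fin d) :
    p.der i (zz p j) = if i = j then 1 else 0 := p.der_coord i j

theorem shift_apply (p : SmoothPoint k K d) (f : K) :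
    shift p f = ∑ i, next p i * p.der i f := by
  have h := congrFun (map_sum (Derivation.coeFnAddMonoidHom (R := k) (A := K) (M := K))
    (fun i => next p i • p.der i) Finset.univ) f
  rw [Finset.sum_apply] at h
  exact h

theorem zz_mem (p : SmoothPoint k K d) (i : Fin d) : zz p i ∈ p.ring := (p.coord i).2

theorem next_mem (p : SmoothPoint k K d) (i : Fin d) : next p i ∈ p.ring := by
  unfold next
  split_ifs
  · exact zz_mem p _
  · exact pow_mem (zz_mem p _) 2

theorem shift_coord (p : SmoothPoint k K d) (i : Fin d) : shift p (zz p i) = next p i := by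
  rw [shift_apply, Finset.sum_eq_single i]
  · rw [der_zz, if_pos rfl, mul_one]
  · intro j _ hj
    rw [der_zz, if_neg hj, mul_zero]
  · intro h
    exact (h (Finset.mem_univ i)).elim

theorem shift_mem (p : SmoothPoint k K d) {f : K} (hf : f ∈ p.ring) : shift p f ∈ p.ring := by
  rw [shift_apply]
  exact sum_mem fun i _ => mul_mem (next_mem p i) (p.der_mem i ⟨f, hf⟩)

theorem zz_ne_zero (p : SmoothPoint k K d) (i : Fin d) : zz p i ≠ 0 := by
  intro h
  have h1 := der_zz p i i
  rw [h, map_zero, if_pos rfl] at h1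
  exact zero_ne_one h1

theorem shift_ne_zero (p : SmoothPoint k K d) (hd : 1 ≤ d) : shift p ≠ 0 := by
  intro h
  have h1 := shift_coord p ⟨d - 1, by omega⟩
  rw [h] at h1
  unfold next at h1
  rw [dif_neg (by simp only; omega)] at h1
  exact pow_ne_zero 2 (zz_ne_zero p _) h1.symm

theorem sum_mem_filt (p : SmoothPoint k K d) {w : Fin d → ℕ} (h : ∀ i, next p i ∈ filt p w 1)
    {f : K} (hf : f ∈ p.ring) : shift p f ∈ filt p w 1 := by
  rw [shift_apply]
  refine sum_mem fun i _ => ?_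
  have h1 := filt_mul (h i) (mem_filt_zero w (p.der_mem i ⟨f, hf⟩))
  exact h1

theorem next_w1 (p : SmoothPoint k K d) (i : Fin d) : next p i ∈ filt p (w1 d) 1 := by
  unfold next
  split_ifs with h
  · exact coord_mem_filt p (w1 d) ⟨i + 1, h⟩
  · rw [sq]
    have h1 := coord_mem_filt p (w1 d) ⟨0, lt_of_le_of_lt (Nat.zero_le _) i.2⟩
    exact filt_anti p (w1 d) (by unfold w1; omega) (filt_mul h1 h1)

theorem next_w0 (p : SmoothPoint k K d) (i : Fin d) :
    next p i ∈ filt p (w0 d) (w0 d i + 1) := by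
  unfold next
  split_ifs with h
  · have h1 := coord_mem_filt p (w0 d) ⟨i + 1, h⟩
    refine filt_anti p (w0 d) ?_ h1
    unfold w0
    simp only
    omega
  · rw [sq]
    have h1 := coord_mem_filt p (w0 d) ⟨0, lt_of_le_of_lt (Nat.zero_le _) i.2⟩
    refine filt_anti p (w0 d) ?_ (filt_mul h1 h1)
    unfold w0
    simp only
    have := i.2
    omega

theorem filt_w0_le (p : SmoothPoint k K d) (hd : 1 ≤ d) :
    filt p (w0 d) (2 * d) ≤ filt p (w1 d) 2 := by
  refine Submodule.span_mono ?_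
  rintro x ⟨α, hα, rfl⟩
  refine ⟨α, ?_, rfl⟩
  by_contra h
  push Not at h
  have h1 : Finsupp.weight (w1 d) α = ∑ i, α i := by
    rw [Finsupp.weight_apply, Finsupp.sum_fintype]
    · exact Finset.sum_congr rfl fun i _ => by
        simp [w1]
    · intro i
      simp
  have h2 : Finsupp.weight (w0 d) α = ∑ i, α i * (d + i) := by
    rw [Finsupp.weight_apply, Finsupp.sum_fintype]
    · exact Finset.sum_congr rfl fun i _ => by
        simp [w0]
    · intro i
      simp
  have h3 : ∑ i, α i * (d + (i : ℕ)) ≤ ∑ i, α i * (2 * d - 1) :=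
    Finset.sum_le_sum fun i _ => Nat.mul_le_mul_left _ (by
      have := i.2
      omega)
  rw [← Finset.sum_mul] at h3
  have h4 : (∑ i, α i) * (2 * d - 1) ≤ 1 * (2 * d - 1) :=
    Nat.mul_le_mul_right _ (by omega)
  omega

theorem shift_nil (p : SmoothPoint k K d) :
    (∀ f ∈ p.ring, shift p f ∈ filt p (w1 d) 1) ∧
      ∃ N : ℕ, ∀ f ∈ p.ring, (⇑(shift p))^[N] f ∈ filt p (w1 d) 2 := by
  refine ⟨fun f hf => sum_mem_filt p (next_w1 p) hf, ?_⟩
  rcases Nat.eq_zero_or_pos d with hd | hd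
  · subst hd
    refine ⟨1, fun f _ => ?_⟩
    rw [Function.iterate_one, shift_apply]
    simp
  · refine ⟨2 * d, fun f hf => filt_w0_le p hd ?_⟩
    have key : ∀ n : ℕ, (⇑(shift p))^[n] f ∈ filt p (w0 d) n := by
      intro n
      induction n with
      | zero => exact mem_filt_zero _ hf
      | succ n ih =>
        rw [Function.iterate_succ_apply']
        refine filt_deriv p (fun g hg => sum_mem_filt p (fun i => ?_) hg) (fun i => ?_) ih
        · exact filt_anti p (w0 d) (by omega) (next_w0 p i)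
        · rw [shift_coord]
          exact next_w0 p i
    exact key _

theorem shift_val (p : SmoothPoint k K d) {v : AddValuation K (WithTop ℤ)} {c : ℤ}
    (h : ∀ f : K, v f + (c : WithTop ℤ) ≤ v (shift p f)) {n : Fin d → ℤ}
    (hn : ∀ i, v (zz p i) = ((n i : ℤ) : WithTop ℤ)) (i : Fin d) : (d + i) * c ≤ n i := by
  have h1 : ∀ (i : Fin d) (hi : (i : ℕ) + 1 < d), n i + c ≤ n ⟨i + 1, hi⟩ := by
    intro i hi
    have h2 := h (zz p i)
    rw [shift_coord, hn] at h2
    unfold next at h2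
    rw [dif_pos hi, hn] at h2
    exact_mod_cast h2
  have h0 : 0 < d := lt_of_le_of_lt (Nat.zero_le _) i.2
  have h2 : n ⟨d - 1, by omega⟩ + c ≤ 2 * n ⟨0, h0⟩ := by
    have h2 := h (zz p ⟨d - 1, by omega⟩)
    rw [shift_coord, hn] at h2
    unfold next at h2
    rw [dif_neg (by simp only; omega), sq, AddValuation.map_mul, hn] at h2
    have h3 : n ⟨d - 1, by omega⟩ + c ≤ n ⟨0, h0⟩ + n ⟨0, h0⟩ := by exact_mod_cast h2
    linarith
  have h3 : ∀ (j : ℕ) (hj : j < d), n ⟨0, h0⟩ + j * c ≤ n ⟨j, hj⟩ := by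
    intro j
    induction j with
    | zero =>
      intro hj
      simp
    | succ j ih =>
      intro hj
      have h4 := ih (by omega)
      have h5 := h1 ⟨j, by omega⟩ hj
      push_cast
      linarith
  have h4 := h3 (d - 1) (by omega)
  have h5 := h3 i i.2
  have h6 : ((d - 1 : ℕ) : ℤ) = d - 1 := by
    rw [Nat.cast_sub h0]
    rfl
  rw [h6] at h4
  have h7 : n ⟨(i : ℕ), i.2⟩ = n i := rfl
  rw [h7] at h5
  nlinarith

theorem exists_int_val (p : SmoothPoint k K d) (v : AddValuation K (WithTop ℤ)) :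
    ∃ n : Fin d → ℤ, ∀ i, v (zz p i) = ((n i : ℤ) : WithTop ℤ) := by
  have h1 : ∀ i, ∃ n : ℤ, v (zz p i) = (n : WithTop ℤ) := fun i => by
    have h2 : v (zz p i) ≠ ⊤ := fun h => zz_ne_zero p i ((AddValuation.top_iff v).1 h)
    obtain ⟨n, hn⟩ := WithTop.ne_top_iff_exists.1 h2
    exact ⟨n, hn.symm⟩
  choose n hn using h1
  exact ⟨n, hn⟩

end Pool.Agent.FolGap
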