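import Pool.Agent.FolGap.ValDiv
import Pool.Agent.FolGap.ValJac
import Pool.Agent.FolGap.Adapt
import Pool.Agent.FolGap.Nil
import Pool.Agent.FolGap.Jac
import Pool.Agent.FolGap.Shift

/-!
# The gap for interpolated log canonical thresholds of foliations of rank one
-/

set_option autoImplicit false

noncomputable section

namespace Pool.Agent.FolGap

open IsLocalRing

variable {k K : Type} [Field k] [Field K] [Algebra k K] {d : ℕ}

/-- `d (3 d - 1) / (d (3 d - 1) + 2)`. -/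
def thr (d : ℕ) : ℝ := (d * (3 * d - 1) : ℝ) / (d * (3 * d - 1) + 2)

/-- The sum of the weights. -/
theorem sum_w0 (d : ℕ) : 2 * (∑ i : Fin d, (w0 d i : ℤ)) = d * (3 * d - 1) := by
  have h : (∑ i : Fin d, (w0 d i : ℤ)) = d * d + ∑ i ∈ Finset.range d, (i : ℤ) := by
    simp only [w0]
    rw [Finset.sum_range]
    push_cast
    rw [Finset.sum_add_distrib]
    simp
  have h2 : 2 * (∑ i ∈ Finset.range d, (i : ℤ)) = d * (d - 1) := by
    clear h
    induction d with
    | zero => simp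
    | succ n ih =>
      rw [Finset.sum_range_succ, mul_add, ih]
      push_cast
      ring
  rw [h, mul_add, h2]
  ring

/-- The isolated valuation of a nilpotent derivation. -/
theorem exists_bad [CharZero k] {p : SmoothPoint k K d} (hd : 1 ≤ d) {D : Derivation k K K}
    (h1 : ∀ f ∈ p.ring, D f ∈ filt p (w1 d) 1) {N : ℕ}
    (h2 : ∀ f ∈ p.ring, (⇑D)^[N] f ∈ filt p (w1 d) 2) (h0 : D ≠ 0) :
    ∃ v : AddValuation K (WithTop ℤ), IsDivisor p v ∧ ∃ m a : ℤ, OrdAlong v D m ∧ Disc p v a ∧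
      1 ≤ m - eps v D m ∧ 2 * (a + 1) ≤ d * (3 * d - 1) := by
  obtain ⟨p', hring, ⟨c, hc, hjac⟩, hcoord, hmem⟩ := exists_adapted p h1 h2
  have hw : ∀ i, 1 ≤ w0 d i := fun i => by simp only [w0]; omega
  obtain ⟨v, hv⟩ := exists_val p' hw
  have hfilt : ∀ (n : ℕ) (f : K), f ∈ filt p' (w0 d) n → D f ∈ filt p' (w0 d) (n + 1) :=
    fun n f hf => filt_deriv p' hmem hcoord hf
  have hone : ∀ f : K, v f + 1 ≤ v (D f) := hv.deriv hw hfilt
  have hdiv' : IsDivisor p' v := hv.isDivisor hd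
  have hdiv : IsDivisor p v := ⟨fun f hf => hdiv'.nonneg f (hring ▸ hf), hdiv'.surj, hdiv'.trdeg⟩
  have hone' : ∀ f : K, v f + ((1 : ℤ) : WithTop ℤ) ≤ v (D f) := fun f => by
    simpa using hone f
  obtain ⟨m, hm⟩ := exists_ord_along h0 hone'
  have hvc : v (algebraMap k K c) = 0 := by
    have e1 : 0 ≤ v (algebraMap k K c) := hdiv.nonneg _ (Subalgebra.algebraMap_mem _ _)
    have e2 : 0 ≤ v (algebraMap k K c⁻¹) := hdiv.nonneg _ (Subalgebra.algebraMap_mem _ _)
    have e3 : v (algebraMap k K c) + v (algebraMap k K c⁻¹) = 0 := by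
      rw [← AddValuation.map_mul, ← map_mul, mul_inv_cancel₀ hc, map_one, AddValuation.map_one]
    refine le_antisymm ?_ e1
    calc v (algebraMap k K c) ≤ v (algebraMap k K c) + v (algebraMap k K c⁻¹) :=
          le_add_of_nonneg_right e2
      _ = 0 := e3
  have hb : ∀ f : Fin d → K, (∀ j, 0 ≤ v (f j)) →
      ((-((∑ i, (w0 d i : ℤ)) - 1) : ℤ) : WithTop ℤ) ≤ v (jac p f) := by
    intro f hf
    have := hv.jac hw hd hf
    rwa [hjac, AddValuation.map_mul, hvc, zero_add] at this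
  obtain ⟨a, ha1, ha⟩ := exists_disc hdiv.nonneg hb
  refine ⟨v, hdiv, m, a, hm, ha, le_of_ge hm hone', ?_⟩
  have := sum_w0 d
  omega

/-- The key equivalence. -/
theorem lc_iff {m a e : ℤ} {t : ℝ} :
    t * m - (1 - t) * a ≤ t * e + (1 - t) ↔ t * (m - e : ℤ) ≤ (1 - t) * (a + 1 : ℤ) := by
  push_cast
  constructor <;> intro h <;> nlinarith

/-- A nilpotent derivation is not log canonical above the threshold. -/
theorem le_thr [CharZero k] {p : SmoothPoint k K d} (hd : 1 ≤ d) {D : Derivation k K K}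
    (h1 : ∀ f ∈ p.ring, D f ∈ filt p (w1 d) 1) {N : ℕ}
    (h2 : ∀ f ∈ p.ring, (⇑D)^[N] f ∈ filt p (w1 d) 2) (h0 : D ≠ 0) {t : ℝ} (ht0 : 0 ≤ t)
    (ht1 : t ≤ 1) (h : Lc p D t) : t ≤ thr d := by
  obtain ⟨v, hv, m, a, hm, ha, hme, hA⟩ := exists_bad hd h1 h2 h0
  have h3 := lc_iff.1 (h v hv m a hm ha)
  have h4 : (1 : ℝ) ≤ (m - eps v D m : ℤ) := by exact_mod_cast hme
  have h5 : (2 : ℝ) * (a + 1 : ℤ) ≤ d * (3 * d - 1) := by exact_mod_cast hA
  have hd' : (1 : ℝ) ≤ d := by exact_mod_cast hd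
  have h6 : t ≤ t * (m - eps v D m : ℤ) := by nlinarith
  have h7 : (1 - t) * (a + 1 : ℤ) ≤ (1 - t) * (d * (3 * d - 1) / 2) := by
    apply mul_le_mul_of_nonneg_left _ (by linarith)
    linarith
  have hpos : (0 : ℝ) < d * (3 * d - 1) + 2 := by nlinarith
  rw [thr, le_div_iff₀ hpos]
  nlinarith

/-- The gap: a foliation which is log canonical for one `t` above the threshold is log canonical,
for all `s`. -/
theorem gap [CharZero k] {p : SmoothPoint k K d} (hd : 1 ≤ d) {D : Derivation k K K} (h0 : D ≠ 0)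
    (hD : ∀ f ∈ p.ring, D f ∈ p.ring) {t : ℝ} (ht1 : t ≤ 1) (htd : thr d < t) (h : Lc p D t)
    {s : ℝ} (hs0 : 0 ≤ s) (hs1 : s ≤ 1) : Lc p D s := by
  intro v hv m a hm ha
  rw [lc_iff]
  have ha0 : 0 ≤ a := disc_nonneg hv.nonneg ha.1
  by_cases hme : 1 ≤ m - eps v D m
  · exfalso
    have h1 : ∀ f : K, v f + 1 ≤ v (D f) := fun f => by
      refine le_trans ?_ (ge_of_ord hv.surj hm f)
      gcongr
      exact_mod_cast hme
    obtain ⟨h2, N, h3⟩ := nil_of_div hD hv ha h1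
    have ht0 : 0 ≤ t := by
      refine le_trans ?_ htd.le
      have hd' : (1 : ℝ) ≤ d := by exact_mod_cast hd
      have hpos : (0 : ℝ) < d * (3 * d - 1) + 2 := by nlinarith
      have hpos' : (0 : ℝ) ≤ d * (3 * d - 1) := by nlinarith
      exact div_nonneg hpos' hpos.le
    exact absurd (le_thr hd h2 h3 h0 ht0 ht1 h) (not_le.2 htd)
  · have h1 : ((m - eps v D m : ℤ) : ℝ) ≤ 0 := by exact_mod_cast (by omega : m - eps v D m ≤ 0)
    have h2 : (0 : ℝ) ≤ (a + 1 : ℤ) := by exact_mod_cast (by omega : 0 ≤ a + 1)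
    calc s * (m - eps v D m : ℤ) ≤ 0 := mul_nonpos_of_nonneg_of_nonpos hs0 h1
      _ ≤ (1 - s) * (a + 1 : ℤ) := mul_nonneg (by linarith) h2

/-- The extremal derivation. -/
theorem shift_lc_iff [CharZero k] (p : SmoothPoint k K d) (hd : 1 ≤ d) {t : ℝ} (ht0 : 0 ≤ t)
    (ht1 : t ≤ 1) : Lc p (shift p) t ↔ t ≤ thr d := by
  have hd' : (1 : ℝ) ≤ d := by exact_mod_cast hd
  have hpos : (0 : ℝ) < d * (3 * d - 1) + 2 := by nlinarith
  constructor
  · intro h
    obtain ⟨h1, N, h2⟩ := shift_nil p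
    exact le_thr hd h1 h2 (shift_ne_zero p hd) ht0 ht1 h
  · intro ht v hv m a hm ha
    rw [lc_iff]
    rw [thr, le_div_iff₀ hpos] at ht
    have ha0 : 0 ≤ a := disc_nonneg hv.nonneg ha.1
    obtain ⟨n, hn⟩ := exists_int_val p v
    have hsum : ∑ i, n i ≤ a + 1 := sum_le_disc hv.surj ha.1 hn
    have hval := fun i => shift_val p (c := m - eps v (shift p) m) (ge_of_ord hv.surj hm) hn i
    set c : ℤ := m - eps v (shift p) m with hc
    have h1 : (∑ i : Fin d, (w0 d i : ℤ)) * c ≤ a + 1 := by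
      refine le_trans ?_ hsum
      rw [Finset.sum_mul]
      refine Finset.sum_le_sum fun i _ => ?_
      have := hval i
      simp only [w0]
      push_cast
      exact this
    have h2 : (d * (3 * d - 1) : ℤ) * c ≤ 2 * (a + 1) := by
      have := sum_w0 d
      rw [← this]
      linarith
    have h3 : (d * (3 * d - 1) : ℝ) * c ≤ 2 * (a + 1 : ℤ) := by exact_mod_cast h2
    have h4 : (0 : ℝ) ≤ (a + 1 : ℤ) := by exact_mod_cast (by omega : 0 ≤ a + 1)
    rcases le_or_gt c 0 with hc0 | hc0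
    · have h1 : (c : ℝ) ≤ 0 := by exact_mod_cast hc0
      calc t * (c : ℝ) ≤ 0 := mul_nonpos_of_nonneg_of_nonpos ht0 h1
        _ ≤ (1 - t) * (a + 1 : ℤ) := mul_nonneg (by linarith) h4
    · have h5 : (0 : ℝ) < c := by exact_mod_cast hc0
      have h6 : 2 * t ≤ (1 - t) * (d * (3 * d - 1)) := by nlinarith
      have h7 : 2 * t * c ≤ (1 - t) * (d * (3 * d - 1)) * c :=
        mul_le_mul_of_nonneg_right h6 h5.le
      have h8 : (1 - t) * ((d * (3 * d - 1)) * c) ≤ (1 - t) * (2 * (a + 1 : ℤ)) :=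
        mul_le_mul_of_nonneg_left h3 (by linarith)
      nlinarith

theorem thr_nonneg (hd : 1 ≤ d) : 0 ≤ thr d := by
  have hd' : (1 : ℝ) ≤ d := by exact_mod_cast hd
  have hpos : (0 : ℝ) < d * (3 * d - 1) + 2 := by nlinarith
  have hpos' : (0 : ℝ) ≤ d * (3 * d - 1) := by nlinarith
  exact div_nonneg hpos' hpos.le

theorem thr_lt_one (hd : 1 ≤ d) : thr d < 1 := by
  have hd' : (1 : ℝ) ≤ d := by exact_mod_cast hd
  have hpos : (0 : ℝ) < d * (3 * d - 1) + 2 := by nlinarith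
  rw [thr, div_lt_one hpos]
  linarith

/-- The interpolated log canonical threshold is `1` or at most the threshold. -/
theorem ilct_gap [CharZero k] {p : SmoothPoint k K d} (hd : 1 ≤ d) {D : Derivation k K K}
    (h0 : D ≠ 0) (hD : ∀ f ∈ p.ring, D f ∈ p.ring) : ilct p D = 1 ∨ ilct p D ≤ thr d := by
  by_cases h : ∃ t : ℝ, t ≤ 1 ∧ thr d < t ∧ Lc p D t
  · left
    obtain ⟨t, ht1, htd, ht⟩ := h
    have h1 : Lc p D 1 := gap hd h0 hD ht1 htd ht zero_le_one le_rfl
    refine le_antisymm ?_ ?_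
    · exact csSup_le ⟨1, zero_le_one, le_rfl, h1⟩ fun s hs => hs.2.1
    · exact le_csSup ⟨1, fun s hs => hs.2.1⟩ ⟨zero_le_one, le_rfl, h1⟩
  · right
    push Not at h
    refine Real.sSup_le ?_ (thr_nonneg hd)
    intro s hs
    by_contra hlt
    exact h s hs.2.1 (not_le.1 hlt) hs.2.2

/-- The interpolated log canonical threshold of the extremal derivation. -/
theorem ilct_shift [CharZero k] (p : SmoothPoint k K d) (hd : 1 ≤ d) :
    ilct p (shift p) = thr d := by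
  have h : Lc p (shift p) (thr d) :=
    (shift_lc_iff p hd (thr_nonneg hd) (thr_lt_one hd).le).2 le_rfl
  refine le_antisymm ?_ ?_
  · refine csSup_le ⟨thr d, thr_nonneg hd, (thr_lt_one hd).le, h⟩ fun s hs => ?_
    exact (shift_lc_iff p hd hs.1 hs.2.1).1 hs.2.2
  · exact le_csSup ⟨1, fun s hs => hs.2.1⟩ ⟨thr_nonneg hd, (thr_lt_one hd).le, h⟩

end Pool.Agent.FolGap
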