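import Pool.Agent.FolGap.Hom
import Pool.Agent.FolGap.Coords

/-!
# Straightening a nonsingular derivation up to a given order

PROOF. (1) There is `i₀` with `∂_(i₀) x` not in the maximal ideal `m`: otherwise (write
`x = ∑ a_j z_j`, `∂_i x = a_i + ∑ z_j ∂_i a_j`) all `a_j ∈ m`, and
`D x = ∑ a_j D z_j + z_j D a_j ∈ m`, but `D x = 1`. (2) For `i ≠ i₀` put
`y_i = ∑_(n < N) ((-x) ^ n / n!) D^[n] z_i`, and `y_(i₀) = x`. The terms with `1 ≤ n` have the factor
`x`, so `y_i ∈ m`. `D y_i = ((-x) ^ (N - 1) / (N - 1)!) D^[N] z_i` by telescoping (`D x = 1`;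
induction on `N`). (3) The Jacobian is a unit: modulo `m`, with `λ_i = D z_i`,
`∂_j y_i ≡ δ_(j i) - λ_i ∂_j x` for `i ≠ i₀` if `N ≥ 2` (the terms with `n ≥ 2` and the derivatives of
`D z_i` have a factor `x`), and `≡ δ_(j i)` if `N = 1`; the column `i₀` is `∂_j x`. Adding multiples
of column `i₀` to the other columns (`Matrix.det_updateCol_add_smul_self`-type lemmas, or map the
matrix to the residue field, and multiply by a matrix) one gets the identity matrix with column
`i₀` replaced by `∂_j x`, which has the determinant `∂_(i₀) x` (`Matrix.cramer_one`,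
`Matrix.cramer_apply`; `Matrix.det_succ...`). So the Jacobian is `≡ ∂_(i₀) x` mod `m`, a unit `u⁻¹`.
(4) `exists_coords`.
-/

set_option autoImplicit false

noncomputable section

namespace Pool.Agent.FolGap

open IsLocalRing

/-! ### Derivations of a commutative ring -/

section Abstract

variable {k R : Type} [Field k] [CommRing R] [Algebra k R]

private theorem term_der (E : Derivation k R R) (c : k) (x g : R) (n : ℕ) :
    E (algebraMap k R c * (-x) ^ (n + 1) * g) =
      algebraMap k R c * (-x) ^ (n + 1) * E g -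
        algebraMap k R c * ((n + 1 : ℕ) : R) * (-x) ^ n * g * E x := by
  rw [Derivation.leibniz, Derivation.leibniz, Derivation.map_algebraMap, Derivation.leibniz_pow,
    map_neg, Nat.add_sub_cancel]
  simp only [smul_eq_mul, nsmul_eq_mul]
  ring

/-- The sum of the `(-x) ^ n / n! * D^[n] z` for `n < N`. -/
private def YY (D : Derivation k R R) (x z : R) (N : ℕ) : R :=
  ∑ n ∈ Finset.range N, algebraMap k R ((n.factorial : k)⁻¹) * (-x) ^ n * D^[n] z

private theorem YY_one (D : Derivation k R R) (x z : R) : YY D x z 1 = z := by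
  unfold YY
  simp

private theorem YY_succ (D : Derivation k R R) (x z : R) (N : ℕ) :
    YY D x z (N + 1) = YY D x z N +
      algebraMap k R ((N.factorial : k)⁻¹) * (-x) ^ N * D^[N] z :=
  Finset.sum_range_succ _ _

private theorem D_YY [CharZero k] (D : Derivation k R R) {x : R} (hx : D x = 1) (z : R) (N : ℕ) :
    D (YY D x z (N + 1)) =
      algebraMap k R ((N.factorial : k)⁻¹) * (-x) ^ N * D^[N + 1] z := by
  induction N with
  | zero =>
    rw [YY_one]
    simp
  | succ N ih =>
    have hc : algebraMap k R (((N + 1).factorial : k)⁻¹) * ((N + 1 : ℕ) : R) =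
        algebraMap k R ((N.factorial : k)⁻¹) := by
      have h1 : ((N + 1 : ℕ) : R) = algebraMap k R ((N + 1 : ℕ) : k) := (map_natCast _ _).symm
      rw [h1, ← map_mul]
      congr 1
      have h2 : ((N + 1 : ℕ) : k) ≠ 0 := Nat.cast_ne_zero.2 (Nat.succ_ne_zero N)
      have h3 : (N.factorial : k) ≠ 0 := Nat.cast_ne_zero.2 N.factorial_ne_zero
      rw [Nat.factorial_succ, Nat.cast_mul]
      field_simp
    rw [YY_succ, map_add, ih, term_der, hx, hc, ← Function.iterate_succ_apply' D (N + 1)]
    ring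

variable [IsLocalRing R]

private theorem res_pow_zero {x : R} (hx : x ∈ maximalIdeal R) (n : ℕ) :
    residue R ((-x) ^ (n + 1)) = 0 := by
  rw [residue_eq_zero_iff]
  exact Ideal.pow_mem_of_mem _ (neg_mem hx) _ (Nat.succ_pos n)

private theorem res_YY (D : Derivation k R R) {x : R} (hx : x ∈ maximalIdeal R) (z : R) (N : ℕ) :
    residue R (YY D x z (N + 1)) = residue R z := by
  induction N with
  | zero => rw [YY_one]
  | succ N ih => rw [YY_succ, map_add, ih, map_mul, map_mul, res_pow_zero hx, mul_zero, zero_mul,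
      add_zero]

private theorem res_der_YY (D : Derivation k R R) {x : R} (hx : x ∈ maximalIdeal R) (z : R)
    (N : ℕ) : ∃ t : ResidueField R, ∀ E : Derivation k R R,
      residue R (E (YY D x z (N + 1))) = residue R (E z) + residue R (E x) * t := by
  induction N with
  | zero => exact ⟨0, fun E => by rw [YY_one, mul_zero, add_zero]⟩
  | succ N ih =>
    obtain ⟨t, ht⟩ := ih
    refine ⟨t - residue R (algebraMap k R (((N + 1).factorial : k)⁻¹) * ((N + 1 : ℕ) : R) *
      (-x) ^ N * D^[N + 1] z), fun E => ?_⟩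
    rw [YY_succ, map_add, map_add, ht, term_der, map_sub, map_mul (residue R) _ (E x),
      map_mul (residue R) _ (E (D^[N + 1] z)), map_mul (residue R) _ ((-x) ^ (N + 1)),
      res_pow_zero hx]
    ring

end Abstract

private theorem straight_det {κ : Type} [Field κ] {d : ℕ} (M : Matrix (Fin d) (Fin d) κ)
    (v t : Fin d → κ) (i₀ : Fin d) (hv : v i₀ ≠ 0) (h0 : ∀ i, M i i₀ = v i)
    (h1 : ∀ i j, j ≠ i₀ → M i j = (if i = j then 1 else 0) + v i * t j) : M.det ≠ 0 := by
  intro hdet
  obtain ⟨w, hw, hwM⟩ := Matrix.exists_vecMul_eq_zero_iff.2 hdet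
  have hj : ∀ j, ∑ i, w i * M i j = 0 := fun j => congrFun hwM j
  have ha : ∑ i, w i * v i = 0 := by
    rw [← hj i₀]
    exact Finset.sum_congr rfl fun i _ => by rw [h0]
  have hb : ∀ j, j ≠ i₀ → w j = 0 := by
    intro j hji
    have h2 : ∑ i, w i * M i j = w j + (∑ i, w i * v i) * t j := by
      rw [Finset.sum_mul]
      calc ∑ i, w i * M i j = ∑ i, ((if i = j then w i else 0) + w i * v i * t j) := by
            refine Finset.sum_congr rfl fun i _ => ?_
            rw [h1 i j hji]
            split_ifs <;> ring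
        _ = _ := by
            rw [Finset.sum_add_distrib, Finset.sum_ite_eq' Finset.univ j w,
              if_pos (Finset.mem_univ j)]
    rw [hj, ha, zero_mul, add_zero] at h2
    exact h2.symm
  have hc : w i₀ = 0 := by
    rw [Finset.sum_eq_single i₀ (fun i _ hi => by rw [hb i hi, zero_mul])
      (fun h => absurd (Finset.mem_univ i₀) h)] at ha
    exact (mul_eq_zero.1 ha).resolve_right hv
  refine hw (funext fun j => ?_)
  by_cases hji : j = i₀
  · rw [hji, hc]
    rfl
  · exact hb j hji

variable {k K : Type} [Field k] [Field K] [Algebra k K] {d : ℕ}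

/-- The restriction of a derivation to the local ring. -/
private def rst (p : SmoothPoint k K d) (E : Derivation k K K) (hE : ∀ f ∈ p.ring, E f ∈ p.ring) :
    Derivation k p.ring p.ring :=
  Derivation.mk' { toFun := fun f => ⟨E f, hE f f.2⟩
                   map_add' := fun f g => Subtype.ext (map_add E (f : K) g)
                   map_smul' := fun c f => Subtype.ext (E.map_smul c (f : K)) }
    fun f g => Subtype.ext (E.leibniz (f : K) g)

private theorem res_lin (p : SmoothPoint k K d) (E : Derivation k p.ring p.ring)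
    {a : Fin d → p.ring} {x : p.ring} (hx : ∑ j, a j * p.coord j = x) :
    residue p.ring (E x) = ∑ j, residue p.ring (a j) * residue p.ring (E (p.coord j)) := by
  rw [← hx, map_sum, map_sum]
  refine Finset.sum_congr rfl fun j _ => ?_
  have h1 : residue p.ring (p.coord j) = 0 := by
    rw [residue_eq_zero_iff, ← p.span_coord]
    exact Ideal.subset_span ⟨j, rfl⟩
  rw [Derivation.leibniz, smul_eq_mul, smul_eq_mul, map_add, map_mul, map_mul, h1, zero_mul,
    add_zero]

theorem exists_straight [CharZero k] (p : SmoothPoint k K d) {D : Derivation k K K}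
    (hD : ∀ f ∈ p.ring, D f ∈ p.ring) {x : p.ring} (hx : x ∈ maximalIdeal p.ring)
    (h1 : D (x : K) = 1) {N : ℕ} (hN : 1 ≤ N) :
    ∃ (p' : SmoothPoint k K d) (i₀ : Fin d) (u : K), p'.ring = p.ring ∧ u ∈ p.ring ∧ u ≠ 0 ∧
      u⁻¹ ∈ p.ring ∧ (∀ f : Fin d → K, jac p' f = u * jac p f) ∧ zz p' i₀ = x ∧
      ∀ i, i ≠ i₀ → ∃ g ∈ p.ring, D (zz p' i) = (x : K) ^ (N - 1) * g := by
  obtain ⟨n, rfl⟩ : ∃ n, N = n + 1 := ⟨N - 1, by omega⟩
  obtain ⟨DR, hDR⟩ : ∃ DR, DR = rst p D hD := ⟨_, rfl⟩
  obtain ⟨dR, hdR⟩ : ∃ dR : Fin d → Derivation k p.ring p.ring, dR = fun i =>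
    rst p (p.der i) fun f hf => p.der_mem i ⟨f, hf⟩ := ⟨_, rfl⟩
  have hdz : ∀ i j, dR i (p.coord j) = if i = j then 1 else 0 := by
    intro i j
    refine Subtype.ext ?_
    rw [hdR]
    refine (p.der_coord i j).trans ?_
    split_ifs <;> rfl
  have hDx : DR x = 1 := by
    refine Subtype.ext ?_
    rw [hDR]
    exact h1
  have hxs := hx
  rw [← p.span_coord, Ideal.mem_span_range_iff_exists_fun] at hxs
  obtain ⟨a, ha⟩ := hxs
  have hdx : ∀ i, residue p.ring (dR i x) = residue p.ring (a i) := by
    intro i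
    rw [res_lin p (dR i) ha, Finset.sum_eq_single i]
    · rw [hdz, if_pos rfl, map_one, mul_one]
    · intro j _ hj
      rw [hdz, if_neg (Ne.symm hj), map_zero, mul_zero]
    · intro h
      exact absurd (Finset.mem_univ i) h
  obtain ⟨i₀, hi₀⟩ : ∃ i₀, residue p.ring (dR i₀ x) ≠ 0 := by
    by_contra hc
    push Not at hc
    have h2 := res_lin p DR ha
    rw [hDx, map_one, Finset.sum_eq_zero fun j _ => by rw [← hdx, hc, zero_mul]] at h2
    exact one_ne_zero h2
  obtain ⟨y, hy⟩ : ∃ y : Fin d → p.ring, y = fun j =>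
    if j = i₀ then x else YY DR x (p.coord j) (n + 1) := ⟨_, rfl⟩
  have hy0 : y i₀ = x := by rw [hy]; exact if_pos rfl
  have hy1 : ∀ j, j ≠ i₀ → y j = YY DR x (p.coord j) (n + 1) := by
    intro j hj
    rw [hy]
    exact if_neg hj
  have hym : ∀ j, y j ∈ maximalIdeal p.ring := by
    intro j
    by_cases hj : j = i₀
    · rw [hj, hy0]
      exact hx
    · rw [hy1 j hj, ← residue_eq_zero_iff, res_YY DR hx, residue_eq_zero_iff, ← p.span_coord]
      exact Ideal.subset_span ⟨j, rfl⟩
  choose t ht using fun j => res_der_YY DR hx (p.coord j) n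
  obtain ⟨MR, hMR⟩ : ∃ MR : Matrix (Fin d) (Fin d) p.ring, MR = Matrix.of fun i j => dR i (y j) :=
    ⟨_, rfl⟩
  have hdet : residue p.ring MR.det ≠ 0 := by
    rw [RingHom.map_det]
    refine straight_det _ (fun i => residue p.ring (dR i x)) t i₀ hi₀ (fun i => ?_)
      fun i j hj => ?_
    · rw [hMR]
      show residue p.ring (dR i (y i₀)) = _
      rw [hy0]
    · rw [hMR]
      show residue p.ring (dR i (y j)) = _
      rw [hy1 j hj, ht, hdz]
      congr 1
      split_ifs
      · exact map_one _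
      · exact map_zero _
  rw [residue_ne_zero_iff_isUnit] at hdet
  obtain ⟨u, hu⟩ := hdet.exists_right_inv
  have hjac : jac p (fun j => (y j : K)) = ((MR.det : p.ring) : K) := by
    have h2 := p.ring.val.map_det MR
    rw [hMR] at h2
    rw [hMR]
    refine Eq.trans ?_ h2.symm
    unfold jac
    congr 1
    ext i j
    rw [hdR]
    rfl
  have hu' : ((MR.det : p.ring) : K) * (u : K) = 1 := congrArg Subtype.val hu
  have hu0 : (u : K) ≠ 0 := by
    intro h2
    rw [h2, mul_zero] at hu'
    exact zero_ne_one hu'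
  obtain ⟨p', hp', hco, hj'⟩ := exists_coords p y hym (u := (u : K)) u.2 (by rw [hjac, hu'])
  refine ⟨p', i₀, u, hp', u.2, hu0, ?_, hj', ?_, fun i hi => ?_⟩
  · rw [← eq_inv_of_mul_eq_one_left hu']
    exact MR.det.2
  · unfold zz
    rw [hco, hy0]
  · refine ⟨((algebraMap k p.ring ((n.factorial : k)⁻¹) * (-1) ^ n *
      DR^[n + 1] (p.coord i) : p.ring) : K), Subtype.property _, ?_⟩
    have h2 : D (zz p' i) = ((DR (YY DR x (p.coord i) (n + 1)) : p.ring) : K) := by
      unfold zz
      rw [hco, hy1 i hi, hDR]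
      rfl
    rw [h2, D_YY DR hDx, Nat.add_sub_cancel]
    have h3 : (algebraMap k p.ring ((n.factorial : k)⁻¹) * (-x) ^ n *
        DR^[n + 1] (p.coord i) : p.ring) = x ^ n * (algebraMap k p.ring ((n.factorial : k)⁻¹) *
        (-1) ^ n * DR^[n + 1] (p.coord i)) := by
      rw [neg_pow]
      ring
    rw [h3]
    rfl

end Pool.Agent.FolGap
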