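import Pool.Agent.FolGap.Filt4

/-!
# The order of contact with the leaf and the monomial filtration

PROOF of `mem_filt_of_iter`. All weights are at least `1` (`N ≥ 1`). Suppose that `f` is not in
`filt n`. Then `f ≠ 0`, and `f` has an order `l < n ≤ N` (`exists_ord`, `filt_anti`). By
`filt_res` there is `P`, weighted homogeneous of weight `l`, with `f - P (z) ∈ filt (l + 1)`. A
monomial of weight `l < N` is a power of the variable `i₀`, so `P = c X_(i₀) ^ l`, and `c ≠ 0`
because `f ∉ filt (l + 1)`. By `filt_deriv_sub` with `r = 1` (`D z_(i₀) = 1 ∈ filt 0`, `D z_i ∈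
filt (N - 1)` for `i ≠ i₀`, as `z_(i₀) ^ (N - 1) ∈ filt (N - 1)`), `D^[l] (f - P (z)) ∈ filt 1`,
and `D^[l] (c z_(i₀) ^ l) = c l!`. So `D^[l] f ∈ c l! + filt 1`. As `D^[l] f ∈ filt w1 1` (`l <
n`), which is the maximal ideal, as is `filt 1` (`filt_one_iff`), `c l!` is in the maximal ideal,
a contradiction.
-/

set_option autoImplicit false

noncomputable section

namespace Pool.Agent.FolGap

open IsLocalRing

variable {k K : Type} [Field k] [Field K] [Algebra k K] {d : ℕ}

/-- The weight is `1` for the index `i₀`, and `N` for all other indices. -/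
def wN (N : ℕ) (i₀ : Fin d) (i : Fin d) : ℕ := if i = i₀ then 1 else N

private theorem wN_self_Trunc (N : ℕ) (i₀ : Fin d) : wN N i₀ i₀ = 1 := if_pos rfl

private theorem wN_ne_Trunc (N : ℕ) {i₀ i : Fin d} (h : i ≠ i₀) : wN N i₀ i = N := if_neg h

private theorem wN_pos_Trunc {N : ℕ} (hN : 1 ≤ N) (i₀ i : Fin d) : 1 ≤ wN N i₀ i := by
  unfold wN
  split_ifs
  · exact le_rfl
  · exact hN

theorem sum_wN (N : ℕ) (i₀ : Fin d) : ∑ i, (wN N i₀ i : ℤ) = 1 + (d - 1) * N := by
  rw [← Finset.add_sum_erase _ _ (Finset.mem_univ i₀)]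
  have h1 : ∀ i ∈ Finset.univ.erase i₀, (wN N i₀ i : ℤ) = N := fun i hi => by
    rw [wN_ne_Trunc N (Finset.ne_of_mem_erase hi)]
  have h2 : 1 ≤ d := i₀.pos
  rw [Finset.sum_congr rfl h1, Finset.sum_const, Finset.card_erase_of_mem (Finset.mem_univ _),
    Finset.card_univ, Fintype.card_fin, wN_self_Trunc, nsmul_eq_mul, Nat.cast_sub h2]
  push_cast
  ring

theorem filt_deriv_wN {p : SmoothPoint k K d} {D : Derivation k K K}
    (hD : ∀ f ∈ p.ring, D f ∈ p.ring) {i₀ : Fin d} {N : ℕ} (hN : 1 ≤ N) (h0 : D (zz p i₀) = 1)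
    (hz : ∀ i, i ≠ i₀ → ∃ g ∈ p.ring, D (zz p i) = zz p i₀ ^ (N - 1) * g)
    (n : ℕ) (f : K) (hf : f ∈ filt p (wN N i₀) n) : D f ∈ filt p (wN N i₀) (n - 1) := by
  have _ := hN
  refine filt_deriv_sub p hD (fun i => ?_) hf
  by_cases hi : i = i₀
  · subst hi
    rw [h0, wN_self_Trunc]
    exact mem_filt_zero _ (one_mem _)
  · obtain ⟨g, hg, hz'⟩ := hz i hi
    rw [wN_ne_Trunc N hi, hz']
    have h1 : ∀ m : ℕ, zz p i₀ ^ m ∈ filt p (wN N i₀) m := by
      intro m
      induction m with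
      | zero =>
        rw [pow_zero]
        exact mem_filt_zero _ (one_mem _)
      | succ m ih =>
        have h2 := filt_mul ih (coord_mem_filt p (wN N i₀) i₀)
        rw [wN_self_Trunc, ← pow_succ] at h2
        exact h2
    have h2 := filt_mul (h1 (N - 1)) (mem_filt_zero (wN N i₀) hg)
    rw [add_zero] at h2
    exact h2

private theorem hom_wN_Trunc {N : ℕ} {i₀ : Fin d} {l : ℕ} (hl : l < N)
    {P : MvPolynomial (Fin d) k} (hP : P.IsWeightedHomogeneous (wN N i₀) l) :
    P = MvPolynomial.monomial (Finsupp.single i₀ l)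
      (MvPolynomial.coeff (Finsupp.single i₀ l) P) := by
  ext m
  rw [MvPolynomial.coeff_monomial]
  split_ifs with hm
  · rw [← hm]
  · by_contra h0
    have h1 := hP h0
    have h2 : ∀ i, i ≠ i₀ → m i = 0 := by
      intro i hi
      by_contra h3
      have h4 := Finsupp.le_weight_of_ne_zero' (wN N i₀) h3
      rw [h1, wN_ne_Trunc N hi] at h4
      omega
    have h3 : m = Finsupp.single i₀ (m i₀) := by
      ext i
      by_cases hi : i = i₀
      · subst hi
        rw [Finsupp.single_eq_same]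
      · rw [Finsupp.single_eq_of_ne hi, h2 i hi]
    rw [h3, Finsupp.weight_single, wN_self_Trunc, smul_eq_mul, mul_one] at h1
    rw [h1] at h3
    exact hm h3.symm

private theorem iter_Trunc {p : SmoothPoint k K d} {D : Derivation k K K} {w : Fin d → ℕ}
    {z f : K} {c : k} {l : ℕ} (hD : ∀ (n : ℕ) (f : K), f ∈ filt p w n → D f ∈ filt p w (n - 1))
    (h0 : D z = 1) (hf : f - algebraMap k K c * z ^ l ∈ filt p w (l + 1)) (j : ℕ) (hj : j ≤ l) :
    (⇑D)^[j] f - algebraMap k K c * (l.descFactorial j : K) * z ^ (l - j) ∈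
      filt p w (l + 1 - j) := by
  induction j with
  | zero =>
    rw [Nat.descFactorial_zero, Nat.cast_one, mul_one]
    exact hf
  | succ j ih =>
    have h1 := hD _ _ (ih (by omega))
    have h2 : l + 1 - j - 1 = l + 1 - (j + 1) := by omega
    rw [h2] at h1
    have h3 : D ((⇑D)^[j] f - algebraMap k K c * (l.descFactorial j : K) * z ^ (l - j)) =
        (⇑D)^[j + 1] f - algebraMap k K c * (l.descFactorial (j + 1) : K) *
          z ^ (l - (j + 1)) := by
      have h4 : l - (j + 1) = l - j - 1 := by omega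
      rw [map_sub, Function.iterate_succ_apply', Derivation.leibniz, Derivation.leibniz,
        Derivation.leibniz_pow, Derivation.map_algebraMap, Derivation.map_natCast, h0, h4,
        Nat.descFactorial_succ]
      simp only [smul_eq_mul, nsmul_eq_mul, mul_zero, mul_one, add_zero]
      push_cast
      ring
    rwa [h3] at h1

theorem mem_filt_of_iter [CharZero k] {p : SmoothPoint k K d} {D : Derivation k K K}
    (hD : ∀ f ∈ p.ring, D f ∈ p.ring) {i₀ : Fin d} {N : ℕ} (hN : 1 ≤ N) (h0 : D (zz p i₀) = 1)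
    (hz : ∀ i, i ≠ i₀ → ∃ g ∈ p.ring, D (zz p i) = zz p i₀ ^ (N - 1) * g)
    {n : ℕ} (hn : n ≤ N) {f : K} (hf : f ∈ p.ring)
    (h : ∀ i < n, (⇑D)^[i] f ∈ filt p (w1 d) 1) : f ∈ filt p (wN N i₀) n := by
  by_contra hc
  have hw := wN_pos_Trunc hN i₀
  have hf0 : f ≠ 0 := by
    rintro rfl
    exact hc (zero_mem _)
  obtain ⟨l, hl, hl'⟩ := exists_ord p hw hf hf0
  have hln : l < n := by
    by_contra hnl
    exact hc (filt_anti p _ (by omega) hl)
  obtain ⟨P, hP, hPf⟩ := filt_res p hw hl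
  have hmon := hom_wN_Trunc (by omega) hP
  obtain ⟨c, hcP⟩ : ∃ c : k, P = MvPolynomial.monomial (Finsupp.single i₀ l) c := ⟨_, hmon⟩
  have hae : MvPolynomial.aeval (zz p) P = algebraMap k K c * zz p i₀ ^ l := by
    have h1 : ((Finsupp.single i₀ l).prod fun i m => zz p i ^ m) = zz p i₀ ^ l :=
      Finsupp.prod_single_index (pow_zero _)
    rw [hcP, MvPolynomial.aeval_monomial, h1]
  rw [hae] at hPf
  have hc0 : c ≠ 0 := by
    rintro rfl
    rw [map_zero, zero_mul, sub_zero] at hPf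
    exact hl' hPf
  have h1 := iter_Trunc (filt_deriv_wN hD hN h0 hz) h0 hPf l le_rfl
  have e1 : l + 1 - l = 1 := by omega
  rw [Nat.sub_self, pow_zero, mul_one, Nat.descFactorial_self, e1] at h1
  have h2 := h l hln
  have h3 : (⇑D)^[l] f ∈ p.ring := filt_le h2
  have h4 : algebraMap k K c * (l.factorial : K) =
      ((algebraMap k p.ring (c * (l.factorial : k)) : p.ring) : K) := by
    have h5 : algebraMap k K (c * (l.factorial : k)) = algebraMap k K c * (l.factorial : K) := by
      rw [map_mul, map_natCast]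
    rw [← h5]
    rfl
  rw [h4] at h1
  have h5 : (⟨(⇑D)^[l] f, h3⟩ - algebraMap k p.ring (c * (l.factorial : k)) : p.ring) ∈
      maximalIdeal p.ring := (filt_one_iff p hw _).1 h1
  have h6 : (⟨(⇑D)^[l] f, h3⟩ : p.ring) ∈ maximalIdeal p.ring :=
    (filt_one_iff p (fun _ => le_rfl) _).1 h2
  have h7 : algebraMap k p.ring (c * (l.factorial : k)) ∈ maximalIdeal p.ring := by
    have h8 := sub_mem h6 h5
    rwa [sub_sub_cancel] at h8
  have h8 : IsUnit (algebraMap k p.ring (c * (l.factorial : k))) :=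
    (isUnit_iff_ne_zero.2 (mul_ne_zero hc0 (Nat.cast_ne_zero.2 l.factorial_ne_zero))).map
      (algebraMap k p.ring)
  exact (mem_maximalIdeal _).1 h7 h8

end Pool.Agent.FolGap
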