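import Pool.Agent.FolGap.Bdry
import Pool.Agent.FolGap.Main
import Pool.Agent.FolGap.Inv
import Pool.Agent.FolGap.Straight
import Pool.Agent.FolGap.Trunc
import Pool.Agent.FolGap.Dcc

/-!
# The gap at one for arbitrary coefficient sets with the descending chain condition
-/

set_option autoImplicit false

noncomputable section

namespace Pool.Agent.FolGap

open IsLocalRing

variable {k K : Type} [Field k] [Field K] [Algebra k K] {d : ℕ}

theorem mem_filt_one_iff {p : SmoothPoint k K d} {f : K} (hf : f ∈ p.ring) :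
    f ∈ filt p (w1 d) 1 ↔ f = 0 ∨ f⁻¹ ∉ p.ring := by
  have h := filt_one_iff p (w := w1 d) (fun _ => le_rfl) ⟨f, hf⟩
  change f ∈ filt p (w1 d) 1 ↔ _ at h
  rw [h, mem_maximalIdeal, mem_nonunits_iff]
  constructor
  · intro hu
    by_contra hcon
    push Not at hcon
    apply hu
    refine IsUnit.of_mul_eq_one (⟨f⁻¹, hcon.2⟩ : p.ring) ?_
    ext
    exact mul_inv_cancel₀ hcon.1
  · rintro h2 hu
    obtain ⟨g, hg⟩ := hu.exists_right_inv
    have hg' : f * (g : K) = 1 := congrArg Subtype.val hg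
    have hf0 : f ≠ 0 := left_ne_zero_of_mul_eq_one hg'
    rcases h2 with h2 | h2
    · exact hf0 h2
    · exact h2 (by rw [inv_eq_of_mul_eq_one_right hg']; exact g.2)

/-- The blow-up of the point. -/
theorem case_sing [CharZero k] {p : SmoothPoint k K d} (hd : 1 ≤ d) {D : Derivation k K K}
    (h0 : D ≠ 0) (hD1 : ∀ f ∈ p.ring, D f ∈ filt p (w1 d) 1) :
    ∃ v : AddValuation K (WithTop ℤ), IsDivisor p v ∧
      (∃ m a : ℤ, OrdAlong v D m ∧ Disc p v a ∧ 0 ≤ m - eps v D m ∧ a + 1 ≤ d) ∧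
      ∀ f ∈ filt p (w1 d) 1, ((1 : ℤ) : WithTop ℤ) ≤ v f := by
  have hw : ∀ i, 1 ≤ w1 d i := fun _ => le_rfl
  obtain ⟨v, hv⟩ := exists_val p hw
  have hfilt : ∀ (n : ℕ) (f : K), f ∈ filt p (w1 d) n → D f ∈ filt p (w1 d) (n - 0) :=
    fun n f hf => filt_deriv_sub p (r := 0) (fun f hf => filt_le (hD1 f hf))
      (fun i => hD1 _ (p.coord i).2) hf
  obtain ⟨h1, m, a, h2, h3, h4, h5⟩ := exists_inv (p := p) (p' := p) hd rfl (u := 1)
    (one_mem _) one_ne_zero (by rw [inv_one]; exact one_mem _) (fun f => (one_mul _).symm) hw hv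
    (i₁ := ⟨0, hd⟩) rfl h0 (hv.deriv_sub hw hfilt)
  refine ⟨v, h1, ⟨m, a, h2, h3, by simpa using h4, by simpa [w1] using h5⟩, fun f hf => ?_⟩
  exact hv.le hw hf

/-- The divisors with the weights `1, N, ..., N`. -/
theorem case_smooth [CharZero k] {p : SmoothPoint k K d} (hd : 1 ≤ d) {D : Derivation k K K}
    (h0 : D ≠ 0) (hD : ∀ f ∈ p.ring, D f ∈ p.ring) {x : p.ring} (hx : x ∈ maximalIdeal p.ring)
    (hDx0 : D (x : K) ≠ 0) (hDx : (D (x : K))⁻¹ ∈ p.ring) {N : ℕ} (hN : 1 ≤ N) :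
    ∃ v : AddValuation K (WithTop ℤ), IsDivisor p v ∧
      (∃ m a : ℤ, OrdAlong v D m ∧ Disc p v a ∧ -1 ≤ m - eps v D m ∧ a + 1 ≤ 1 + (d - 1) * N) ∧
      ∀ n ≤ N, ∀ f ∈ p.ring, (∀ i < n, (⇑((D (x : K))⁻¹ • D))^[i] f ∈ filt p (w1 d) 1) →
        ((n : ℤ) : WithTop ℤ) ≤ v f := by
  set D' : Derivation k K K := (D (x : K))⁻¹ • D with hD'def
  have hDx1 : D (x : K) ∈ p.ring := hD _ x.2
  have hD' : ∀ f ∈ p.ring, D' f ∈ p.ring := fun f hf => by
    rw [hD'def, Derivation.smul_apply, smul_eq_mul]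
    exact mul_mem hDx (hD f hf)
  have h1 : D' (x : K) = 1 := by
    rw [hD'def, Derivation.smul_apply, smul_eq_mul, inv_mul_cancel₀ hDx0]
  obtain ⟨p', i₀, u, hring, hu, hu0, hu', hjac, hx', hz⟩ := exists_straight p hD' hx h1 hN
  have hw : ∀ i, 1 ≤ wN N i₀ i := fun i => by
    unfold wN; split_ifs <;> omega
  obtain ⟨v, hv⟩ := exists_val p' hw
  have hD'' : ∀ f ∈ p'.ring, D' f ∈ p'.ring := by rw [hring]; exact hD'
  have h1' : D' (zz p' i₀) = 1 := by rw [hx']; exact h1
  have hz' : ∀ i, i ≠ i₀ → ∃ g ∈ p'.ring, D' (zz p' i) = zz p' i₀ ^ (N - 1) * g := by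
    rw [hring, hx']; exact hz
  have hnn : ∀ f ∈ p.ring, 0 ≤ v f := fun f hf => hv.nonneg hw (hring ▸ hf)
  have hone : ∀ f : K, v f + ((-((1 : ℕ) : ℤ) : ℤ) : WithTop ℤ) ≤ v (D f) := fun f => by
    rw [← val_smul hnn hDx0 hDx1 hDx D f]
    exact hv.deriv_sub hw (fun n f hf => filt_deriv_wN hD'' hN h1' hz' n f hf) f
  obtain ⟨h1, m, a, h2, h3, h4, h5⟩ := exists_inv (p := p) (p' := p') hd hring hu hu0 hu' hjac
    hw hv (i₁ := i₀) (by simp [wN]) h0 hone
  refine ⟨v, h1, ⟨m, a, h2, h3, by simpa using h4, ?_⟩, fun n hn f hf hi => ?_⟩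
  · rw [sum_wN] at h5
    exact h5
  · have hf' : f ∈ p'.ring := hring ▸ hf
    refine hv.le hw (mem_filt_of_iter hD'' hN h1' hz' hn hf' fun i hin => ?_)
    have hmem : ∀ (j : ℕ), D'^[j] f ∈ p.ring := by
      intro j
      induction j with
      | zero => exact hf
      | succ j ih => rw [Function.iterate_succ_apply']; exact hD' _ ih
    rw [mem_filt_one_iff (hring ▸ hmem i), hring, ← mem_filt_one_iff (hmem i)]
    exact hi i hin

/-- The constant. -/
def CC (d : ℕ) (β δ : ℝ) : ℝ :=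
  d * (3 * d - 1) / 2 + d / β + (1 + (d - 1) * (2 / β + 1)) + ((1 + (d - 1) / β) / δ + (d - 1) / β)

theorem exists_ints {p : SmoothPoint k K d} {v : AddValuation K (WithTop ℤ)}
    (hv : ∀ g ∈ p.ring, 0 ≤ v g) {s : ℕ} {f : Fin s → K} (hf : ∀ j, f j ∈ p.ring ∧ f j ≠ 0) :
    ∃ n : Fin s → ℤ, (∀ j, v (f j) = ((n j : ℤ) : WithTop ℤ)) ∧ ∀ j, 0 ≤ n j := by
  have h : ∀ j, ∃ n : ℤ, v (f j) = ((n : ℤ) : WithTop ℤ) ∧ 0 ≤ n := by
    intro j
    have h1 : v (f j) ≠ ⊤ := fun h => (hf j).2 (v.top_iff.1 h)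
    obtain ⟨n, hn⟩ := WithTop.ne_top_iff_exists.1 h1
    refine ⟨n, hn.symm, ?_⟩
    have := hv _ (hf j).1
    rw [← hn] at this
    exact_mod_cast this
  choose n hn using h
  exact ⟨n, fun j => (hn j).1, fun j => (hn j).2⟩

theorem bad_or_lc [CharZero k] {p : SmoothPoint k K d} (hd : 1 ≤ d) {D : Derivation k K K}
    (h0 : D ≠ 0) (hD : ∀ f ∈ p.ring, D f ∈ p.ring) {s : ℕ} {b : Fin s → ℝ} {f : Fin s → K}
    {β δ : ℝ} (hβ : 0 < β) (hδ : 0 < δ) (hb : ∀ j, b j = 0 ∨ β ≤ b j)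
    (hδ' : ∀ n : Fin s → ℕ, 1 < ∑ j, b j * n j → 1 + δ ≤ ∑ j, b j * n j)
    (hf : ∀ j, f j ∈ p.ring ∧ f j ≠ 0) :
    (∀ v : AddValuation K (WithTop ℤ), IsDivisor p v → ∀ m a : ℤ, OrdAlong v D m → Disc p v a →
      ∀ n : Fin s → ℤ, (∀ j, v (f j) = ((n j : ℤ) : WithTop ℤ)) →
        ((m - eps v D m : ℤ) : ℝ) + ∑ j, b j * n j ≤ 0) ∨
    ∃ v : AddValuation K (WithTop ℤ), IsDivisor p v ∧ ∃ m a : ℤ, OrdAlong v D m ∧ Disc p v a ∧
      ∃ n : Fin s → ℤ, (∀ j, v (f j) = ((n j : ℤ) : WithTop ℤ)) ∧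
        0 < ((m - eps v D m : ℤ) : ℝ) + ∑ j, b j * n j ∧
        ((a + 1 : ℤ) : ℝ) ≤ CC d β δ * (((m - eps v D m : ℤ) : ℝ) + ∑ j, b j * n j) := by
  have hd' : (1 : ℝ) ≤ d := by exact_mod_cast hd
  have hb0 : ∀ j, 0 ≤ b j := fun j => by
    rcases hb j with h | h
    · exact h.ge
    · linarith
  -- the parts of the constant
  have c1 : (0 : ℝ) ≤ d * (3 * d - 1) / 2 := by nlinarith
  have c2 : (0 : ℝ) ≤ d / β := by positivity
  have c3 : (0 : ℝ) ≤ 1 + (d - 1) * (2 / β + 1) := by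
    have : (0 : ℝ) ≤ (d - 1) * (2 / β + 1) := mul_nonneg (by linarith) (by positivity)
    linarith
  have c4' : (0 : ℝ) ≤ (d - 1) / β := div_nonneg (by linarith) hβ.le
  have c4 : (0 : ℝ) ≤ (1 + (d - 1) / β) / δ + (d - 1) / β :=
    add_nonneg (div_nonneg (by linarith) hδ.le) c4'
  by_cases hA : ∀ j, b j = 0 ∨ f j ∉ filt p (w1 d) 1
  · -- no component through the point
    have hsum : ∀ v : AddValuation K (WithTop ℤ), IsDivisor p v → ∀ n : Fin s → ℤ,
        (∀ j, v (f j) = ((n j : ℤ) : WithTop ℤ)) → ∑ j, b j * (n j : ℝ) = 0 := by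
      intro v hv n hn
      refine Finset.sum_eq_zero fun j _ => ?_
      rcases hA j with h | h
      · rw [h, zero_mul]
      · have h1 := val_of_not_mem hv.nonneg (hf j).1 h
        rw [hn j] at h1
        have h2 : n j = 0 := by exact_mod_cast h1
        rw [h2]
        simp
    by_cases hbad : ∃ v : AddValuation K (WithTop ℤ), IsDivisor p v ∧ ∃ m a : ℤ,
        OrdAlong v D m ∧ Disc p v a ∧ 1 ≤ m - eps v D m
    · right
      obtain ⟨v, hv, m, a, hm, ha, hme⟩ := hbad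
      have h1 : ∀ g : K, v g + 1 ≤ v (D g) := fun g => by
        refine le_trans ?_ (ge_of_ord hv.surj hm g)
        gcongr
        exact_mod_cast hme
      obtain ⟨h2, N, h3⟩ := nil_of_div hD hv ha h1
      obtain ⟨v', hv', m', a', hm', ha', hme', hA'⟩ := exists_bad hd h2 h3 h0
      obtain ⟨n, hn, -⟩ := exists_ints hv'.nonneg hf
      refine ⟨v', hv', m', a', hm', ha', n, hn, ?_, ?_⟩
      · rw [hsum v' hv' n hn]
        have : (1 : ℝ) ≤ ((m' - eps v' D m' : ℤ) : ℝ) := by exact_mod_cast hme'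
        linarith
      · rw [hsum v' hv' n hn, add_zero]
        have h4 : (1 : ℝ) ≤ ((m' - eps v' D m' : ℤ) : ℝ) := by exact_mod_cast hme'
        have h5 : (2 : ℝ) * ((a' + 1 : ℤ) : ℝ) ≤ d * (3 * d - 1) := by exact_mod_cast hA'
        have h6 : d * (3 * d - 1) / 2 ≤ CC d β δ := by unfold CC; linarith
        calc ((a' + 1 : ℤ) : ℝ) ≤ d * (3 * d - 1) / 2 := by linarith
          _ ≤ CC d β δ := h6
          _ ≤ CC d β δ * ((m' - eps v' D m' : ℤ) : ℝ) :=
            le_mul_of_one_le_right (le_trans c1 h6) h4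
    · left
      intro v hv m a hm ha n hn
      rw [hsum v hv n hn, add_zero]
      push Not at hbad
      have := hbad v hv m a hm ha
      exact_mod_cast (by omega : m - eps v D m ≤ 0)
  · push Not at hA
    obtain ⟨j₀, hj₀, hfj₀⟩ := hA
    have hβj : β ≤ b j₀ := (hb j₀).resolve_left hj₀
    by_cases hB : ∀ g ∈ p.ring, D g ∈ filt p (w1 d) 1
    · -- the blow-up of the point
      right
      obtain ⟨v, hv, ⟨m, a, hm, ha, hme, hA'⟩, hmax⟩ := case_sing hd h0 hB
      obtain ⟨n, hn, hn0⟩ := exists_ints hv.nonneg hf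
      have h1 : (1 : ℤ) ≤ n j₀ := by
        have := hmax _ hfj₀
        rw [hn j₀] at this
        exact_mod_cast this
      have h2 : β ≤ ∑ j, b j * (n j : ℝ) := by
        have h3 : b j₀ * (n j₀ : ℝ) ≤ ∑ j, b j * (n j : ℝ) :=
          Finset.single_le_sum (f := fun j => b j * (n j : ℝ))
            (fun j _ => mul_nonneg (hb0 j) (by exact_mod_cast hn0 j)) (Finset.mem_univ j₀)
        have h4 : (1 : ℝ) ≤ n j₀ := by exact_mod_cast h1
        nlinarith
      have h3 : (0 : ℝ) ≤ ((m - eps v D m : ℤ) : ℝ) := by exact_mod_cast hme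
      have h4 : β ≤ ((m - eps v D m : ℤ) : ℝ) + ∑ j, b j * (n j : ℝ) := by linarith
      refine ⟨v, hv, m, a, hm, ha, n, hn, by linarith, ?_⟩
      have h5 : ((a + 1 : ℤ) : ℝ) ≤ d := by exact_mod_cast hA'
      have h6 : d / β ≤ CC d β δ := by unfold CC; linarith
      calc ((a + 1 : ℤ) : ℝ) ≤ d := h5
        _ = d / β * β := by field_simp
        _ ≤ CC d β δ * (((m - eps v D m : ℤ) : ℝ) + ∑ j, b j * (n j : ℝ)) :=
          mul_le_mul h6 h4 hβ.le (le_trans c2 h6)
    · push Not at hB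
      obtain ⟨g, hg, hDg⟩ := hB
      obtain ⟨c, hc⟩ := p.res ⟨g, hg⟩
      set x : p.ring := ⟨g, hg⟩ - algebraMap k p.ring c with hxdef
      have hDx : D (x : K) = D g := by
        have : (x : K) = g - algebraMap k K c := rfl
        rw [this, map_sub, Derivation.map_algebraMap, sub_zero]
      have hDxr : D (x : K) ∈ p.ring := hD _ x.2
      have hDx' : D (x : K) ∉ filt p (w1 d) 1 := by rw [hDx]; exact hDg
      have hDx2 := mt (mem_filt_one_iff hDxr).2 hDx'
      push Not at hDx2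
      obtain ⟨hDx0, hDxi⟩ := hDx2
      set D' : Derivation k K K := (D (x : K))⁻¹ • D with hD'def
      have hD' : ∀ f ∈ p.ring, D' f ∈ p.ring := fun f hf => by
        rw [hD'def, Derivation.smul_apply, smul_eq_mul]
        exact mul_mem hDxi (hD f hf)
      by_cases hinf : ∃ j₁, b j₁ ≠ 0 ∧ ∀ i, D'^[i] (f j₁) ∈ filt p (w1 d) 1
      · -- a component contains the formal leaf
        right
        obtain ⟨j₁, hj₁, hi⟩ := hinf
        have hβj₁ : β ≤ b j₁ := (hb j₁).resolve_left hj₁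
        have hN : 1 ≤ ⌈2 / β⌉₊ := Nat.one_le_iff_ne_zero.2 (by
          rw [Ne, Nat.ceil_eq_zero, not_le]; positivity)
        obtain ⟨v, hv, ⟨m, a, hm, ha, hme, hA'⟩, hcont⟩ :=
          case_smooth hd h0 hD hc hDx0 hDxi hN
        obtain ⟨n, hn, hn0⟩ := exists_ints hv.nonneg hf
        have h1 : ((⌈2 / β⌉₊ : ℕ) : ℤ) ≤ n j₁ := by
          have := hcont _ le_rfl _ (hf j₁).1 (fun i _ => hi i)
          rw [hn j₁] at this
          exact_mod_cast this
        have h2 : 2 ≤ ∑ j, b j * (n j : ℝ) := by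
          have h3 : b j₁ * (n j₁ : ℝ) ≤ ∑ j, b j * (n j : ℝ) :=
            Finset.single_le_sum (f := fun j => b j * (n j : ℝ))
              (fun j _ => mul_nonneg (hb0 j) (by exact_mod_cast hn0 j)) (Finset.mem_univ j₁)
          have h4 : 2 / β ≤ n j₁ := (Nat.le_ceil _).trans (by exact_mod_cast h1)
          have h5 : β * (2 / β) = 2 := by field_simp
          have h6 : β * (2 / β) ≤ b j₁ * (n j₁ : ℝ) :=
            mul_le_mul hβj₁ h4 (by positivity) (hb0 j₁)
          linarith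
        have h3 : (-1 : ℝ) ≤ ((m - eps v D m : ℤ) : ℝ) := by exact_mod_cast hme
        have h4 : 1 ≤ ((m - eps v D m : ℤ) : ℝ) + ∑ j, b j * (n j : ℝ) := by linarith
        refine ⟨v, hv, m, a, hm, ha, n, hn, by linarith, ?_⟩
        have h5 : ((a + 1 : ℤ) : ℝ) ≤ 1 + (d - 1) * (⌈2 / β⌉₊ : ℝ) := by exact_mod_cast hA'
        have h6 : (⌈2 / β⌉₊ : ℝ) ≤ 2 / β + 1 := (Nat.ceil_lt_add_one (by positivity)).le
        have h7 : (d - 1 : ℝ) * (⌈2 / β⌉₊ : ℝ) ≤ (d - 1) * (2 / β + 1) :=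
          mul_le_mul_of_nonneg_left h6 (by linarith)
        have h8 : 1 + (d - 1) * (2 / β + 1) ≤ CC d β δ := by unfold CC; linarith
        calc ((a + 1 : ℤ) : ℝ) ≤ 1 + (d - 1) * (2 / β + 1) := by linarith
          _ ≤ CC d β δ := h8
          _ ≤ _ := le_mul_of_one_le_right (le_trans c3 h8) h4
      · push Not at hinf
        have hchoice : ∀ j, ∃ c : ℕ, (b j = 0 → c = 0) ∧
            (b j ≠ 0 → D'^[c] (f j) ∉ filt p (w1 d) 1) ∧
            ∀ i < c, D'^[i] (f j) ∈ filt p (w1 d) 1 := by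
          intro j
          by_cases hbj : b j = 0
          · exact ⟨0, fun _ => rfl, fun h => absurd hbj h, fun i hi => absurd hi (by omega)⟩
          · classical
            have hex := hinf j hbj
            refine ⟨Nat.find hex, fun h => absurd h hbj, fun _ => Nat.find_spec hex,
              fun i hi => ?_⟩
            have := Nat.find_min hex hi
            push Not at this
            exact this
        choose c hc0 hc1 hc2 using hchoice
        by_cases hT : ∑ j, b j * (c j : ℝ) ≤ 1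
        · -- log canonical
          left
          intro v hv m a hm ha n hn
          have hvx : v (D (x : K)) = 0 := val_unit hv.nonneg hDx0 hDxr hDxi
          have he := ord_nonpos hv hm x.2 hvx
          have he' : ((m - eps v D m : ℤ) : ℝ) ≤ 0 := by exact_mod_cast he
          have h1 : ∀ j, b j * (n j : ℝ) ≤ -((m - eps v D m : ℤ) : ℝ) * (b j * c j) := by
            intro j
            by_cases hbj : b j = 0
            · rw [hbj]; simp
            · have h2 := val_le hv hm hD' (fun g => val_smul hv.nonneg hDx0 hDxr hDxi D g)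
                (hf j).1 (hc1 j hbj) (hn j)
              have h3 : (n j : ℝ) ≤ -((m - eps v D m : ℤ) : ℝ) * c j := by exact_mod_cast h2
              calc b j * (n j : ℝ) ≤ b j * (-((m - eps v D m : ℤ) : ℝ) * c j) :=
                    mul_le_mul_of_nonneg_left h3 (hb0 j)
                _ = _ := by ring
          have h2 : ∑ j, b j * (n j : ℝ) ≤
              -((m - eps v D m : ℤ) : ℝ) * ∑ j, b j * (c j : ℝ) := by
            rw [Finset.mul_sum]
            exact Finset.sum_le_sum fun j _ => h1 j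
          nlinarith
        · -- not log canonical
          right
          push Not at hT
          have hT' := hδ' c hT
          obtain ⟨j₂, -, hj₂⟩ := Finset.exists_mem_eq_sup (Finset.univ : Finset (Fin s))
            ⟨j₀, Finset.mem_univ _⟩ c
          set N := Finset.univ.sup c with hNdef
          have hcN : ∀ j, c j ≤ N := fun j => Finset.le_sup (f := c) (Finset.mem_univ j)
          have hN : 1 ≤ N := by
            by_contra hlt
            have hz : ∀ j, c j = 0 := fun j => by have := hcN j; omega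
            simp only [hz] at hT
            norm_num at hT
          have hbj₂ : β ≤ b j₂ := by
            refine (hb j₂).resolve_left fun h => ?_
            have := hc0 j₂ h
            omega
          have hNT : β * N ≤ ∑ j, b j * (c j : ℝ) := by
            have h3 : b j₂ * (c j₂ : ℝ) ≤ ∑ j, b j * (c j : ℝ) :=
              Finset.single_le_sum (f := fun j => b j * (c j : ℝ))
                (fun j _ => mul_nonneg (hb0 j) (Nat.cast_nonneg _)) (Finset.mem_univ j₂)
            rw [← hj₂] at h3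
            have h4 : β * (N : ℝ) ≤ b j₂ * N := mul_le_mul_of_nonneg_right hbj₂ (Nat.cast_nonneg _)
            linarith
          obtain ⟨v, hv, ⟨m, a, hm, ha, hme, hA'⟩, hcont⟩ :=
            case_smooth hd h0 hD hc hDx0 hDxi hN
          obtain ⟨n, hn, hn0⟩ := exists_ints hv.nonneg hf
          have h1 : ∀ j, (c j : ℝ) ≤ n j := fun j => by
            have := hcont _ (hcN j) _ (hf j).1 (hc2 j)
            rw [hn j] at this
            exact_mod_cast this
          have h2 : ∑ j, b j * (c j : ℝ) ≤ ∑ j, b j * (n j : ℝ) :=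
            Finset.sum_le_sum fun j _ => mul_le_mul_of_nonneg_left (h1 j) (hb0 j)
          have h3 : (-1 : ℝ) ≤ ((m - eps v D m : ℤ) : ℝ) := by exact_mod_cast hme
          set T := ∑ j, b j * (c j : ℝ) with hTdef
          have h4 : T - 1 ≤ ((m - eps v D m : ℤ) : ℝ) + ∑ j, b j * (n j : ℝ) := by linarith
          refine ⟨v, hv, m, a, hm, ha, n, hn, by linarith, ?_⟩
          have h5 : ((a + 1 : ℤ) : ℝ) ≤ 1 + (d - 1) * (N : ℝ) := by exact_mod_cast hA'
          have h6 : (N : ℝ) ≤ T / β := by rw [le_div_iff₀ hβ]; linarith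
          have h7 : (d - 1 : ℝ) * (N : ℝ) ≤ (d - 1) * (T / β) :=
            mul_le_mul_of_nonneg_left h6 (by linarith)
          have h8 : (1 + (d - 1) / β) / δ + (d - 1) / β ≤ CC d β δ := by unfold CC; linarith
          have h9 : (1 + (d - 1) / β) ≤ (1 + (d - 1) / β) / δ * (T - 1) := by
            rw [div_mul_eq_mul_div, le_div_iff₀ hδ]
            exact mul_le_mul_of_nonneg_left (by linarith) (by linarith)
          calc ((a + 1 : ℤ) : ℝ) ≤ 1 + (d - 1) * (T / β) := by linarith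
            _ = (1 + (d - 1) / β) + (d - 1) / β * (T - 1) := by ring
            _ ≤ (1 + (d - 1) / β) / δ * (T - 1) + (d - 1) / β * (T - 1) := by linarith
            _ = ((1 + (d - 1) / β) / δ + (d - 1) / β) * (T - 1) := by ring
            _ ≤ CC d β δ * (((m - eps v D m : ℤ) : ℝ) + ∑ j, b j * (n j : ℝ)) :=
              mul_le_mul h8 h4 (by linarith) (le_trans c4 h8)

/-- The gap for the interpolated log canonical thresholds. -/
theorem gapB (hd : 1 ≤ d) {Γ : Set ℝ} (hΓ0 : ∀ γ ∈ Γ, 0 ≤ γ)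
    (hΓ : ∀ g : ℕ → ℝ, StrictAnti g → ∃ n, g n ∉ Γ) :
    ∃ η > 0, η ≤ 1 ∧ ∀ (k K : Type) [Field k] [CharZero k] [Field K] [Algebra k K]
      (p : SmoothPoint k K d) (D : Derivation k K K), D ≠ 0 → (∀ f ∈ p.ring, D f ∈ p.ring) →
      ∀ (s : ℕ) (b : Fin s → ℝ) (f : Fin s → K), (∀ j, b j ∈ Γ) →
      (∀ j, f j ∈ p.ring ∧ f j ≠ 0) →
      (∀ t : ℝ, 0 ≤ t → t ≤ 1 → LcB p D b f t) ∨
      (∀ t : ℝ, 0 ≤ t → t ≤ 1 → LcB p D b f t → t ≤ 1 - η) := by
  obtain ⟨β, hβ, δ, hδ, hβ', hδ'⟩ := exists_delta hΓ0 hΓ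
  have hd' : (1 : ℝ) ≤ d := by exact_mod_cast hd
  have hC : 0 < CC d β δ := by
    have c1 : (0 : ℝ) < d * (3 * d - 1) / 2 := by
      have : (0 : ℝ) < d * (3 * d - 1) := mul_pos (by linarith) (by linarith)
      linarith
    have c2 : (0 : ℝ) ≤ d / β := by positivity
    have c3 : (0 : ℝ) ≤ 1 + (d - 1) * (2 / β + 1) := by
      have : (0 : ℝ) ≤ (d - 1) * (2 / β + 1) := mul_nonneg (by linarith) (by positivity)
      linarith
    have c4' : (0 : ℝ) ≤ (d - 1) / β := div_nonneg (by linarith) hβ.le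
    have c4 : (0 : ℝ) ≤ (1 + (d - 1) / β) / δ + (d - 1) / β :=
      add_nonneg (div_nonneg (by linarith) hδ.le) c4'
    unfold CC
    linarith
  set C := CC d β δ with hCdef
  refine ⟨1 / (C + 1), by positivity, ?_, ?_⟩
  · rw [div_le_one (by linarith)]
    linarith
  intro k K _ _ _ _ p D h0 hD s b f hb hf
  rcases bad_or_lc hd h0 hD hβ hδ (fun j => hβ' _ (hb j)) (fun n => hδ' s b n hb) hf with h | h
  · left
    intro t ht0 ht1 v hv m a hm ha n hn
    have h1 := h v hv m a hm ha n hn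
    have h2 : 0 ≤ a := disc_nonneg hv.nonneg ha.1
    have h3 : (0 : ℝ) ≤ a := by exact_mod_cast h2
    push_cast at h1
    nlinarith [mul_nonneg ht0 (neg_nonneg.2 h1), mul_nonneg (sub_nonneg.2 ht1) h3]
  · right
    intro t ht0 ht1 hlc
    obtain ⟨v, hv, m, a, hm, ha, n, hn, hpos, hle⟩ := h
    have h1 := hlc v hv m a hm ha n hn
    set u := ((m - eps v D m : ℤ) : ℝ) + ∑ j, b j * (n j : ℝ) with hu
    have h2 : t * u ≤ (1 - t) * ((a + 1 : ℤ) : ℝ) := by
      rw [hu]
      push_cast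
      nlinarith
    have h3 : (1 - t) * ((a + 1 : ℤ) : ℝ) ≤ (1 - t) * (C * u) :=
      mul_le_mul_of_nonneg_left hle (by linarith)
    have h4 : t ≤ (1 - t) * C := by
      have h5 : t * u ≤ ((1 - t) * C) * u := by linarith
      exact le_of_mul_le_mul_right h5 hpos
    have h5 : 1 - 1 / (C + 1) = C / (C + 1) := by field_simp; ring
    rw [h5, le_div_iff₀ (by linarith)]
    linarith

end Pool.Agent.FolGap
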