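import Pool.Agent.FolGap.Val2

/-!
# The residue field of a monomial valuation

PROOF. `u_j = z_(j+1) ^ (w 0) / z_0 ^ (w (j+1))` for `j : Fin (d - 1)`. For `P ≠ 0` in
`k[U_0, ..., U_(d-2)]` let `M` be a number with `∑ w_(j+1) α_j ≤ M` for all `α` in the support of
`P`. Then `z_0 ^ M * P(u) = Q(z)` with
`Q = ∑ c_α Z_0 ^ (M - ∑ w_(j+1) α_j) ∏ Z_(j+1) ^ (w_0 α_j)`, which is weighted homogeneous of weight
`M * w_0`, and `Q ≠ 0` because different `α` give different monomials. By `MonVal.hom`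
`v (Q(z)) = M w_0 = v (z_0 ^ M)`, hence `v (P(u)) = 0`. (The same proof as in `ValDiv.lean`.)
-/

set_option autoImplicit false

noncomputable section

namespace Pool.Agent.FolGap

open IsLocalRing

variable {k K : Type} [Field k] [Field K] [Algebra k K] {d : ℕ}

/-- The exponent of the homogenized monomial. -/
private def expo_Trdeg {e : ℕ} (w : Fin (e + 1) → ℕ) (M : ℕ) (α : Fin e →₀ ℕ) :
    Fin (e + 1) →₀ ℕ :=
  Finsupp.equivFunOnFinite.symm
    (Fin.cons (M - ∑ j, w j.succ * α j) fun j => w 0 * α j)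

private theorem expo_zero_Trdeg {e : ℕ} (w : Fin (e + 1) → ℕ) (M : ℕ) (α : Fin e →₀ ℕ) :
    expo_Trdeg w M α 0 = M - ∑ j, w j.succ * α j := rfl

private theorem expo_succ_Trdeg {e : ℕ} (w : Fin (e + 1) → ℕ) (M : ℕ) (α : Fin e →₀ ℕ)
    (j : Fin e) : expo_Trdeg w M α j.succ = w 0 * α j := rfl

private theorem expo_inj_Trdeg {e : ℕ} {w : Fin (e + 1) → ℕ} (hw : 1 ≤ w 0) (M : ℕ)
    {α β : Fin e →₀ ℕ} (h : expo_Trdeg w M α = expo_Trdeg w M β) : α = β := by
  ext j
  have h1 := DFunLike.congr_fun h j.succ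
  rw [expo_succ_Trdeg, expo_succ_Trdeg] at h1
  exact Nat.eq_of_mul_eq_mul_left hw h1

private theorem expo_weight_Trdeg {e : ℕ} (w : Fin (e + 1) → ℕ) {M : ℕ} {α : Fin e →₀ ℕ}
    (h : ∑ j, w j.succ * α j ≤ M) : Finsupp.weight w (expo_Trdeg w M α) = M * w 0 := by
  rw [Finsupp.weight_apply, Finsupp.sum_fintype _ _ (by simp), Fin.sum_univ_succ,
    expo_zero_Trdeg]
  simp only [expo_succ_Trdeg, smul_eq_mul]
  have h1 : ∑ j : Fin e, w 0 * α j * w j.succ = (∑ j, w j.succ * α j) * w 0 := by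
    rw [Finset.sum_mul]
    exact Finset.sum_congr rfl fun j _ => by ring
  rw [h1, ← add_mul, Nat.sub_add_cancel h]

private theorem aux_Trdeg [CharZero k] {e : ℕ} {p : SmoothPoint k K (e + 1)}
    {w : Fin (e + 1) → ℕ} (hw : ∀ i, 1 ≤ w i) {v : AddValuation K (WithTop ℤ)}
    (hv : MonVal p w v) :
    ∃ u : Fin e → K, ∀ P : MvPolynomial (Fin e) k, P ≠ 0 → v (MvPolynomial.aeval u P) = 0 := by
  classical
  have hz0 : v (zz p 0) = ((w 0 : ℤ) : WithTop ℤ) := by
    have h := hv.hom hw (MvPolynomial.isWeightedHomogeneous_X k w 0) (MvPolynomial.X_ne_zero 0)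
    rwa [MvPolynomial.aeval_X] at h
  have hz : zz p 0 ≠ 0 := by
    intro h
    rw [h, AddValuation.map_zero] at hz0
    exact WithTop.coe_ne_top hz0.symm
  refine ⟨fun j => zz p j.succ ^ w 0 / zz p 0 ^ w j.succ, fun P hP => ?_⟩
  set u : Fin e → K := fun j => zz p j.succ ^ w 0 / zz p 0 ^ w j.succ with hu
  set M : ℕ := P.support.sup fun α => ∑ j, w j.succ * α j with hM
  have hle : ∀ α ∈ P.support, ∑ j, w j.succ * α j ≤ M := fun α hα =>
    Finset.le_sup (f := fun α : Fin e →₀ ℕ => ∑ j, w j.succ * α j) hα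
  set Q : MvPolynomial (Fin (e + 1)) k :=
    ∑ α ∈ P.support, MvPolynomial.monomial (expo_Trdeg w M α) (P.coeff α) with hQ
  have hQhom : Q.IsWeightedHomogeneous w (M * w 0) := by
    refine MvPolynomial.IsWeightedHomogeneous.sum _ _ _ fun α hα => ?_
    exact MvPolynomial.isWeightedHomogeneous_monomial w _ _ (expo_weight_Trdeg w (hle α hα))
  have hQ0 : Q ≠ 0 := by
    obtain ⟨β, hβ⟩ := MvPolynomial.ne_zero_iff.1 hP
    refine MvPolynomial.ne_zero_iff.2 ⟨expo_Trdeg w M β, ?_⟩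
    rw [hQ, MvPolynomial.coeff_sum, Finset.sum_eq_single β]
    · rwa [MvPolynomial.coeff_monomial, if_pos rfl]
    · intro α _ hαβ
      rw [MvPolynomial.coeff_monomial, if_neg fun h => hαβ (expo_inj_Trdeg (hw 0) M h)]
    · intro h
      exact absurd (MvPolynomial.mem_support_iff.2 hβ) h
  have hmono : ∀ α ∈ P.support, (∏ i, zz p i ^ (expo_Trdeg w M α) i) =
      zz p 0 ^ M * ∏ j, u j ^ α j := by
    intro α hα
    rw [Fin.prod_univ_succ, expo_zero_Trdeg]
    simp only [expo_succ_Trdeg, hu, div_pow]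
    rw [Finset.prod_div_distrib]
    simp only [← pow_mul]
    rw [Finset.prod_pow_eq_pow_sum]
    have h1 : zz p 0 ^ M = zz p 0 ^ (M - ∑ j, w j.succ * α j) *
        zz p 0 ^ (∑ j, w j.succ * α j) := by
      rw [← pow_add, Nat.sub_add_cancel (hle α hα)]
    rw [h1]
    field_simp
  have heval : MvPolynomial.aeval (zz p) Q = zz p 0 ^ M * MvPolynomial.aeval u P := by
    rw [hQ, map_sum, MvPolynomial.aeval_def u, MvPolynomial.eval₂_eq', Finset.mul_sum]
    refine Finset.sum_congr rfl fun α hα => ?_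
    rw [MvPolynomial.aeval_monomial, Finsupp.prod_fintype _ _ (by simp), hmono α hα]
    ring
  have hvQ := hv.hom hw hQhom hQ0
  rw [heval, v.map_mul, v.map_pow, hz0] at hvQ
  have hM0 : M • ((w 0 : ℤ) : WithTop ℤ) = (((M * w 0 : ℕ) : ℤ) : WithTop ℤ) := by
    rw [← WithTop.coe_nsmul]
    congr 1
  rw [hM0] at hvQ
  rcases eq_or_ne (v (MvPolynomial.aeval u P)) ⊤ with h8 | h8
  · rw [h8, add_top] at hvQ
    exact absurd hvQ.symm WithTop.coe_ne_top
  · obtain ⟨y, hy⟩ := WithTop.ne_top_iff_exists.1 h8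
    rw [← hy, ← WithTop.coe_add, WithTop.coe_inj] at hvQ
    rw [← hy]
    have : y = 0 := by omega
    rw [this]
    rfl

theorem MonVal.trdeg_gen_alt [CharZero k] {p : SmoothPoint k K d} {w : Fin d → ℕ}
    (hw : ∀ i, 1 ≤ w i) (hd : 1 ≤ d) {v : AddValuation K (WithTop ℤ)} (hv : MonVal p w v) :
    ∃ u : Fin (d - 1) → K, ∀ P : MvPolynomial (Fin (d - 1)) k, P ≠ 0 →
      v (MvPolynomial.aeval u P) = 0 := by
  obtain ⟨e, rfl⟩ := Nat.exists_eq_add_of_le' hd
  exact aux_Trdeg hw hv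

end Pool.Agent.FolGap
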