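import Pool.Agent.FolGap.Hom

/-!
# The monomial valuation

PROOF. `exists_val`: for `f ∈ K` write `f = g / h` with `g, h` in the ring (`frac`), and put
`v f = ord g - ord h` (`⊤` for `f = 0`), where `ord g = n` iff `IsOrd p w g n` (`exists_ord`; it is
unique: if `IsOrd f a`, `IsOrd f b`, `a < b` then `f ∈ filt b ≤ filt (a + 1)`). By `ord_mul` it does
not depend on the choice: `g h' = g' h` gives `ord g + ord h' = ord g' + ord h`. It is
multiplicative by `ord_mul`, and `v (f + f') ≥ min`: bring `f = g / h`, `f' = g' / h` to a common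
denominator, and `filt n` is closed under sums (`filt_anti`). Use `AddValuation.of`
(`AddValuation.of (f : R → Γ₀) (h0) (h1) (hadd) (hmul)`).
-/

set_option autoImplicit false

noncomputable section

namespace Pool.Agent.FolGap

open IsLocalRing

variable {k K : Type} [Field k] [Field K] [Algebra k K] {d : ℕ}

/-- `v` is the monomial valuation with the weights `w`. -/
def MonVal (p : SmoothPoint k K d) (w : Fin d → ℕ) (v : AddValuation K (WithTop ℤ)) : Prop :=
  ∀ (f : K) (n : ℕ), IsOrd p w f n → v f = ((n : ℤ) : WithTop ℤ)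

private theorem ord_ne_Val {p : SmoothPoint k K d} {w : Fin d → ℕ} {f : K} {a : ℕ}
    (h : IsOrd p w f a) : f ≠ 0 := by
  rintro rfl
  exact h.2 (zero_mem _)

private theorem ord_le_Val {p : SmoothPoint k K d} {w : Fin d → ℕ} {f : K} {a b : ℕ}
    (ha : f ∈ filt p w a) (hb : IsOrd p w f b) : a ≤ b := by
  by_contra hcon
  exact hb.2 (filt_anti p w (by omega : b + 1 ≤ a) ha)

private theorem ord_unique_Val {p : SmoothPoint k K d} {w : Fin d → ℕ} {f : K} {a b : ℕ}
    (ha : IsOrd p w f a) (hb : IsOrd p w f b) : a = b :=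
  le_antisymm (ord_le_Val ha.1 hb) (ord_le_Val hb.1 ha)

/-- `f` is a quotient of elements of order `a`, `b` with `a - b = m` -/
private def Q_Val (p : SmoothPoint k K d) (w : Fin d → ℕ) (f : K) (m : ℤ) : Prop :=
  ∃ (g h : K) (a b : ℕ), f = g / h ∧ IsOrd p w g a ∧ IsOrd p w h b ∧ m = a - b

private theorem Q_ne_Val {p : SmoothPoint k K d} {w : Fin d → ℕ} {f : K} {m : ℤ}
    (h : Q_Val p w f m) : f ≠ 0 := by
  obtain ⟨g, h, a, b, rfl, hg, hh, -⟩ := h
  exact div_ne_zero (ord_ne_Val hg) (ord_ne_Val hh)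

private theorem Q_ex_Val (p : SmoothPoint k K d) {w : Fin d → ℕ} (hw : ∀ i, 1 ≤ w i) {f : K}
    (hf : f ≠ 0) : ∃ m, Q_Val p w f m := by
  obtain ⟨g, hg, h, hh, h0, rfl⟩ := p.frac f
  have hg0 : g ≠ 0 := by
    rintro rfl
    exact hf (zero_div _)
  obtain ⟨a, ha⟩ := exists_ord p hw hg hg0
  obtain ⟨b, hb⟩ := exists_ord p hw hh h0
  exact ⟨a - b, g, h, a, b, rfl, ha, hb, rfl⟩

private theorem Q_unique_Val [CharZero k] {p : SmoothPoint k K d} {w : Fin d → ℕ}
    (hw : ∀ i, 1 ≤ w i) {f : K} {m m' : ℤ} (h : Q_Val p w f m) (h' : Q_Val p w f m') :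
    m = m' := by
  obtain ⟨g, h, a, b, rfl, hg, hh, rfl⟩ := h
  obtain ⟨g', h', a', b', e, hg', hh', rfl⟩ := h'
  rw [div_eq_div_iff (ord_ne_Val hh) (ord_ne_Val hh')] at e
  have h1 := ord_mul p hw hg hh'
  have h2 := ord_mul p hw hg' hh
  rw [e] at h1
  have h3 := ord_unique_Val h1 h2
  omega

private theorem Q_mul_Val [CharZero k] {p : SmoothPoint k K d} {w : Fin d → ℕ}
    (hw : ∀ i, 1 ≤ w i) {f f' : K} {m m' : ℤ} (h : Q_Val p w f m) (h' : Q_Val p w f' m') :
    Q_Val p w (f * f') (m + m') := by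
  obtain ⟨g, h, a, b, rfl, hg, hh, rfl⟩ := h
  obtain ⟨g', h', a', b', rfl, hg', hh', rfl⟩ := h'
  refine ⟨g * g', h * h', a + a', b + b', div_mul_div_comm _ _ _ _, ord_mul p hw hg hg',
    ord_mul p hw hh hh', ?_⟩
  push_cast
  ring

private theorem Q_add_Val [CharZero k] {p : SmoothPoint k K d} {w : Fin d → ℕ}
    (hw : ∀ i, 1 ≤ w i) {f f' : K} {m m' m'' : ℤ} (h : Q_Val p w f m) (h' : Q_Val p w f' m')
    (h'' : Q_Val p w (f + f') m'') : min m m' ≤ m'' := by
  obtain ⟨g, h, a, b, rfl, hg, hh, rfl⟩ := h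
  obtain ⟨g', h', a', b', rfl, hg', hh', rfl⟩ := h'
  have hne := Q_ne_Val h''
  rw [div_add_div _ _ (ord_ne_Val hh) (ord_ne_Val hh')] at h'' hne
  have hG0 : g * h' + h * g' ≠ 0 := by
    intro h0
    rw [h0, zero_div] at hne
    exact hne rfl
  have h1 := (ord_mul p hw hg hh').1
  have h2 := (ord_mul p hw hh hg').1
  obtain ⟨c, hc⟩ := exists_ord p hw (add_mem (filt_le h1) (filt_le h2)) hG0
  have h3 : m'' = c - ((b + b' : ℕ) : ℤ) :=
    Q_unique_Val hw h'' ⟨_, _, c, b + b', rfl, hc, ord_mul p hw hh hh', rfl⟩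
  have h4 : g * h' + h * g' ∈ filt p w (min (a + b') (b + a')) :=
    add_mem (filt_anti p w (min_le_left _ _) h1) (filt_anti p w (min_le_right _ _) h2)
  have h5 := ord_le_Val h4 hc
  rw [h3]
  push_cast
  omega

private theorem ord_one_Val [CharZero k] (p : SmoothPoint k K d) {w : Fin d → ℕ}
    (hw : ∀ i, 1 ≤ w i) : IsOrd p w (1 : K) 0 := by
  obtain ⟨a, ha⟩ := exists_ord p hw (one_mem p.ring) one_ne_zero
  have h1 := ord_mul p hw ha ha
  rw [mul_one] at h1
  have h2 := ord_unique_Val ha h1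
  have h3 : a = 0 := by omega
  rwa [h3] at ha

theorem exists_val [CharZero k] (p : SmoothPoint k K d) {w : Fin d → ℕ} (hw : ∀ i, 1 ≤ w i) :
    ∃ v : AddValuation K (WithTop ℤ), MonVal p w v := by
  classical
  have hex : ∀ f : K, ∃ m : ℤ, f ≠ 0 → Q_Val p w f m := by
    intro f
    by_cases hf : f = 0
    · exact ⟨0, fun h => absurd hf h⟩
    · obtain ⟨m, hm⟩ := Q_ex_Val p hw hf
      exact ⟨m, fun _ => hm⟩
  choose m hm using hex
  have h1 := ord_one_Val (K := K) p hw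
  refine ⟨AddValuation.of (fun f => if f = 0 then ⊤ else ((m f : ℤ) : WithTop ℤ)) ?_ ?_ ?_ ?_,
    fun f n hf => ?_⟩
  · rw [if_pos rfl]
  · rw [if_neg one_ne_zero]
    have h2 : m 1 = 0 := Q_unique_Val hw (hm 1 one_ne_zero)
      ⟨1, 1, 0, 0, (div_one _).symm, h1, h1, by norm_num⟩
    rw [h2]
    rfl
  · intro x y
    by_cases hxy : x + y = 0
    · rw [if_pos hxy]
      exact le_top
    rw [if_neg hxy]
    by_cases hx : x = 0
    · subst hx
      rw [zero_add] at hxy ⊢
      rw [if_neg hxy]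
      exact min_le_right _ _
    by_cases hy : y = 0
    · subst hy
      rw [add_zero] at hxy ⊢
      rw [if_neg hxy]
      exact min_le_left _ _
    rw [if_neg hx, if_neg hy, ← WithTop.coe_min, WithTop.coe_le_coe]
    exact Q_add_Val hw (hm x hx) (hm y hy) (hm _ hxy)
  · intro x y
    by_cases hx : x = 0
    · rw [hx, zero_mul, if_pos rfl, top_add]
    by_cases hy : y = 0
    · rw [hy, mul_zero, if_pos rfl, add_top]
    rw [if_neg hx, if_neg hy, if_neg (mul_ne_zero hx hy), ← WithTop.coe_add, WithTop.coe_inj]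
    exact Q_unique_Val hw (hm _ (mul_ne_zero hx hy)) (Q_mul_Val hw (hm x hx) (hm y hy))
  · rw [AddValuation.of_apply, if_neg (ord_ne_Val hf), WithTop.coe_inj]
    refine Q_unique_Val hw (hm f (ord_ne_Val hf)) ⟨f, 1, n, 0, (div_one _).symm, hf, h1, ?_⟩
    push_cast
    ring

end Pool.Agent.FolGap
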