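import Pool.Agent.FolGap.Val2

/-!
# The monomial valuation with the weights `d, ..., 2 d - 1` is divisorial

PROOF. `nonneg`: `MonVal.nonneg`. `surj`: if `d = 1` take `z_0`, of value `w_0 = 1`; if `d ≥ 2`
take `z_1 / z_0`, of value `(d + 1) - d = 1` (values of coordinates: `MonVal.hom` with `P = X i`).
`trdeg`: `u_j = z_(j+1) ^ w_0 / z_0 ^ w_(j+1)` for `j : Fin (d - 1)` (`w_0 = d`, `w_(j+1) = d + j +
1`). For `P ≠ 0` in `k[U_0, ..., U_(d-2)]` let `M` be a number with `∑ w_(j+1) α_j ≤ M` for all `α`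
in the support of `P`. Then `z_0 ^ M * P(u) = Q(z)` with
`Q = ∑ c_α Z_0 ^ (M - ∑ w_(j+1) α_j) ∏ Z_(j+1) ^ (w_0 α_j)`, which is weighted homogeneous of weight
`M * w_0`, and `Q ≠ 0` because different `α` give different monomials. By `MonVal.hom`
`v (Q(z)) = M w_0 = v (z_0 ^ M)`, hence `v (P(u)) = 0`.
-/

set_option autoImplicit false

noncomputable section

namespace Pool.Agent.FolGap

open IsLocalRing

variable {k K : Type} [Field k] [Field K] [Algebra k K] {d : ℕ}

private theorem coord_val_ValDiv [CharZero k] {p : SmoothPoint k K d} {w : Fin d → ℕ}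
    (hw : ∀ i, 1 ≤ w i) {v : AddValuation K (WithTop ℤ)} (hv : MonVal p w v) (i : Fin d) :
    v (zz p i) = ((w i : ℤ) : WithTop ℤ) := by
  have h := hv.hom hw (MvPolynomial.isWeightedHomogeneous_X k w i) (MvPolynomial.X_ne_zero i)
  rwa [MvPolynomial.aeval_X] at h

private theorem coord_ne_ValDiv [CharZero k] {p : SmoothPoint k K d} {w : Fin d → ℕ}
    (hw : ∀ i, 1 ≤ w i) {v : AddValuation K (WithTop ℤ)} (hv : MonVal p w v) (i : Fin d) :
    zz p i ≠ 0 := by
  intro h
  have h1 := coord_val_ValDiv hw hv i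
  rw [h, AddValuation.map_zero] at h1
  exact WithTop.top_ne_coe h1

/-- The residue field of the monomial valuation has transcendence degree at least `d - 1`. -/
theorem MonVal.trdeg_gen [CharZero k] {p : SmoothPoint k K d} {w : Fin d → ℕ}
    (hw : ∀ i, 1 ≤ w i) (hd : 1 ≤ d) {v : AddValuation K (WithTop ℤ)} (hv : MonVal p w v) :
    ∃ u : Fin (d - 1) → K, ∀ P : MvPolynomial (Fin (d - 1)) k, P ≠ 0 →
      v (MvPolynomial.aeval u P) = 0 := by
  classical
  obtain ⟨e, rfl⟩ : ∃ e, d = e + 1 := ⟨d - 1, by omega⟩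
  show ∃ u : Fin e → K, ∀ P : MvPolynomial (Fin e) k, P ≠ 0 → v (MvPolynomial.aeval u P) = 0
  have h0 : zz p 0 ≠ 0 := coord_ne_ValDiv hw hv 0
  refine ⟨fun j => zz p j.succ ^ w 0 / zz p 0 ^ w j.succ, fun P hP => ?_⟩
  set s : (Fin e →₀ ℕ) → ℕ := fun α => ∑ j, w j.succ * α j with hs
  set M : ℕ := P.support.sup s with hM
  have hsM : ∀ α ∈ P.support, s α ≤ M := fun α hα => Finset.le_sup (f := s) hα
  set β : (Fin e →₀ ℕ) → (Fin (e + 1) →₀ ℕ) := fun α => Finsupp.cons (M - s α) (w 0 • α) with hβ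
  have hβinj : ∀ α α', β α = β α' → α = α' := by
    intro α α' h
    ext j
    have h1 := DFunLike.congr_fun h j.succ
    simp only [hβ, Finsupp.cons_succ, Finsupp.smul_apply, smul_eq_mul] at h1
    exact Nat.eq_of_mul_eq_mul_left (hw 0) h1
  set Q : MvPolynomial (Fin (e + 1)) k :=
    ∑ α ∈ P.support, MvPolynomial.monomial (β α) (P.coeff α) with hQ
  have hQhom : Q.IsWeightedHomogeneous w (M * w 0) := by
    have hmem : Q ∈ MvPolynomial.weightedHomogeneousSubmodule k w (M * w 0) := by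
      refine Submodule.sum_mem _ fun α hα => ?_
      rw [MvPolynomial.mem_weightedHomogeneousSubmodule]
      apply MvPolynomial.isWeightedHomogeneous_monomial
      rw [Finsupp.weight_apply, Finsupp.sum_fintype _ _ (fun i => by simp), Fin.sum_univ_succ]
      simp only [hβ, Finsupp.cons_zero, Finsupp.cons_succ, Finsupp.smul_apply, smul_eq_mul]
      have h1 : ∑ j : Fin e, w 0 * α j * w j.succ = w 0 * s α := by
        rw [hs, Finset.mul_sum]
        exact Finset.sum_congr rfl fun j _ => by ring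
      rw [h1]
      have h2 := hsM α hα
      obtain ⟨r, hr⟩ := Nat.exists_eq_add_of_le h2
      rw [hr, Nat.add_sub_cancel_left]
      ring
    exact hmem
  have hQ0 : Q ≠ 0 := by
    obtain ⟨α₀, hα₀⟩ := MvPolynomial.support_nonempty.2 hP
    intro hzero
    have h1 : Q.coeff (β α₀) = P.coeff α₀ := by
      rw [hQ, MvPolynomial.coeff_sum, Finset.sum_eq_single α₀]
      · rw [MvPolynomial.coeff_monomial, if_pos rfl]
      · intro α _ hne
        rw [MvPolynomial.coeff_monomial, if_neg]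
        intro h
        exact hne (hβinj _ _ h)
      · intro h
        exact absurd hα₀ h
    rw [hzero, MvPolynomial.coeff_zero] at h1
    exact (MvPolynomial.mem_support_iff.1 hα₀) h1.symm
  have hval := hv.hom hw hQhom hQ0
  have heq : MvPolynomial.aeval (zz p) Q = zz p 0 ^ M * MvPolynomial.aeval
      (fun j : Fin e => zz p j.succ ^ w 0 / zz p 0 ^ w j.succ) P := by
    have h1 : MvPolynomial.aeval (fun j : Fin e => zz p j.succ ^ w 0 / zz p 0 ^ w j.succ) P =
        ∑ α ∈ P.support, algebraMap k K (P.coeff α) *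
          ∏ j, (zz p j.succ ^ w 0 / zz p 0 ^ w j.succ) ^ α j := by
      rw [MvPolynomial.aeval_def, MvPolynomial.eval₂_eq']
    rw [h1, hQ, map_sum, Finset.mul_sum]
    refine Finset.sum_congr rfl fun α hα => ?_
    rw [MvPolynomial.aeval_monomial, Finsupp.prod_fintype _ _ (fun i => by simp),
      Fin.prod_univ_succ]
    simp only [hβ, Finsupp.cons_zero, Finsupp.cons_succ, Finsupp.smul_apply, smul_eq_mul]
    have h2 := hsM α hα
    obtain ⟨r, hr⟩ := Nat.exists_eq_add_of_le h2
    have h3 : ∏ j : Fin e, (zz p j.succ ^ w 0 / zz p 0 ^ w j.succ) ^ α j =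
        (∏ j : Fin e, zz p j.succ ^ (w 0 * α j)) / zz p 0 ^ s α := by
      rw [hs, ← Finset.prod_pow_eq_pow_sum, ← Finset.prod_div_distrib]
      refine Finset.prod_congr rfl fun j _ => ?_
      rw [div_pow, ← pow_mul, ← pow_mul]
    rw [h3, hr, Nat.add_sub_cancel_left, pow_add]
    have h4 : zz p 0 ^ s α ≠ 0 := pow_ne_zero _ h0
    field_simp
  rw [heq, v.map_mul, v.map_pow, coord_val_ValDiv hw hv 0] at hval
  rcases eq_or_ne (v (MvPolynomial.aeval
      (fun j : Fin e => zz p j.succ ^ w 0 / zz p 0 ^ w j.succ) P)) ⊤ with h8 | h8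
  · rw [h8, add_top] at hval
    exact absurd hval WithTop.top_ne_coe
  · obtain ⟨y, hy⟩ := WithTop.ne_top_iff_exists.1 h8
    rw [← hy] at hval ⊢
    have h9 : M • ((w 0 : ℤ) : WithTop ℤ) = (((M * w 0 : ℕ) : ℤ) : WithTop ℤ) := by
      rw [← WithTop.coe_nsmul]
      congr 1
    rw [h9, ← WithTop.coe_add, WithTop.coe_inj] at hval
    have : y = 0 := by omega
    rw [this]
    rfl

theorem MonVal.isDivisor [CharZero k] {p : SmoothPoint k K d} (hd : 1 ≤ d)
    {v : AddValuation K (WithTop ℤ)} (hv : MonVal p (w0 d) v) : IsDivisor p v := by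
  have hw : ∀ i, 1 ≤ w0 d i := by
    intro i
    unfold w0
    omega
  refine ⟨fun f hf => hv.nonneg hw hf, ?_, hv.trdeg_gen hw hd⟩
  by_cases h1 : d = 1
  · refine ⟨zz p ⟨0, by omega⟩, ?_⟩
    rw [coord_val_ValDiv hw hv]
    have : w0 d ⟨0, by omega⟩ = 1 := by
      unfold w0
      simp [h1]
    rw [this]
    rfl
  · have hd2 : 2 ≤ d := by omega
    refine ⟨zz p ⟨1, by omega⟩ / zz p ⟨0, by omega⟩, ?_⟩
    have h0 := coord_ne_ValDiv hw hv ⟨0, by omega⟩
    have e1 : v (zz p ⟨1, by omega⟩ / zz p ⟨0, by omega⟩ * zz p ⟨0, by omega⟩) =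
        v (zz p ⟨1, by omega⟩) := by
      rw [div_mul_cancel₀ _ h0]
    rw [v.map_mul, coord_val_ValDiv hw hv, coord_val_ValDiv hw hv] at e1
    rcases eq_or_ne (v (zz p ⟨1, by omega⟩ / zz p ⟨0, by omega⟩)) ⊤ with h8 | h8
    · rw [h8, top_add] at e1
      exact absurd e1 WithTop.top_ne_coe
    · obtain ⟨y, hy⟩ := WithTop.ne_top_iff_exists.1 h8
      rw [← hy] at e1 ⊢
      rw [← WithTop.coe_add, WithTop.coe_inj] at e1
      unfold w0 at e1
      push_cast at e1
      have : y = 1 := by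
        simp at e1
        omega
      rw [this]
      rfl

end Pool.Agent.FolGap
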